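import Pool.Agent.P.MP_a07190_gt.Defs

open scoped RealInnerProductSpace
open Set

namespace Pool.Agent.P.MP_a07190_gt

theorem inner3 (u v : E3) : ⟪u, v⟫ = u 0 * v 0 + u 1 * v 1 + u 2 * v 2 := by
  simp [PiLp.inner_apply, Fin.sum_univ_three]; ring

theorem norm_sq3 (u : E3) : ‖u‖ ^ 2 = u 0 ^ 2 + u 1 ^ 2 + u 2 ^ 2 := by
  rw [← real_inner_self_eq_norm_sq, inner3]; ring

theorem unit3 {u : E3} (h : ‖u‖ = 1) : u 0 ^ 2 + u 1 ^ 2 + u 2 ^ 2 = 1 := by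
  rw [← norm_sq3, h]; norm_num

@[simp] theorem ev_00 : ev 0 0 = 1 := by simp [ev]
@[simp] theorem ev_01 : ev 0 1 = 0 := by simp [ev]
@[simp] theorem ev_10 : ev 1 0 = 0 := by simp [ev]
@[simp] theorem ev_11 : ev 1 1 = 1 := by simp [ev]

theorem ev_decomp (u : E2) : u = u 0 • ev 0 + u 1 • ev 1 := by
  ext i; fin_cases i <;> simp

theorem map_decomp {F : Type*} [NormedAddCommGroup F] [NormedSpace ℝ F] (L : E2 →L[ℝ] F)
    (u : E2) : L u = u 0 • L (ev 0) + u 1 • L (ev 1) := by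
  conv_lhs => rw [ev_decomp u]
  simp

def det3 (u v w : E3) : ℝ :=
  u 0 * (v 1 * w 2 - v 2 * w 1) - u 1 * (v 0 * w 2 - v 2 * w 0) + u 2 * (v 0 * w 1 - v 1 * w 0)

noncomputable def det2 (B : E2 →L[ℝ] E2) : ℝ := B (ev 0) 0 * B (ev 1) 1 - B (ev 1) 0 * B (ev 0) 1

theorem det2_eq (B : E2 →L[ℝ] E2) : B.det = det2 B := by
  rw [ContinuousLinearMap.det, ← LinearMap.det_toMatrix (EuclideanSpace.basisFun (Fin 2) ℝ).toBasis,
    Matrix.det_fin_two]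
  simp [LinearMap.toMatrix_apply, det2, ev]

theorem det2_ne_zero {B : E2 →L[ℝ] E2} (h : B.IsInvertible) : det2 B ≠ 0 := by
  obtain ⟨e, rfl⟩ := h
  rw [← det2_eq]
  exact (LinearEquiv.isUnit_det' e.toLinearEquiv).ne_zero

noncomputable def gram (L : E2 →L[ℝ] E3) : ℝ :=
  ⟪L (ev 0), L (ev 0)⟫ * ⟪L (ev 1), L (ev 1)⟫ - ⟪L (ev 0), L (ev 1)⟫ ^ 2

theorem jac_eq (L : E2 →L[ℝ] E3) : jac L = √(gram L) := rfl

theorem jac_nonneg (L : E2 →L[ℝ] E3) : 0 ≤ jac L := Real.sqrt_nonneg _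

theorem gram_comp (L : E2 →L[ℝ] E3) (B : E2 →L[ℝ] E2) :
    gram (L.comp B) = det2 B ^ 2 * gram L := by
  simp only [gram, det2, ContinuousLinearMap.comp_apply, map_decomp L (B _), inner3,
    PiLp.add_apply, PiLp.smul_apply, smul_eq_mul]
  ring

theorem jac_comp (L : E2 →L[ℝ] E3) (B : E2 →L[ℝ] E2) : jac (L.comp B) = |det2 B| * jac L := by
  rw [jac_eq, jac_eq, gram_comp, Real.sqrt_mul (sq_nonneg _), Real.sqrt_sq_eq_abs]

noncomputable def den (L : E2 →L[ℝ] E3) (n : E3) : ℝ := det3 (L (ev 0)) (L (ev 1)) n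

noncomputable def num (Dw L : E2 →L[ℝ] E3) : ℝ :=
  ⟪Dw (ev 0), L (ev 1)⟫ - ⟪Dw (ev 1), L (ev 0)⟫

theorem den_comp (L : E2 →L[ℝ] E3) (n : E3) (B : E2 →L[ℝ] E2) :
    den (L.comp B) n = det2 B * den L n := by
  simp only [den, det2, det3, ContinuousLinearMap.comp_apply, map_decomp L (B _),
    PiLp.add_apply, PiLp.smul_apply, smul_eq_mul]
  ring

theorem num_comp (Dw L : E2 →L[ℝ] E3) (B : E2 →L[ℝ] E2) :
    num (Dw.comp B) (L.comp B) = det2 B * num Dw L := by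
  simp only [num, det2, ContinuousLinearMap.comp_apply, map_decomp L (B _), map_decomp Dw (B _),
    inner3, PiLp.add_apply, PiLp.smul_apply, smul_eq_mul]
  ring

theorem den_sq {L : E2 →L[ℝ] E3} {n : E3} (hn : ‖n‖ = 1) (hp : ∀ v, ⟪n, L v⟫ = 0) :
    den L n ^ 2 = gram L := by
  have h0 := hp (ev 0)
  have h1 := hp (ev 1)
  have h2 := unit3 hn
  simp only [den, det3, gram, inner3] at *
  set p := L (ev 0)
  set q := L (ev 1)
  have : (p 0 * (q 1 * n 2 - q 2 * n 1) - p 1 * (q 0 * n 2 - q 2 * n 0)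
      + p 2 * (q 0 * n 1 - q 1 * n 0)) ^ 2 =
      ((p 0 * p 0 + p 1 * p 1 + p 2 * p 2) * (q 0 * q 0 + q 1 * q 1 + q 2 * q 2)
        - (p 0 * q 0 + p 1 * q 1 + p 2 * q 2) ^ 2) * (n 0 ^ 2 + n 1 ^ 2 + n 2 ^ 2)
      - (n 0 * p 0 + n 1 * p 1 + n 2 * p 2) ^ 2 * (q 0 * q 0 + q 1 * q 1 + q 2 * q 2)
      - (n 0 * q 0 + n 1 * q 1 + n 2 * q 2) ^ 2 * (p 0 * p 0 + p 1 * p 1 + p 2 * p 2)
      + 2 * (n 0 * p 0 + n 1 * p 1 + n 2 * p 2) * (n 0 * q 0 + n 1 * q 1 + n 2 * q 2)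
        * (p 0 * q 0 + p 1 * q 1 + p 2 * q 2) := by ring
  rw [this, h0, h1, h2]; ring

theorem gram_pos {L : E2 →L[ℝ] E3} (h : Function.Injective L) : 0 < gram L := by
  have h0 : L (ev 0) ≠ 0 := fun e => by
    have := h (e.trans L.map_zero.symm)
    simpa using congrArg (fun u : E2 => u 0) this
  have hE : 0 < ⟪L (ev 0), L (ev 0)⟫ := real_inner_self_pos.2 h0
  set E := ⟪L (ev 0), L (ev 0)⟫ with hEd
  set F := ⟪L (ev 0), L (ev 1)⟫ with hFd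
  have h1 : L (E • ev 1 - F • ev 0) ≠ 0 := fun e => by
    have := h (e.trans L.map_zero.symm)
    have := congrArg (fun u : E2 => u 1) this
    simp at this
    exact hE.ne' this
  have h2 : 0 < ⟪L (E • ev 1 - F • ev 0), L (E • ev 1 - F • ev 0)⟫ := real_inner_self_pos.2 h1
  have h3 : ⟪L (E • ev 1 - F • ev 0), L (E • ev 1 - F • ev 0)⟫ = E * gram L := by
    simp only [map_sub, map_smul, inner_sub_left, inner_sub_right, inner_smul_left,
      inner_smul_right, gram, real_inner_comm (L (ev 0)) (L (ev 1)), ← hEd, ← hFd]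
    simp only [conj_trivial]
    ring
  rw [h3] at h2
  exact (mul_pos_iff_of_pos_left hE).1 h2

theorem jac_pos {L : E2 →L[ℝ] E3} (h : Function.Injective L) : 0 < jac L :=
  Real.sqrt_pos.2 (gram_pos h)

theorem abs_den {L : E2 →L[ℝ] E3} {n : E3} (hn : ‖n‖ = 1) (hp : ∀ v, ⟪n, L v⟫ = 0) :
    |den L n| = jac L := by
  rw [jac_eq, ← den_sq hn hp, Real.sqrt_sq_eq_abs]

theorem den_ne_zero {L : E2 →L[ℝ] E3} {n : E3} (h : Function.Injective L) (hn : ‖n‖ = 1)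
    (hp : ∀ v, ⟪n, L v⟫ = 0) : den L n ≠ 0 := by
  rw [← abs_pos, abs_den hn hp]; exact jac_pos h

/-- components of the cross product of the two tangent vectors -/
theorem cross_eq {p q n : E3} (hn : ‖n‖ = 1) (hp : ⟪n, p⟫ = 0) (hq : ⟪n, q⟫ = 0) :
    p 1 * q 2 - p 2 * q 1 = det3 p q n * n 0 ∧ p 2 * q 0 - p 0 * q 2 = det3 p q n * n 1 ∧
      p 0 * q 1 - p 1 * q 0 = det3 p q n * n 2 := by
  have h2 := unit3 hn
  simp only [det3, inner3] at *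
  refine ⟨?_, ?_, ?_⟩
  · linear_combination (-(p 1 * q 2 - p 2 * q 1)) * h2 + (n 1 * q 2 - n 2 * q 1) * hp
      - (n 1 * p 2 - n 2 * p 1) * hq
  · linear_combination (-(p 2 * q 0 - p 0 * q 2)) * h2 + (n 2 * q 0 - n 0 * q 2) * hp
      - (n 2 * p 0 - n 0 * p 2) * hq
  · linear_combination (-(p 0 * q 1 - p 1 * q 0)) * h2 + (n 0 * q 1 - n 1 * q 0) * hp
      - (n 0 * p 1 - n 1 * p 0) * hq

noncomputable def e3 (i : Fin 3) : E3 := EuclideanSpace.single i 1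

@[simp] theorem e3_apply (i j : Fin 3) : e3 i j = if j = i then 1 else 0 := by
  simp [e3]

theorem map_decomp3 (g : E3 →L[ℝ] ℝ) (u : E3) :
    g u = u 0 * g (e3 0) + u 1 * g (e3 1) + u 2 * g (e3 2) := by
  have : u = u 0 • e3 0 + u 1 • e3 1 + u 2 • e3 2 := by
    ext i; fin_cases i <;> simp
  conv_lhs => rw [this]
  simp

/-- `n ↦ n × v` -/
noncomputable def crossR (v : E3) : E3 →L[ℝ] E3 :=
  LinearMap.toContinuousLinearMap
    { toFun := fun n => WithLp.toLp 2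
        ![n 1 * v 2 - n 2 * v 1, n 2 * v 0 - n 0 * v 2, n 0 * v 1 - n 1 * v 0]
      map_add' := fun a b => by ext i; fin_cases i <;> simp <;> ring
      map_smul' := fun c a => by ext i; fin_cases i <;> simp <;> ring }

@[simp] theorem crossR_0 (v n : E3) : crossR v n 0 = n 1 * v 2 - n 2 * v 1 := rfl
@[simp] theorem crossR_1 (v n : E3) : crossR v n 1 = n 2 * v 0 - n 0 * v 2 := rfl
@[simp] theorem crossR_2 (v n : E3) : crossR v n 2 = n 0 * v 1 - n 1 * v 0 := rfl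

theorem alg_st {L Dw : E2 →L[ℝ] E3} {n v : E3} (g : E3 →L[ℝ] ℝ) (h : Function.Injective L)
    (hn : ‖n‖ = 1) (hp : ∀ u, ⟪n, L u⟫ = 0) (hw : ∀ u, Dw u = g (L u) • v) :
    num Dw L / den L n = g (crossR n v) := by
  rw [div_eq_iff (den_ne_zero h hn hp)]
  obtain ⟨c0, c1, c2⟩ := cross_eq hn (hp (ev 0)) (hp (ev 1))
  simp only [num, den, hw, inner3, PiLp.smul_apply, smul_eq_mul, map_decomp3 g (L _),
    map_decomp3 g (crossR _ _), crossR_0, crossR_1, crossR_2]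
  set p := L (ev 0)
  set q := L (ev 1)
  linear_combination (g (e3 1) * v 2 - g (e3 2) * v 1) * c0 + (g (e3 2) * v 0 - g (e3 0) * v 2) * c1
    + (g (e3 0) * v 1 - g (e3 1) * v 0) * c2

theorem alg_fv {L Dn Dw : E2 →L[ℝ] E3} {n v : E3} (g : E3 →L[ℝ] ℝ) {φ H : ℝ}
    (h : Function.Injective L) (hn : ‖n‖ = 1) (hp : ∀ u, ⟪n, L u⟫ = 0) (hd : ∀ u, ⟪n, Dn u⟫ = 0)
    (hH : ((-⟪Dn (ev 0), L (ev 0)⟫) * ⟪L (ev 1), L (ev 1)⟫
      - (-(⟪Dn (ev 0), L (ev 1)⟫ + ⟪Dn (ev 1), L (ev 0)⟫)) * ⟪L (ev 0), L (ev 1)⟫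
      + (-⟪Dn (ev 1), L (ev 1)⟫) * ⟪L (ev 0), L (ev 0)⟫) / (2 * gram L) = H)
    (hw : ∀ u, Dw u = g (L u) • crossR v n + φ • crossR v (Dn u)) :
    num Dw L / den L n = g v - g n * ⟪v, n⟫ + 2 * H * φ * ⟪v, n⟫ := by
  have hden := den_ne_zero h hn hp
  have hsq := den_sq hn hp
  rw [div_eq_iff (mul_ne_zero two_ne_zero (gram_pos h).ne'), ← hsq] at hH
  rw [div_eq_iff hden]
  obtain ⟨c0, c1, c2⟩ := cross_eq hn (hp (ev 0)) (hp (ev 1))
  obtain ⟨a0, a1, a2⟩ := cross_eq hn (hp (ev 1)) (hd (ev 0))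
  obtain ⟨b0, b1, b2⟩ := cross_eq hn (hp (ev 0)) (hd (ev 1))
  have h2 := unit3 hn
  simp only [den] at hden hH ⊢
  set p := L (ev 0)
  set q := L (ev 1)
  set A := Dn (ev 0)
  set B := Dn (ev 1)
  have k1 : det3 p q n * det3 q A n = ⟪p, q⟫ * ⟪A, q⟫ - ⟪q, q⟫ * ⟪A, p⟫ := by
    have : det3 q A n = (q 1 * A 2 - q 2 * A 1) * n 0 + (q 2 * A 0 - q 0 * A 2) * n 1
      + (q 0 * A 1 - q 1 * A 0) * n 2 := by simp only [det3]; ring
    rw [this]
    simp only [inner3]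
    linear_combination (-(q 1 * A 2 - q 2 * A 1)) * c0 - (q 2 * A 0 - q 0 * A 2) * c1
      - (q 0 * A 1 - q 1 * A 0) * c2
  have k2 : det3 p q n * det3 p B n = ⟪p, p⟫ * ⟪B, q⟫ - ⟪p, q⟫ * ⟪B, p⟫ := by
    have : det3 p B n = (p 1 * B 2 - p 2 * B 1) * n 0 + (p 2 * B 0 - p 0 * B 2) * n 1
      + (p 0 * B 1 - p 1 * B 0) * n 2 := by simp only [det3]; ring
    rw [this]
    simp only [inner3]
    linear_combination (-(p 1 * B 2 - p 2 * B 1)) * c0 - (p 2 * B 0 - p 0 * B 2) * c1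
      - (p 0 * B 1 - p 1 * B 0) * c2
  have k3 : det3 q A n - det3 p B n = 2 * H * det3 p q n := by
    apply mul_left_cancel₀ hden
    linear_combination k1 - k2 + hH
  have e0 : Dw (ev 0) = g p • crossR v n + φ • crossR v A := hw _
  have e1 : Dw (ev 1) = g q • crossR v n + φ • crossR v B := hw _
  have k4 : ⟪crossR v A, q⟫ - ⟪crossR v B, p⟫ = 2 * H * det3 p q n * ⟪v, n⟫ := by
    rw [← k3]
    simp only [inner3, crossR_0, crossR_1, crossR_2]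
    linear_combination v 0 * a0 + v 1 * a1 + v 2 * a2 - v 0 * b0 - v 1 * b1 - v 2 * b2
  have k5 : g p * ⟪crossR v n, q⟫ - g q * ⟪crossR v n, p⟫
      = (g v - g n * ⟪v, n⟫) * det3 p q n := by
    simp only [inner3, crossR_0, crossR_1, crossR_2, map_decomp3 g p, map_decomp3 g q,
      map_decomp3 g v, map_decomp3 g n]
    set g0 := g (e3 0)
    set g1 := g (e3 1)
    set g2 := g (e3 2)
    linear_combination
      (g1 * (n 0 * v 1 - n 1 * v 0) - g2 * (n 2 * v 0 - n 0 * v 2)) * c0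
      + (g2 * (n 1 * v 2 - n 2 * v 1) - g0 * (n 0 * v 1 - n 1 * v 0)) * c1
      + (g0 * (n 2 * v 0 - n 0 * v 2) - g1 * (n 1 * v 2 - n 2 * v 1)) * c2
      + (v 0 * g0 + v 1 * g1 + v 2 * g2) * det3 p q n * h2
  simp only [num, e0, e1, inner_add_left, inner_smul_left, conj_trivial]
  linear_combination k5 + φ * k4

end Pool.Agent.P.MP_a07190_gt
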