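import Pool.Agent.P.MP_a07190_gt.Chart

open scoped Manifold ContDiff RealInnerProductSpace Topology
open Set MeasureTheory Filter

namespace Pool.Agent.P.MP_a07190_gt

variable {M : Type*} [TopologicalSpace M] [ChartedSpace (EuclideanHalfSpace 2) M]
  [MeasurableSpace M] [BorelSpace M] {f : M → E3}

theorem aemeas_symm (x : M) (g : E2 → ENNReal) :
    AEMeasurable (ch x).symm ((volume.restrict (ch x).target).withDensity g) :=
  ((continuousOn_extChartAt_symm x).aemeasurable (measurableSet_tgt x)).mono_ac
    (withDensity_absolutelyContinuous _ _)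

theorem chartArea_apply (x : M) {s : Set M} (hs : MeasurableSet s) :
    chartArea f x s = ∫⁻ y in (ch x).symm ⁻¹' s ∩ (ch x).target,
      ENNReal.ofReal (jac (chartDif f x y)) := by
  rw [chartArea, Measure.map_apply_of_aemeasurable (aemeas_symm x _) hs, withDensity_apply',
    Measure.restrict_restrict' (measurableSet_tgt x)]

theorem measurableSet_pre (x : M) {s : Set M} (hs : MeasurableSet s) :
    MeasurableSet ((ch x).symm ⁻¹' s ∩ (ch x).target) := by
  have h1 : Measurable ((ch x).target.domRestrict (ch x).symm) :=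
    (continuousOn_extChartAt_symm x).domRestrict.measurable
  have h2 := MeasurableSet.subtype_image (measurableSet_tgt x) (h1 hs)
  convert h2 using 1
  ext y
  exact ⟨fun h => ⟨⟨y, h.2⟩, h.1, rfl⟩, by rintro ⟨z, hz, rfl⟩; exact ⟨hz, z.2⟩⟩

theorem measurableSet_src (x : M) : MeasurableSet (ch x).source :=
  (isOpen_extChartAt_source x).measurableSet

theorem chartArea_inter (x : M) {s : Set M} (hs : MeasurableSet s) :
    chartArea f x (s ∩ (ch x).source) = chartArea f x s := by
  rw [chartArea_apply x hs, chartArea_apply x (hs.inter (measurableSet_src x))]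
  congr 2
  ext y
  exact ⟨fun h => ⟨h.1.1, h.2⟩, fun h => ⟨⟨h.1, (ch x).map_target h.2⟩, h.2⟩⟩

variable [IsManifold (𝓡∂ 2) ∞ M]

theorem chartArea_compat (hf : ContMDiff (𝓡∂ 2) 𝓘(ℝ, E3) 1 f) (x x' : M) {s : Set M}
    (hs : MeasurableSet s) (h1 : s ⊆ (ch x).source) (h2 : s ⊆ (ch x').source) :
    chartArea f x s = chartArea f x' s := by
  rw [chartArea_apply x hs, chartArea_apply x' hs]
  have himg : (ch x ∘ (ch x').symm) '' ((ch x').symm ⁻¹' s ∩ (ch x').target)
      = (ch x).symm ⁻¹' s ∩ (ch x).target := by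
    ext y
    constructor
    · rintro ⟨z, ⟨hz, _⟩, rfl⟩
      refine ⟨?_, (ch x).map_source (h1 hz)⟩
      simp only [mem_preimage, Function.comp_apply, (ch x).left_inv (h1 hz)]
      exact hz
    · rintro ⟨hy, hy'⟩
      refine ⟨ch x' ((ch x).symm y), ⟨?_, (ch x').map_source (h2 hy)⟩, ?_⟩
      · simp only [mem_preimage, (ch x').left_inv (h2 hy)]
        exact hy
      · simp only [Function.comp_apply, (ch x').left_inv (h2 hy), (ch x).right_inv hy']
  have hinj : InjOn (ch x ∘ (ch x').symm) ((ch x').symm ⁻¹' s ∩ (ch x').target) := by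
    intro y hy z hz e
    exact (ch x').symm.injOn hy.2 hz.2 ((ch x).injOn (h1 hy.1) (h1 hz.1) e)
  have hsrc : ∀ m ∈ s, m ∈ (chartAt (EuclideanHalfSpace 2) x).source := fun m hm => by
    rw [← extChartAt_source (𝓡∂ 2)]; exact h1 hm
  rw [← himg, lintegral_image_eq_lintegral_abs_det_fderiv_mul volume (measurableSet_pre x' hs)
    (fun y hy => (hasFD_chain hy.2 (mdifferentiableAt_extChartAt (hsrc _ hy.1))).mono
      (fun z hz => tgt_sub x' hz.2)) hinj]
  refine setLIntegral_congr_fun (measurableSet_pre x' hs) fun y hy => ?_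
  simp only
  rw [← ENNReal.ofReal_mul (abs_nonneg _), det2_eq, ← jac_comp]
  congr 2
  have hm : (ch x').symm y ∈ (ch x).source := h1 hy.1
  rw [Function.comp_apply, chartDif_eq hf ((ch x).map_source hm), chartDif_eq hf hy.2,
    (ch x).left_inv hm]
  have := mfderivWithin_extChartAt_symm_comp_mfderiv_extChartAt' (I := 𝓡∂ 2) hm
  ext1 v
  have := congrArg (fun L => L (chA x' y v)) this
  exact congrArg (dif f ((ch x').symm y)) this

/-- On the domain of each chart the area measure is `√(EG - F²) du dv`. -/
theorem area_restrict (hf : ContMDiff (𝓡∂ 2) 𝓘(ℝ, E3) 1 f) (x : M) :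
    (area f).restrict (ch x).source = chartArea f x := by
  have hle : area f ≤ chartArea f x + (⊤ : Measure M).restrict (ch x).sourceᶜ := by
    refine iSup_le fun x' => Measure.le_iff.2 fun s hs => ?_
    rw [← measure_inter_add_sdiff s (measurableSet_src x), Measure.add_apply,
      Measure.restrict_apply hs]
    refine add_le_add ?_ (Measure.le_iff'.1 le_top _)
    rw [← chartArea_inter x' (hs.inter (measurableSet_src x)),
      chartArea_compat hf x' x ((hs.inter (measurableSet_src x)).inter (measurableSet_src x'))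
        inter_subset_right (inter_subset_left.trans inter_subset_right)]
    exact measure_mono (inter_subset_left.trans inter_subset_left)
  ext s hs
  rw [Measure.restrict_apply hs, ← chartArea_inter x hs]
  refine le_antisymm ?_ (Measure.le_iff'.1 (le_iSup (chartArea f) x) _)
  refine (Measure.le_iff'.1 hle _).trans ?_
  rw [Measure.add_apply, Measure.restrict_apply (hs.inter (measurableSet_src x))]
  simp [inter_assoc]

theorem area_apply (hf : ContMDiff (𝓡∂ 2) 𝓘(ℝ, E3) 1 f) (x : M) {s : Set M}
    (hs : MeasurableSet s) (h : s ⊆ (ch x).source) :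
    area f s = ∫⁻ y in (ch x).symm ⁻¹' s ∩ (ch x).target,
      ENNReal.ofReal (jac (chartDif f x y)) := by
  rw [← chartArea_apply x hs, ← area_restrict hf x, Measure.restrict_apply hs,
    inter_eq_left.2 h]

theorem integral_area (hf : ContMDiff (𝓡∂ 2) 𝓘(ℝ, E3) 1 f) (x : M) {g : M → ℝ}
    (hg : Continuous g) (hs : ∀ m ∉ (ch x).source, g m = 0) :
    ∫ m, g m ∂(area f) = ∫ y in (ch x).target, jac (chartDif f x y) * g ((ch x).symm y) := by
  rw [← setIntegral_eq_integral_of_forall_compl_eq_zero hs, area_restrict hf x, chartArea,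
    integral_map (aemeas_symm x _) hg.aestronglyMeasurable,
    integral_withDensity_eq_integral_toReal_smul₀]
  · refine integral_congr_ae (Eventually.of_forall fun y => ?_)
    simp [jac_nonneg]
  · exact ((continuousOn_jac hf x).aemeasurable (measurableSet_tgt x)).ennreal_ofReal
  · exact Eventually.of_forall fun y => ENNReal.ofReal_lt_top

theorem finite_area [CompactSpace M] [T2Space M] (hf : ContMDiff (𝓡∂ 2) 𝓘(ℝ, E3) 1 f) :
    IsFiniteMeasure (area f) := by
  have : IsLocallyFiniteMeasure (area f) := ⟨fun x => by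
    obtain ⟨K, hK, hKs, hKc⟩ := local_compact_nhds (extChartAt_source_mem_nhds (I := 𝓡∂ 2) x)
    refine ⟨K, hK, ?_⟩
    rw [area_apply hf x hKc.measurableSet hKs]
    have hc : IsCompact (ch x '' K) :=
      hKc.image_of_continuousOn ((continuousOn_extChartAt x).mono hKs)
    have hsub : ch x '' K ⊆ (ch x).target := by
      rintro _ ⟨m, hm, rfl⟩; exact (ch x).map_source (hKs hm)
    have : (ch x).symm ⁻¹' K ∩ (ch x).target ⊆ ch x '' K := fun y hy =>
      ⟨_, hy.1, (ch x).right_inv hy.2⟩
    refine (lintegral_mono_set this).trans_lt ?_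
    exact (((continuousOn_jac hf x).mono hsub).integrableOn_compact hc).lintegral_lt_top⟩
  infer_instance

end Pool.Agent.P.MP_a07190_gt
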