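import Pool.Agent.P.MP_a07190_gt.Green

open scoped Manifold ContDiff RealInnerProductSpace Topology
open Set MeasureTheory Filter

namespace Pool.Agent.P.MP_a07190_gt

variable {M : Type*} [TopologicalSpace M] [ChartedSpace (EuclideanHalfSpace 2) M]

/-- the extended chart -/
noncomputable abbrev ch (x : M) : PartialEquiv M E2 := extChartAt (𝓡∂ 2) x

theorem range_I : range (𝓡∂ 2) = {y : E2 | 0 ≤ y 0} := range_modelWithCornersEuclideanHalfSpace 2

theorem tgt_mem {x : M} {y : E2} (hy : y ∈ (ch x).target) : (ch x).target ∈ 𝓝[range (𝓡∂ 2)] y :=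
  extChartAt_target_mem_nhdsWithin_of_mem hy

theorem tgt_sub (x : M) : (ch x).target ⊆ range (𝓡∂ 2) := extChartAt_target_subset_range x

theorem tgt_nonneg {x : M} {y : E2} (hy : y ∈ (ch x).target) : 0 ≤ y 0 := by
  have := tgt_sub x hy
  rwa [range_I] at this

theorem range_mem_nhds {y : E2} (h : 0 < y 0) : range (𝓡∂ 2) ∈ 𝓝 y := by
  rw [range_I]
  have : IsOpen {z : E2 | 0 < z 0} := isOpen_lt continuous_const (by fun_prop)
  exact mem_of_superset (this.mem_nhds h) (fun z (hz : 0 < z 0) => hz.le)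

theorem tgt_mem_nhds {x : M} {y : E2} (hy : y ∈ (ch x).target) (h : 0 < y 0) :
    (ch x).target ∈ 𝓝 y := by
  have := tgt_mem hy
  rwa [nhdsWithin_eq_nhds.2 (range_mem_nhds h)] at this

theorem measurableSet_tgt (x : M) : MeasurableSet (ch x).target := by
  rw [extChartAt_target]
  exact (((chartAt (EuclideanHalfSpace 2) x).open_target.preimage
    (𝓡∂ 2).continuous_symm).measurableSet).inter (𝓡∂ 2).isClosed_range.measurableSet

theorem uniq {x : M} {y : E2} (hy : y ∈ (ch x).target) :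
    UniqueDiffWithinAt ℝ (range (𝓡∂ 2)) y := (𝓡∂ 2).uniqueDiffOn _ (tgt_sub x hy)

variable [IsManifold (𝓡∂ 2) ∞ M]

theorem contDiffOn_ch1 {F : Type*} [NormedAddCommGroup F] [NormedSpace ℝ F] {g : M → F}
    (hg : ContMDiff (𝓡∂ 2) 𝓘(ℝ, F) 1 g) (x : M) :
    ContDiffOn ℝ 1 (g ∘ (ch x).symm) (ch x).target :=
  (hg.comp_contMDiffOn (contMDiffOn_extChartAt_symm x)).contDiffOn

theorem contDiffOn_ch2 {F : Type*} [NormedAddCommGroup F] [NormedSpace ℝ F] {g : M → F}
    (hg : ContMDiff (𝓡∂ 2) 𝓘(ℝ, F) 2 g) (x : M) :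
    ContDiffOn ℝ 2 (g ∘ (ch x).symm) (ch x).target :=
  (hg.comp_contMDiffOn (contMDiffOn_extChartAt_symm x)).contDiffOn

theorem hasFD_ch {g : M → E3} (hg : ContMDiff (𝓡∂ 2) 𝓘(ℝ, E3) 1 g) {x : M} {y : E2}
    (hy : y ∈ (ch x).target) :
    HasFDerivWithinAt (g ∘ (ch x).symm) (chartDif g x y) (range (𝓡∂ 2)) y :=
  ((((contDiffOn_ch1 hg x).differentiableOn one_ne_zero) y hy).mono_of_mem_nhdsWithin
    (tgt_mem hy)).hasFDerivWithinAt

theorem continuousOn_chartDif {g : M → E3} (hg : ContMDiff (𝓡∂ 2) 𝓘(ℝ, E3) 1 g) (x : M) :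
    ContinuousOn (chartDif g x) (ch x).target := by
  refine ((contDiffOn_ch1 hg x).continuousOn_fderivWithin (uniqueDiffOn_extChartAt_target x)
    le_rfl).congr fun y hy => ?_
  exact (((hasFD_ch hg hy).mono (tgt_sub x)).fderivWithin
    (uniqueDiffOn_extChartAt_target x y hy)).symm

/-- derivative of the inverse chart -/
noncomputable def chA (x : M) (y : E2) : E2 →L[ℝ] E2 :=
  mfderivWithin 𝓘(ℝ, E2) (𝓡∂ 2) (ch x).symm (range (𝓡∂ 2)) y

theorem chA_inv {x : M} {y : E2} (hy : y ∈ (ch x).target) : (chA x y).IsInvertible :=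
  isInvertible_mfderivWithin_extChartAt_symm hy

theorem hasFD_chain {F : Type*} [NormedAddCommGroup F] [NormedSpace ℝ F] {g : M → F}
    {x : M} {y : E2} (hy : y ∈ (ch x).target)
    (hg : MDifferentiableAt (𝓡∂ 2) 𝓘(ℝ, F) g ((ch x).symm y)) :
    HasFDerivWithinAt (g ∘ (ch x).symm)
      ((show E2 →L[ℝ] F from mfderiv (𝓡∂ 2) 𝓘(ℝ, F) g ((ch x).symm y)).comp (chA x y))
      (range (𝓡∂ 2)) y :=
  hasMFDerivWithinAt_iff_hasFDerivWithinAt.1
    (hg.hasMFDerivAt.comp_hasMFDerivWithinAt y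
      (mdifferentiableWithinAt_extChartAt_symm hy).hasMFDerivWithinAt)

theorem chartDif_eq {g : M → E3} (hg : ContMDiff (𝓡∂ 2) 𝓘(ℝ, E3) 1 g) {x : M} {y : E2}
    (hy : y ∈ (ch x).target) : chartDif g x y = (dif g ((ch x).symm y)).comp (chA x y) :=
  (hasFD_chain hy (hg.mdifferentiableAt one_ne_zero)).fderivWithin (uniq hy)

omit [IsManifold (𝓡∂ 2) ∞ M] in
theorem dif_eq {g : M → E3} (hg : ContMDiff (𝓡∂ 2) 𝓘(ℝ, E3) 1 g) (m : M) :
    dif g m = chartDif g m (ch m m) := by
  rw [dif, (hg.mdifferentiableAt one_ne_zero).mfderiv]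
  simp [chartDif, writtenInExtChartAt]

theorem hasFD_self {g : M → E3} (hg : ContMDiff (𝓡∂ 2) 𝓘(ℝ, E3) 1 g) (m : M) :
    HasFDerivWithinAt (g ∘ (ch m).symm) (dif g m) (range (𝓡∂ 2)) (ch m m) := by
  rw [dif_eq hg]; exact hasFD_ch hg (mem_extChartAt_target m)

theorem dif_of_hasFD {g : M → E3} (hg : ContMDiff (𝓡∂ 2) 𝓘(ℝ, E3) 1 g) {m : M}
    {L : E2 →L[ℝ] E3} (h : HasFDerivWithinAt (g ∘ (ch m).symm) L (range (𝓡∂ 2)) (ch m m)) :
    dif g m = L :=
  (uniq (mem_extChartAt_target m)).eq (hasFD_self hg m) h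

omit [IsManifold (𝓡∂ 2) ∞ M] in
theorem dif_eq_zero {g : M → E3} {m : M} (h : m ∉ tsupport g) : dif g m = 0 := by
  have : g =ᶠ[𝓝 m] fun _ => 0 := notMem_tsupport_iff_eventuallyEq.1 h
  rw [dif, this.mfderiv_eq]
  exact mfderiv_const

variable {f N : M → E3} {H : ℝ}

omit [IsManifold (𝓡∂ 2) ∞ M] in
theorem IsCMC.smooth1 (h : IsCMC f N H) : ContMDiff (𝓡∂ 2) 𝓘(ℝ, E3) 1 f :=
  h.smooth.of_le one_le_two

theorem IsCMC.perp_ch (h : IsCMC f N H) {x : M} {y : E2} (hy : y ∈ (ch x).target) (v : E2) :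
    ⟪N ((ch x).symm y), chartDif f x y v⟫ = 0 := by
  rw [chartDif_eq h.smooth1 hy]; exact h.perp _ _

theorem IsCMC.inj_ch (h : IsCMC f N H) {x : M} {y : E2} (hy : y ∈ (ch x).target) :
    Function.Injective (chartDif f x y) := by
  rw [chartDif_eq h.smooth1 hy]
  exact (h.immersion _).comp (chA_inv hy).injective

theorem IsCMC.perp_dN (h : IsCMC f N H) (m : M) (v : E2) : ⟪N m, dif N m v⟫ = 0 := by
  have h1 := hasFD_self h.smooth_normal m
  have h2 := h1.inner ℝ h1
  have h3 : (fun t => ⟪(N ∘ (ch m).symm) t, (N ∘ (ch m).symm) t⟫) = fun _ => (1 : ℝ) := by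
    funext t; simp [h.unit]
  rw [h3] at h2
  have h4 := (uniq (mem_extChartAt_target m)).eq h2 (hasFDerivWithinAt_const _ _ _)
  have h5 := congrArg (fun L : E2 →L[ℝ] ℝ => L v) h4
  simp only [ContinuousLinearMap.comp_apply, ContinuousLinearMap.prod_apply, fderivInnerCLM_apply,
    Function.comp_apply, extChartAt_to_inv, zero_apply] at h5
  rw [real_inner_comm (N m)] at h5
  linarith

/-- the density of `d(W · df)` with respect to the oriented area -/
noncomputable def curlM (f N W : M → E3) (m : M) : ℝ :=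
  num (dif W m) (dif f m) / den (dif f m) (N m)

theorem curlM_ch {W : M → E3} (hf : ContMDiff (𝓡∂ 2) 𝓘(ℝ, E3) 1 f)
    (hW : ContMDiff (𝓡∂ 2) 𝓘(ℝ, E3) 1 W) {x : M} {y : E2} (hy : y ∈ (ch x).target) :
    curlM f N W ((ch x).symm y)
      = num (chartDif W x y) (chartDif f x y) / den (chartDif f x y) (N ((ch x).symm y)) := by
  rw [chartDif_eq hf hy, chartDif_eq hW hy, num_comp, den_comp,
    mul_div_mul_left _ _ (det2_ne_zero (chA_inv hy)), curlM]

theorem continuousOn_num {W : M → E3} (hf : ContMDiff (𝓡∂ 2) 𝓘(ℝ, E3) 1 f)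
    (hW : ContMDiff (𝓡∂ 2) 𝓘(ℝ, E3) 1 W) (x : M) :
    ContinuousOn (fun y => num (chartDif W x y) (chartDif f x y)) (ch x).target := by
  have h1 := continuousOn_chartDif hf x
  have h2 := continuousOn_chartDif hW x
  unfold num
  exact ((h2.clm_apply continuousOn_const).inner (h1.clm_apply continuousOn_const)).sub
    ((h2.clm_apply continuousOn_const).inner (h1.clm_apply continuousOn_const))

theorem continuousOn_den (h : IsCMC f N H) (x : M) :
    ContinuousOn (fun y => den (chartDif f x y) (N ((ch x).symm y))) (ch x).target := by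
  have h1 := continuousOn_chartDif h.smooth1 x
  have h2 : ContinuousOn (fun y => N ((ch x).symm y)) (ch x).target :=
    h.smooth_normal.continuous.comp_continuousOn (continuousOn_extChartAt_symm x)
  have h3 : Continuous fun z : E3 × E3 × E3 => det3 z.1 z.2.1 z.2.2 := by
    unfold det3; fun_prop
  exact h3.comp_continuousOn ((h1.clm_apply continuousOn_const).prodMk
    ((h1.clm_apply continuousOn_const).prodMk h2))

theorem continuousOn_jac (hf : ContMDiff (𝓡∂ 2) 𝓘(ℝ, E3) 1 f) (x : M) :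
    ContinuousOn (fun y => jac (chartDif f x y)) (ch x).target := by
  have h1 := continuousOn_chartDif hf x
  have h0 := h1.clm_apply (continuousOn_const (c := ev 0))
  have h2 := h1.clm_apply (continuousOn_const (c := ev 1))
  unfold jac col
  exact (((h0.inner h0).mul (h2.inner h2)).sub ((h0.inner h2).pow 2)).sqrt

omit [IsManifold (𝓡∂ 2) ∞ M] in
theorem continuous_of_ch {g : M → ℝ}
    (h : ∀ x : M, ContinuousOn (fun y => g ((ch x).symm y)) (ch x).target) : Continuous g := by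
  rw [continuous_iff_continuousAt]
  intro x
  have h1 : ContinuousOn g (ch x).source :=
    ((h x).comp (continuousOn_extChartAt x) (fun m hm => (ch x).map_source hm)).congr
      fun m hm => by simp only [Function.comp_apply, (ch x).left_inv hm]
  exact h1.continuousAt (extChartAt_source_mem_nhds x)

theorem continuous_curlM (h : IsCMC f N H) {W : M → E3} (hW : ContMDiff (𝓡∂ 2) 𝓘(ℝ, E3) 1 W) :
    Continuous (curlM f N W) := by
  refine continuous_of_ch fun x => ?_
  refine (((continuousOn_num h.smooth1 hW x).div (continuousOn_den h x) fun y hy =>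
    den_ne_zero (h.inj_ch hy) (h.unit _) (h.perp_ch hy))).congr fun y hy => ?_
  exact curlM_ch h.smooth1 hW hy

end Pool.Agent.P.MP_a07190_gt
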