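import Pool.Agent.P.MP_a07190_gt.Deg

open scoped Manifold ContDiff RealInnerProductSpace Topology
open Set MeasureTheory Filter

namespace Pool.Agent.P.MP_a07190_gt

theorem consts (K0 K5 K6 r R : ℝ) (h5 : 0 ≤ K5) (h6 : 0 ≤ K6) : ∃ V0 > 0, ∀ H V E A m : ℝ,
    0 ≤ V → V < V0 → 0 ≤ E → E ≤ 2 * |H| * V → 0 ≤ A → A ≤ 4 * R ^ 2 + 4 * |H| * V →
    (∀ t > 0, 2 * |H| ≤ K0 ^ 2 * (E / (2 * t) + t * A)) → 0 ≤ m →
    m * (1 / (1 + r ^ 2)) ≤ (1 + K5) * E + 4 * |H| * A → m * (2 * K6 + H ^ 2 / 2) < 1 / 8 := by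
  set C := (1 + r ^ 2) * (2 * (1 + K5) + 4 * (4 * R ^ 2 + 4)) with hC
  have hC0 : 0 < C := by positivity
  set η := min 1 (1 / (16 * C * (2 * K6 + 1))) with hη
  have η0 : 0 < η := lt_min one_pos (by positivity)
  have η1 : η ≤ 1 := min_le_left _ _
  have η2 : η * (16 * C * (2 * K6 + 1)) ≤ 1 := (le_div_iff₀ (by positivity)).1 (min_le_right _ _)
  set t := min 1 (η / (K0 ^ 2 * (4 * R ^ 2) + 1)) with ht
  have t0 : 0 < t := lt_min one_pos (by positivity)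
  have t1 : t ≤ 1 := min_le_left _ _
  have t2 : t * (K0 ^ 2 * (4 * R ^ 2) + 1) ≤ η := (le_div_iff₀ (by positivity)).1 (min_le_right _ _)
  refine ⟨t / (5 * K0 ^ 2 + 1), by positivity, fun H V E A m V0 V1 E0 E1 A0 A1 hH m0 hm => ?_⟩
  have V2 : V * (5 * K0 ^ 2 + 1) ≤ t := ((lt_div_iff₀ (by positivity)).1 V1).le
  have H0 := abs_nonneg H
  have K2 := sq_nonneg K0
  have V3 : V ≤ t := by nlinarith
  have V4 : V ≤ 1 := V3.trans t1
  have k1 : K0 ^ 2 * (E / (2 * t)) ≤ |H| / 5 := by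
    rw [← mul_div_assoc, div_le_div_iff₀ (by positivity) (by positivity)]
    have : K0 ^ 2 * E ≤ K0 ^ 2 * (2 * |H| * V) := by gcongr
    have h2 : |H| * (V * (5 * K0 ^ 2 + 1)) ≤ |H| * t := by gcongr
    nlinarith [mul_nonneg H0 V0]
  have k2 : K0 ^ 2 * (t * A) ≤ η + 4 * |H| / 5 := by
    have h1 : K0 ^ 2 * (t * A) ≤ K0 ^ 2 * (t * (4 * R ^ 2 + 4 * |H| * V)) := by gcongr
    have h2 : |H| * (V * (5 * K0 ^ 2 + 1)) ≤ |H| * 1 := by gcongr; exact V2.trans t1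
    have h3 : t * (K0 ^ 2 * (|H| * V)) ≤ 1 * (K0 ^ 2 * (|H| * V)) := by gcongr
    nlinarith [mul_nonneg H0 V0]
  have k3 : |H| ≤ η := by
    have := hH t t0
    rw [mul_add] at this
    linarith
  have k4 : |H| * V ≤ η * 1 := by gcongr
  have k5 : m ≤ η * C := by
    rw [mul_one_div, div_le_iff₀ (by positivity)] at hm
    refine hm.trans ?_
    have h1 : (1 + K5) * E ≤ (1 + K5) * (2 * η) := by gcongr; linarith
    have h2 : |H| * A ≤ η * (4 * R ^ 2 + 4) := by gcongr; linarith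
    calc _ ≤ ((1 + K5) * (2 * η) + 4 * (η * (4 * R ^ 2 + 4))) * (1 + r ^ 2) := by
          gcongr ?_ * _; linarith
      _ = _ := by rw [hC]; ring
  have k6 : H ^ 2 ≤ 1 := by rw [← sq_abs]; nlinarith
  calc m * (2 * K6 + H ^ 2 / 2) ≤ η * C * (2 * K6 + 1) := by gcongr; linarith
    _ < 1 / 8 := by linarith

theorem core {c δ R x1 x2 y1 y2 : ℝ} (hδ : 0 < δ) (hx : x1 < x2) (hy : y1 < y2) :
    ∃ V0 > 0, ∀ (M : Type*) [TopologicalSpace M] [ChartedSpace (EuclideanHalfSpace 2) M]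
      [IsManifold (𝓡∂ 2) ∞ M] [MeasurableSpace M] [BorelSpace M] [CompactSpace M] [T2Space M]
      (f N : M → E3) (H : ℝ), IsCMC f N H → BData f R →
      (∀ m ∈ (𝓡∂ 2).boundary M, |f m 1| ≤ R) → (∀ m ∈ (𝓡∂ 2).boundary M, δ ≤ |f m 0 - c|) →
      (∀ m ∈ (𝓡∂ 2).boundary M, f m 0 ∈ Icc x1 x2 → f m 1 ∉ Icc y1 y2) →
      InjOn (fun m => f m 0) ((𝓡∂ 2).boundary M ∩ {m | f m 0 ∈ Ioo x1 x2 ∧ y2 < f m 1}) →
      (∃ m ∈ (𝓡∂ 2).boundary M, f m 0 ∈ Ioo x1 x2 ∧ y2 < f m 1) →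
      algVol f N < V0 → ∀ m, f m 0 ≠ c := by
  obtain ⟨A, A', A'', KA, hA⟩ := exists_step hx
  obtain ⟨B, B', B'', KB, hB⟩ := exists_step hy
  obtain ⟨S1, S1', S1'', K1, h1⟩ := exists_step (show c - δ < c - δ / 2 by linarith)
  obtain ⟨S2, S2', S2'', K2, h2⟩ := exists_step (show c + δ / 2 < c + δ by linarith)
  obtain ⟨S3, S3', S3'', K3, h3⟩ :=
    exists_step (show (δ / 4) ^ 2 < (δ / 2) ^ 2 by gcongr; linarith)
  have k1 : 0 ≤ K1 := (abs_nonneg _).trans (h1.b1 0)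
  have k2 : 0 ≤ K2 := (abs_nonneg _).trans (h2.b1 0)
  have k3 : 0 ≤ K3 := (abs_nonneg _).trans (h3.b1 0)
  obtain ⟨V0, hV0, hc⟩ := consts (max KA KB) (K1 + K2) K3 (δ / 2) R (by positivity) k3
  refine ⟨V0, hV0, fun M _ _ _ _ _ _ _ f N H h hb by1 bδ d1 d2 d3 hV m hm => ?_⟩
  have hmb : m ∉ (𝓡∂ 2).boundary M := fun hm' => by
    have := bδ m hm'
    rw [hm, sub_self, abs_zero] at this
    linarith
  obtain ⟨σ, σ0, σ1, hσ⟩ := density h hmb (show 0 < δ / 4 by linarith)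
  have e1 := mono_le h hb (C1.one.sub h3.c1) (K := K3) (r := δ / 2) σ0 (by linarith)
    (fun t => sub_nonneg.2 (h3.le_one t)) (fun t => sub_le_self _ (h3.nonneg t))
    (fun t => by simpa using h3.b1 t)
    (fun t ht => by rw [h3.zero t (ht.trans (by gcongr)), sub_zero])
    (fun t ht => by rw [h3.one t ht, sub_self])
    (fun t ht => by rw [h3.dz t (fun h => absurd h.2 (not_le.2 ht)), sub_self]) (by linarith) (f m)
    (fun m' hm' => by
      have h0 := bδ m' hm'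
      have : δ ^ 2 ≤ (f m' 0 - c) ^ 2 := by rw [← sq_abs (f m' 0 - c)]; gcongr
      unfold sq3
      rw [hm]
      nlinarith [sq_nonneg (f m' 1 - f m 1), sq_nonneg (f m' 2 - f m 2), sq_nonneg δ])
  have e2 := strip_le h hb (h1.c1.sub h2.c1) (K := K1 + K2) (r := δ / 2)
    (fun t => by
      rcases le_total t (c + δ / 2) with ht | ht
      · rw [h2.zero t ht, sub_zero]; exact h1.nonneg t
      · rw [h1.one t (by linarith)]; exact sub_nonneg.2 (h2.le_one t))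
    (fun t => by linarith [h1.le_one t, h2.nonneg t])
    (fun t => (abs_sub _ _).trans (add_le_add (h1.b1 t) (h2.b1 t)))
    (fun m' hm' => by
      rcases le_abs.1 (bδ m' hm') with h0 | h0
      · rw [h1.one _ (by linarith), h2.one _ (by linarith), sub_self]
      · rw [h1.zero _ (by linarith), h2.zero _ (by linarith), sub_self]) (f m)
    (fun t ht => by
      rw [hm] at ht
      have := abs_le.1 ht
      rw [h1.one _ (by linarith), h2.zero _ (by linarith), sub_zero])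
  have e3 := hc H (algVol f N) (exc f N) _ _ (by unfold algVol; positivity) hV (exc_nonneg h)
    (exc_le h hb) (integral_nonneg fun _ => zero_le_one) (area_le h hb by1)
    (fun t ht => H_le h hb hA.c2 hB.c2 (fun t => (hA.b1 t).trans (le_max_left _ _))
      (fun t => (hA.b2 t).trans (le_max_left _ _)) (fun t => (hB.b1 t).trans (le_max_right _ _))
      (fun t => (hB.b2 t).trans (le_max_right _ _)) (fun m' hm' => by
        by_cases h0 : f m' 0 ∈ Icc x1 x2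
        · rw [hB.dz _ (d1 m' hm' h0), mul_zero]
        · rw [hA.dz _ h0, zero_mul]) (deg h hb hA hB d1 d2 d3) ht) measureReal_nonneg e2
  have e4 : σ ^ 2 / 4 * (1 / (2 * σ ^ 2)) = 1 / 8 := by field_simp; norm_num
  have e5 := mul_le_mul_of_nonneg_right hσ (show 0 ≤ 1 / (2 * σ ^ 2) by positivity)
  linarith

end Pool.Agent.P.MP_a07190_gt
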