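import Mathlib

open scoped Manifold ContDiff RealInnerProductSpace
open Set MeasureTheory

namespace Pool.Agent.P.MP_a07190_gt

/-- The Euclidean plane. -/
abbrev E2 := EuclideanSpace ℝ (Fin 2)

/-- Euclidean three-space. -/
abbrev E3 := EuclideanSpace ℝ (Fin 3)

/-- The identification of the plane with `P = {x₃ = 0}`: `(x, y) ↦ (x, y, 0)`. -/
noncomputable def toP (p : E2) : E3 := WithLp.toLp 2 ![p 0, p 1, 0]

/-- The `i`-th coordinate vector of the plane. -/
noncomputable def ev (i : Fin 2) : E2 := EuclideanSpace.single i 1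

/-- The image of the `i`-th coordinate vector under a linear map from the plane to space. -/
noncomputable def col (L : E2 →L[ℝ] E3) (i : Fin 2) : E3 := L (ev i)

variable {M : Type*} [TopologicalSpace M] [ChartedSpace (EuclideanHalfSpace 2) M]

/-- The differential at `m` of a map `g` from the surface with boundary `M` to space. -/
noncomputable def dif (g : M → E3) (m : M) : E2 →L[ℝ] E3 := mfderiv (𝓡∂ 2) 𝓘(ℝ, E3) g m

/-- The coefficient `⟪dg(eᵢ), df(eⱼ)⟫` at `m`. -/
noncomputable def form (g f : M → E3) (m : M) (i j : Fin 2) : ℝ :=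
  ⟪col (dif g m) i, col (dif f m) j⟫

/-- The mean curvature `(eG - 2fF + gE) / (2(EG - F²))` at `m` of the immersion `f` with unit normal
`N`, where `E, F, G` are the coefficients of the first fundamental form `⟪df, df⟫` and `e, f, g`
those of the second fundamental form `-⟪dN, df⟫`. -/
noncomputable def meanCurv (f N : M → E3) (m : M) : ℝ :=
  ((-form N f m 0 0) * form f f m 1 1 - (-(form N f m 0 1 + form N f m 1 0)) * form f f m 0 1
    + (-form N f m 1 1) * form f f m 0 0)
  / (2 * (form f f m 0 0 * form f f m 1 1 - form f f m 0 1 ^ 2))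

/-- The area element `√(EG - F²)` of a linear map from the plane to space. -/
noncomputable def jac (L : E2 →L[ℝ] E3) : ℝ :=
  √(⟪col L 0, col L 0⟫ * ⟪col L 1, col L 1⟫ - ⟪col L 0, col L 1⟫ ^ 2)

/-- The derivative at the point `y` of `g` read in the chart at `x`. -/
noncomputable def chartDif (g : M → E3) (x : M) (y : E2) : E2 →L[ℝ] E3 :=
  fderivWithin ℝ (g ∘ (extChartAt (𝓡∂ 2) x).symm) (range (𝓡∂ 2)) y

/-- The measure `√(EG - F²) du dv` on the domain of the chart at `x`. -/
noncomputable def chartArea [MeasurableSpace M] (f : M → E3) (x : M) : Measure M :=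
  Measure.map (extChartAt (𝓡∂ 2) x).symm
    ((volume.restrict (extChartAt (𝓡∂ 2) x).target).withDensity
      fun y => ENNReal.ofReal (jac (chartDif f x y)))

/-- The area measure `dA` of the immersion `f`: the chart measures glued together (their least
upper bound; `area_restrict` shows that it is `chartArea f x` on the domain of each chart). -/
noncomputable def area [MeasurableSpace M] (f : M → E3) : Measure M := ⨆ x, chartArea f x

/-- `g` is a `C^n` map from the surface with boundary `M` to space. -/
def IsCn (n : WithTop ℕ∞) (g : M → E3) : Prop := ContMDiff (𝓡∂ 2) 𝓘(ℝ, E3) n g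

/-- The differential of `f` is injective everywhere. -/
def IsImmersed (f : M → E3) : Prop := ∀ m, Function.Injective (dif f m)

/-- `N` is orthogonal to the image of the differential of `f`. -/
def IsNormal (f N : M → E3) : Prop := ∀ m v, ⟪N m, dif f m v⟫ = 0

/-- `f` is a `C²` immersion of `M` with `C¹` unit normal `N` and constant mean curvature `H`. -/
structure IsCMC (f N : M → E3) (H : ℝ) : Prop where
  smooth : IsCn 2 f
  immersion : IsImmersed f
  smooth_normal : IsCn 1 N
  unit : ∀ m, ‖N m‖ = 1
  perp : IsNormal f N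
  cmc : ∀ m, meanCurv f N m = H

/-- The algebraic volume `(1/3) |∫ ⟪p, N⟫ dA|`. -/
noncomputable def algVol [MeasurableSpace M] (f N : M → E3) : ℝ :=
  1 / 3 * |∫ m, ⟪f m, N m⟫ ∂(area f)|

end Pool.Agent.P.MP_a07190_gt
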