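import Pool.Agent.P.MP_a07190_gt.Dens

open scoped Manifold ContDiff RealInnerProductSpace Topology
open Set MeasureTheory Filter

namespace Pool.Agent.P.MP_a07190_gt

variable {M : Type*} [TopologicalSpace M] [ChartedSpace (EuclideanHalfSpace 2) M]
  {f N : M → E3} {H : ℝ} [IsManifold (𝓡∂ 2) ∞ M]

theorem continuousOn_tau (hf : ContMDiff (𝓡∂ 2) 𝓘(ℝ, E3) 1 f) (x : M) :
    ContinuousOn (tau f x) (Vb x) :=
  ((continuousOn_chartDif hf x).comp cont_pt0.continuousOn fun _ hv => hv).clm_apply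
    continuousOn_const

variable [MeasurableSpace M] [BorelSpace M] [CompactSpace M] [T2Space M] {R : ℝ}

theorem deg (h : IsCMC f N H) (hb : BData f R) {x1 x2 y1 y2 K K' : ℝ}
    {A A' A'' B B' B'' : ℝ → ℝ} (hA : Step x1 x2 A A' A'' K) (hB : Step y1 y2 B B' B'' K')
    (d1 : ∀ m ∈ (𝓡∂ 2).boundary M, f m 0 ∈ Icc x1 x2 → f m 1 ∉ Icc y1 y2)
    (d2 : InjOn (fun m => f m 0)
      ((𝓡∂ 2).boundary M ∩ {m | f m 0 ∈ Ioo x1 x2 ∧ y2 < f m 1}))
    (d3 : ∃ m ∈ (𝓡∂ 2).boundary M, f m 0 ∈ Ioo x1 x2 ∧ y2 < f m 1) :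
    |∫ m, A' (f m 0) * B' (f m 1) * N m 2 ∂(area f)| = 1 := by
  have hf := h.smooth.continuous
  have hN := h.smooth_normal.continuous
  obtain ⟨x, hx, hxT⟩ := d3
  obtain ⟨U, ε, hUo, hUx, hUs, hε, hεU⟩ := exists_sign h x
  obtain ⟨v0, hv0, hg0⟩ := exists_gam (mem_extChartAt_source x) hx
  have hTo : IsOpen {m | f m 0 ∈ Ioo x1 x2 ∧ y2 < f m 1} :=
    (isOpen_Ioo.preimage (f := fun m => f m 0) (by fun_prop)).inter
      (isOpen_lt (g := fun m => f m 1) continuous_const (by fun_prop))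
  have hO := (continuousOn_gam x).isOpen_inter_preimage (isOpen_Vb x) (hUo.inter hTo)
  obtain ⟨p, q, hpq, hsub⟩ : ∃ p q, p < q ∧
      Icc p q ⊆ Vb x ∩ gam x ⁻¹' (U ∩ {m | f m 0 ∈ Ioo x1 x2 ∧ y2 < f m 1}) := by
    obtain ⟨δ, hδ, hs⟩ := Metric.nhds_basis_closedBall.mem_iff.1
      (hO.mem_nhds ⟨hv0, by rw [mem_preimage, hg0]; exact ⟨hUx, hxT⟩⟩)
    exact ⟨v0 - δ, v0 + δ, by linarith, by rwa [← Real.closedBall_eq_Icc]⟩
  have hgc : ContinuousOn (gam x) (Icc p q) := (continuousOn_gam x).mono fun v hv => (hsub hv).1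
  have hKc : IsCompact (gam x '' Icc p q) := isCompact_Icc.image_of_continuousOn hgc
  obtain ⟨η, η0, η1, -⟩ := exists_contMDiffMap_zero_one_nhds_of_isClosed (𝓡∂ 2) (n := 1)
    hUo.isClosed_compl hKc.isClosed (by
      rw [disjoint_compl_left_iff_subset]; rintro _ ⟨v, hv, rfl⟩; exact (hsub hv).2.1)
  set X : ℝ → ℝ := fun v => f (gam x v) 0 with hX
  have hXc : ContinuousOn X (Icc p q) :=
    (show Continuous fun m => f m 0 by fun_prop).comp_continuousOn hgc
  have hp : p ∈ Icc p q := left_mem_Icc.2 hpq.le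
  have hq : q ∈ Icc p q := right_mem_Icc.2 hpq.le
  have hne : X p ≠ X q := fun e => hpq.ne (injOn_gam x (hsub hp).1 (hsub hq).1
    (d2 ⟨gam_mem (hsub hp).1, (hsub hp).2.2⟩ ⟨gam_mem (hsub hq).1, (hsub hq).2.2⟩ e))
  obtain ⟨S, S', S'', K1, hS⟩ := exists_step (min_lt_max.2 hne)
  have hlo : x1 < min (X p) (X q) := lt_min (hsub hp).2.2.1.1 (hsub hq).2.2.1.1
  have hhi : max (X p) (X q) < x2 := max_lt (hsub hp).2.2.1.2 (hsub hq).2.2.1.2
  have hφ := contDiff_prod3 hS.c2 hB.c1 C1.one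
  have hW := smooth_st h hφ (e3 0)
  set W : M → E3 := fun m => prod3 S' B (fun _ => 1) (f m) • e3 0 with hWd
  have hin : ∀ m ∈ (𝓡∂ 2).boundary M, m ∉ gam x '' Icc p q → W m = 0 := by
    intro m hm hn
    by_contra hw
    have h1 : S' (f m 0) ≠ 0 := fun e => hw (by simp [hWd, prod3, e])
    have h2 : B (f m 1) ≠ 0 := fun e => hw (by simp [hWd, prod3, e])
    have h3 : f m 0 ∈ Icc (min (X p) (X q)) (max (X p) (X q)) := by
      by_contra h3; exact h1 (hS.dz _ h3)
    have h4 : f m 0 ∈ Ioo x1 x2 := ⟨hlo.trans_le h3.1, h3.2.trans_lt hhi⟩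
    have h5 : y2 < f m 1 := by
      by_contra h5
      exact d1 m hm (Ioo_subset_Icc_self h4)
        ⟨le_of_not_ge fun h6 => h2 (hB.zero _ h6), not_lt.1 h5⟩
    have h6 := intermediate_value_uIcc (a := p) (b := q) (f := X) (by rwa [uIcc_of_le hpq.le])
    obtain ⟨v, hv, e⟩ := h6 h3
    rw [uIcc_of_le hpq.le] at hv
    exact hn ⟨v, hv, d2 ⟨gam_mem (hsub hv).1, (hsub hv).2.2⟩ ⟨hm, h4, h5⟩ e⟩
  have hW1 : ContMDiff (𝓡∂ 2) 𝓘(ℝ, E3) 1 fun m => η m • W m := η.contMDiff.smul hW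
  have hW2 : ContMDiff (𝓡∂ 2) 𝓘(ℝ, E3) 1 fun m => (1 - η m) • W m :=
    (contMDiff_const.sub η.contMDiff).smul hW
  have hsum : ∀ m, curlM f N W m
      = curlM f N (fun m => η m • W m) m + curlM f N (fun m => (1 - η m) • W m) m := fun m => by
    have := curlM_sum (f := f) (N := N) (Wi := ![fun m => η m • W m, fun m => (1 - η m) • W m]) hW
      (fun i => by fin_cases i; exacts [hW1, hW2]) (fun m => by simp [← add_smul]) m
    simpa using this
  have z2 : ∫ m, curlM f N (fun m => (1 - η m) • W m) m ∂(area f) = 0 :=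
    stokes_zero h hb hW2 fun m hm => by
      by_cases hk : m ∈ gam x '' Icc p q
      · rw [η1.self_of_nhdsSet m hk, sub_self, zero_smul]
      · rw [hin m hm hk, smul_zero]
  have z1 := stokes_chart h x hUs hεU hW1 ((tsupport_smul_subset_left _ _).trans fun m hm => by
    by_contra hU
    exact notMem_tsupport_iff_eventuallyEq.2 (η0.filter_mono (nhds_le_nhdsSet hU)) hm)
  have z3 : ∫ v, bd f (fun m => η m • W m) x v = S (X q) - S (X p) := by
    rw [← setIntegral_eq_integral_of_forall_compl_eq_zero (s := Icc p q) (fun v hv => by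
      by_cases hv' : v ∈ Vb x
      · rw [bd_of_mem hv', hin _ (gam_mem hv') (fun ⟨w, hw, e⟩ =>
          hv (injOn_gam x (hsub hw).1 hv' e ▸ hw))]
        simp
      · exact bd_of_notMem hv'), integral_Icc_eq_integral_Ioc,
      ← intervalIntegral.integral_of_le hpq.le,
      ← intervalIntegral.integral_eq_sub_of_hasDerivAt (f := fun v => S (X v))
        (f' := fun v => S' (X v) * tau f x v 0)]
    · refine intervalIntegral.integral_congr fun v hv => ?_
      rw [uIcc_of_le hpq.le] at hv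
      simp only
      rw [bd_of_mem (hsub hv).1, η1.self_of_nhdsSet _ ⟨v, hv, rfl⟩]
      simp [hWd, prod3, inner3, hB.one _ (hsub hv).2.2.2.le, hX]
    · intro v hv
      rw [uIcc_of_le hpq.le] at hv
      exact (hS.c1.hd _).comp v (hasDerivAt_gam' h.smooth1 (hsub hv).1 0)
    · refine ContinuousOn.intervalIntegrable ?_
      rw [uIcc_of_le hpq.le]
      exact (hS.c1.hc.comp_continuousOn hXc).mul
        ((show Continuous fun u : E3 => u 0 by fun_prop).comp_continuousOn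
          ((continuousOn_tau h.smooth1 x).mono fun v hv => (hsub hv).1))
  have z4 : |S (X q) - S (X p)| = 1 := by
    rcases le_total (X p) (X q) with e | e
    · rw [hS.one (X q) (max_le e le_rfl), hS.zero (X p) (le_min le_rfl e)]; simp
    · rw [hS.one (X p) (max_le le_rfl e), hS.zero (X q) (le_min e le_rfl)]; simp
  have z5 : |∫ m, curlM f N W m ∂(area f)| = 1 := by
    simp only [hsum]
    rw [integral_add (integrable_cont h.smooth1 (continuous_curlM h hW1))
      (integrable_cont h.smooth1 (continuous_curlM h hW2)), z1, z2, z3, add_zero, abs_mul,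
      abs_neg, hε, z4, one_mul]
  simp only [hWd, curlM_st h hφ, fderiv_prod3 hS.c2 hB.c1 C1.one] at z5
  have z6 := st_zero h hb (contDiff_prod3 (hA.c1.sub hS.c1) hB.c2 C1.one) (e3 1) (fun m hm => by
    by_cases h1 : f m 0 ∈ Icc x1 x2
    · simp [prod3, hB.dz _ (d1 m hm h1)]
    · rcases not_and_or.1 h1 with h2 | h2
      · simp [prod3, hA.zero _ (not_le.1 h2).le, hS.zero _ ((not_le.1 h2).le.trans hlo.le)]
      · simp [prod3, hA.one _ (not_le.1 h2).le, hS.one _ (hhi.le.trans (not_le.1 h2).le)])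
  simp only [fderiv_prod3 (hA.c1.sub hS.c1) hB.c2 C1.one] at z6
  have c1 := hA.c1.hc
  have c2 := hS.c1.hc
  have c3 := hB.c1.hc
  have z7 : ∫ m, A' (f m 0) * B' (f m 1) * N m 2 ∂(area f)
      = ∫ m, S' (f m 0) * B' (f m 1) * N m 2 ∂(area f) := by
    rw [← sub_eq_zero, ← integral_sub (integrable_cont h.smooth1 (by fun_prop))
      (integrable_cont h.smooth1 (by fun_prop)), ← z6]
    refine integral_congr_ae (Eventually.of_forall fun m => ?_)
    simp; ring
  rw [z7, ← z5, ← abs_neg, ← integral_neg]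
  congr 1
  refine integral_congr_ae (Eventually.of_forall fun m => ?_)
  simp

end Pool.Agent.P.MP_a07190_gt
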