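import Pool.Agent.P.MP_a07190_gt.Mono

open scoped Manifold ContDiff RealInnerProductSpace Topology
open Set MeasureTheory Filter

namespace Pool.Agent.P.MP_a07190_gt

theorem exists_gs {L : E2 →L[ℝ] E3} (h : Function.Injective L) :
    ∃ B : E2 →L[ℝ] E2, (∀ u, ‖L (B u)‖ = ‖u‖) ∧ |det2 B| * jac L = 1 := by
  have h0 : L (ev 0) ≠ 0 := fun e => by
    have := h (e.trans L.map_zero.symm)
    simpa using congrArg (fun u : E2 => u 0) this
  have hE : 0 < ⟪L (ev 0), L (ev 0)⟫ := real_inner_self_pos.2 h0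
  have hg := gram_pos h
  set E := ⟪L (ev 0), L (ev 0)⟫ with hEd
  set F := ⟪L (ev 0), L (ev 1)⟫ with hFd
  set G := ⟪L (ev 1), L (ev 1)⟫ with hGd
  have hgd : gram L = E * G - F ^ 2 := rfl
  set a := (√E)⁻¹
  set b := (√(E * gram L))⁻¹
  have ha : a ^ 2 * E = 1 := by
    rw [inv_pow, Real.sq_sqrt hE.le]; field_simp
  have hb : b ^ 2 * (E * gram L) = 1 := by
    rw [inv_pow, Real.sq_sqrt (by positivity)]; field_simp
  set B : E2 →L[ℝ] E2 := (EuclideanSpace.proj 0 : E2 →L[ℝ] ℝ).smulRight (a • ev 0)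
    + (EuclideanSpace.proj 1 : E2 →L[ℝ] ℝ).smulRight (b • (E • ev 1 - F • ev 0)) with hB
  have b0 : L (B (ev 0)) = a • L (ev 0) := by simp [hB]
  have b1 : L (B (ev 1)) = b • (E • L (ev 1) - F • L (ev 0)) := by simp [hB]
  have i00 : ⟪L (B (ev 0)), L (B (ev 0))⟫ = 1 := by
    rw [b0, inner_smul_left, inner_smul_right, ← hEd, conj_trivial]; linear_combination ha
  have i01 : ⟪L (B (ev 0)), L (B (ev 1))⟫ = 0 := by
    simp only [b0, b1, inner_smul_left, inner_smul_right, inner_sub_right, ← hEd, ← hFd,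
      conj_trivial]
    ring
  have i11 : ⟪L (B (ev 1)), L (B (ev 1))⟫ = 1 := by
    simp only [b1, inner_smul_left, inner_smul_right, inner_sub_right, inner_sub_left, ← hEd,
      ← hFd, ← hGd, conj_trivial, real_inner_comm (L (ev 0)) (L (ev 1))]
    rw [hgd] at hb
    linear_combination hb
  refine ⟨B, fun u => ?_, ?_⟩
  · have : ‖L (B u)‖ ^ 2 = ‖u‖ ^ 2 := by
      rw [← real_inner_self_eq_norm_sq, EuclideanSpace.real_norm_sq_eq, Fin.sum_univ_two,
        map_decomp B u]
      simp only [map_add, map_smul, inner_add_left, inner_add_right, inner_smul_left,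
        inner_smul_right, i00, i01, i11, conj_trivial,
        real_inner_comm (L (B (ev 0))) (L (B (ev 1)))]
      ring
    exact (sq_eq_sq₀ (norm_nonneg _) (norm_nonneg _)).1 this
  · rw [← jac_comp, jac]
    simp only [col, ContinuousLinearMap.comp_apply, i00, i01, i11]
    simp

variable {M : Type*} [TopologicalSpace M] [ChartedSpace (EuclideanHalfSpace 2) M]
  {f N : M → E3} {H : ℝ} [IsManifold (𝓡∂ 2) ∞ M]
  [MeasurableSpace M] [BorelSpace M] [CompactSpace M] [T2Space M]

theorem density (h : IsCMC f N H) {x : M} (hx : x ∉ (𝓡∂ 2).boundary M) {σ1 : ℝ} (hσ : 0 < σ1) :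
    ∃ σ, 0 < σ ∧ σ ≤ σ1 ∧ σ ^ 2 / 4 ≤ (area f).real (f ⁻¹' Metric.closedBall (f x) σ) := by
  have := finite_area h.smooth1
  have hy := mem_extChartAt_target (I := 𝓡∂ 2) x
  have h0 : 0 < ch x x 0 := lt_of_le_of_ne (tgt_nonneg hy) fun e =>
    hx (by have := (bdry_iff hy).2 e.symm; rwa [extChartAt_to_inv] at this)
  have hT := tgt_mem_nhds hy h0
  obtain ⟨B, hB, hdet⟩ := exists_gs (h.inj_ch hy)
  set L := chartDif f x (ch x x) with hL
  have hJ : 0 < jac L := jac_pos (h.inj_ch hy)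
  have hA : HasFDerivAt (fun u => ch x x + B u) B 0 := B.hasFDerivAt.const_add _
  have hA0 : Tendsto (fun u => ch x x + B u) (𝓝 0) (𝓝 (ch x x)) := by
    simpa using hA.continuousAt.tendsto
  have hF : HasFDerivAt (f ∘ (ch x).symm) L (ch x x + B 0) := by
    rw [map_zero, add_zero]
    exact (hasFD_ch h.smooth1 hy).hasFDerivAt (range_mem_nhds h0)
  have hG := (hF.comp 0 hA).isLittleO.bound one_pos
  have hJc : ∀ᶠ y in 𝓝 (ch x x), jac L / 2 < jac (chartDif f x y) :=
    ((continuousOn_jac h.smooth1 x).continuousAt hT).eventually (lt_mem_nhds (by linarith))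
  obtain ⟨δ, hδ, hball⟩ := Metric.nhds_basis_closedBall.eventually_iff.1
    (hG.and ((hA0.eventually hJc).and (hA0.eventually hT)))
  set ρ := min δ (σ1 / 2)
  have hρ : 0 < ρ := lt_min hδ (by linarith)
  refine ⟨2 * ρ, by linarith, by linarith [min_le_right δ (σ1 / 2)], ?_⟩
  set S := (fun z => ch x x + z) '' (B '' Metric.closedBall 0 ρ) with hS
  have hSm : MeasurableSet S :=
    (((isCompact_closedBall _ _).image B.continuous).image (by fun_prop)).measurableSet
  have hmem : ∀ y ∈ S, ∃ u ∈ Metric.closedBall (0 : E2) δ, ‖u‖ ≤ ρ ∧ y = ch x x + B u := by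
    rintro _ ⟨_, ⟨u, hu, rfl⟩, rfl⟩
    exact ⟨u, Metric.closedBall_subset_closedBall (min_le_left _ _) hu, by simpa using hu, rfl⟩
  have hsub : S ⊆ (ch x).symm ⁻¹' (f ⁻¹' Metric.closedBall (f x) (2 * ρ)) ∩ (ch x).target := by
    intro y hy
    obtain ⟨u, hu, hu', rfl⟩ := hmem y hy
    refine ⟨?_, (hball hu).2.2⟩
    have h1 := (hball hu).1
    simp only [Function.comp_apply, map_zero, add_zero, extChartAt_to_inv, sub_zero,
      ContinuousLinearMap.comp_apply, one_mul] at h1
    rw [mem_preimage, mem_preimage, mem_closedBall_iff_norm]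
    have h2 := norm_add_le (f ((ch x).symm (ch x x + B u)) - f x - L (B u)) (L (B u))
    rw [sub_add_cancel, hB] at h2
    linarith
  have k : ENNReal.ofReal ((2 * ρ) ^ 2 / 4) ≤ area f (f ⁻¹' Metric.closedBall (f x) (2 * ρ)) := by
    refine le_trans ?_ (Measure.le_iff'.1 (le_iSup (chartArea f) x) _)
    rw [chartArea_apply x (meas_ball h _ _)]
    refine le_trans ?_ (lintegral_mono_set hsub)
    refine le_trans ?_ (setLIntegral_mono' (f := fun _ => ENNReal.ofReal (jac L / 2)) hSm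
      fun y hy => by
        obtain ⟨u, hu, -, rfl⟩ := hmem y hy
        exact ENNReal.ofReal_le_ofReal (hball hu).2.1.le)
    rw [setLIntegral_const, hS, image_add_left, measure_preimage_add,
      Measure.addHaar_image_continuousLinearMap, EuclideanSpace.volume_closedBall_fin_two,
      ← ENNReal.ofReal_pow hρ.le, ← ENNReal.ofReal_mul (by positivity),
      ← ENNReal.ofReal_mul (by positivity), ← ENNReal.ofReal_mul (by positivity)]
    refine ENNReal.ofReal_le_ofReal ?_
    have e : (B : E2 →ₗ[ℝ] E2).det = det2 B := det2_eq B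
    rw [e]
    have : jac L / 2 * (|det2 B| * (ρ ^ 2 * Real.pi)) = ρ ^ 2 * Real.pi / 2 := by
      linear_combination (ρ ^ 2 * Real.pi / 2) * hdet
    rw [this]
    nlinarith [Real.two_le_pi, sq_nonneg ρ]
  exact (ENNReal.ofReal_le_iff_le_toReal (measure_ne_top _ _)).1 k

end Pool.Agent.P.MP_a07190_gt
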