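import Pool.Agent.P.MP_a07190_gt.Global

open scoped Manifold ContDiff RealInnerProductSpace Topology
open Set MeasureTheory Filter

namespace Pool.Agent.P.MP_a07190_gt

/-- `g` is `C¹` with derivative `g'` -/
structure C1 (g g' : ℝ → ℝ) : Prop where
  hd : ∀ t, HasDerivAt g (g' t) t
  hc : Continuous g'

theorem C1.contDiff {g g' : ℝ → ℝ} (h : C1 g g') : ContDiff ℝ 1 g := by
  rw [contDiff_one_iff_deriv]
  refine ⟨fun t => (h.hd t).differentiableAt, ?_⟩
  have : deriv g = g' := funext fun t => (h.hd t).deriv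
  rw [this]; exact h.hc

theorem C1.cont {g g' : ℝ → ℝ} (h : C1 g g') : Continuous g := h.contDiff.continuous

theorem C1.one : C1 (fun _ => 1) (fun _ => 0) := ⟨fun t => hasDerivAt_const t 1, continuous_const⟩

theorem C1.id : C1 (fun t => t) (fun _ => 1) := ⟨fun t => hasDerivAt_id t, continuous_const⟩

theorem C1.sub {g g' k k' : ℝ → ℝ} (h : C1 g g') (hk : C1 k k') :
    C1 (fun t => g t - k t) (fun t => g' t - k' t) :=
  ⟨fun t => (h.hd t).sub (hk.hd t), h.hc.sub hk.hc⟩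

theorem hasFD_coord (p : E3) (i : Fin 3) :
    HasFDerivAt (fun q : E3 => q i) (EuclideanSpace.proj i : E3 →L[ℝ] ℝ) p :=
  (EuclideanSpace.proj i : E3 →L[ℝ] ℝ).hasFDerivAt

theorem contDiff_coord (i : Fin 3) : ContDiff ℝ 1 (fun q : E3 => q i) :=
  (EuclideanSpace.proj i : E3 →L[ℝ] ℝ).contDiff

def prod3 (g0 g1 g2 : ℝ → ℝ) (p : E3) : ℝ := g0 (p 0) * g1 (p 1) * g2 (p 2)

theorem contDiff_prod3 {g0 g1 g2 d0 d1 d2 : ℝ → ℝ} (h0 : C1 g0 d0) (h1 : C1 g1 d1)
    (h2 : C1 g2 d2) : ContDiff ℝ 1 (prod3 g0 g1 g2) :=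
  ((h0.contDiff.comp (contDiff_coord 0)).mul (h1.contDiff.comp (contDiff_coord 1))).mul
    (h2.contDiff.comp (contDiff_coord 2))

theorem fderiv_prod3 {g0 g1 g2 d0 d1 d2 : ℝ → ℝ} (h0 : C1 g0 d0) (h1 : C1 g1 d1)
    (h2 : C1 g2 d2) (p u : E3) : fderiv ℝ (prod3 g0 g1 g2) p u =
      d0 (p 0) * g1 (p 1) * g2 (p 2) * u 0 + g0 (p 0) * d1 (p 1) * g2 (p 2) * u 1
        + g0 (p 0) * g1 (p 1) * d2 (p 2) * u 2 := by
  have := ((((h0.hd (p 0)).comp_hasFDerivAt p (hasFD_coord p 0)).mul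
    ((h1.hd (p 1)).comp_hasFDerivAt p (hasFD_coord p 1))).mul
    ((h2.hd (p 2)).comp_hasFDerivAt p (hasFD_coord p 2))).fderiv
  have e : prod3 g0 g1 g2 = ((g0 ∘ fun q : E3 => q 0) * (g1 ∘ fun q : E3 => q 1))
    * (g2 ∘ fun q : E3 => q 2) := rfl
  rw [e, this]
  simp
  ring

variable {M : Type*} [TopologicalSpace M] [ChartedSpace (EuclideanHalfSpace 2) M]
  {f N : M → E3} {H : ℝ}

theorem smooth_st (h : IsCMC f N H) {φ : E3 → ℝ} (hφ : ContDiff ℝ 1 φ) (v : E3) :
    ContMDiff (𝓡∂ 2) 𝓘(ℝ, E3) 1 fun m => φ (f m) • v :=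
  (hφ.contMDiff.comp h.smooth1).smul contMDiff_const

theorem smooth_fv (h : IsCMC f N H) {φ : E3 → ℝ} (hφ : ContDiff ℝ 1 φ) (v : E3) :
    ContMDiff (𝓡∂ 2) 𝓘(ℝ, E3) 1 fun m => φ (f m) • crossR v (N m) :=
  (hφ.contMDiff.comp h.smooth1).smul ((crossR v).contDiff.contMDiff.comp h.smooth_normal)

variable [IsManifold (𝓡∂ 2) ∞ M]

theorem hasFD_phi (h : IsCMC f N H) {φ : E3 → ℝ} (hφ : ContDiff ℝ 1 φ) (m : M) :
    HasFDerivWithinAt (fun y => φ (f ((ch m).symm y))) ((fderiv ℝ φ (f m)).comp (dif f m))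
      (range (𝓡∂ 2)) (ch m m) := by
  have h1 := hasFD_self h.smooth1 m
  have h2 : HasFDerivAt φ (fderiv ℝ φ (f m)) ((f ∘ (ch m).symm) (ch m m)) := by
    rw [Function.comp_apply, extChartAt_to_inv]
    exact (hφ.differentiable one_ne_zero _).hasFDerivAt
  exact h2.comp_hasFDerivWithinAt _ h1

theorem curlM_st (h : IsCMC f N H) {φ : E3 → ℝ} (hφ : ContDiff ℝ 1 φ) (v : E3) (m : M) :
    curlM f N (fun m => φ (f m) • v) m = fderiv ℝ φ (f m) (crossR (N m) v) := by
  refine alg_st _ (h.immersion m) (h.unit m) (h.perp m) fun u => ?_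
  rw [dif_of_hasFD (smooth_st h hφ v) ((hasFD_phi h hφ m).smul_const v)]
  simp

theorem curlM_fv (h : IsCMC f N H) {φ : E3 → ℝ} (hφ : ContDiff ℝ 1 φ) (v : E3) (m : M) :
    curlM f N (fun m => φ (f m) • crossR v (N m)) m = fderiv ℝ φ (f m) v
      - fderiv ℝ φ (f m) (N m) * ⟪v, N m⟫ + 2 * H * φ (f m) * ⟪v, N m⟫ := by
  refine alg_fv _ (h.immersion m) (h.unit m) (h.perp m) (h.perp_dN m) (h.cmc m) fun u => ?_
  have h1 := (crossR v).hasFDerivAt.comp_hasFDerivWithinAt _ (hasFD_self h.smooth_normal m)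
  rw [dif_of_hasFD (smooth_fv h hφ v) ((hasFD_phi h hφ m).smul h1)]
  simp only [Function.comp_apply, extChartAt_to_inv]
  simp [add_comm]

variable [MeasurableSpace M] [BorelSpace M] [CompactSpace M] [T2Space M] {R : ℝ}

theorem st_zero (h : IsCMC f N H) (hb : BData f R) {φ : E3 → ℝ} (hφ : ContDiff ℝ 1 φ) (v : E3)
    (h0 : ∀ m ∈ (𝓡∂ 2).boundary M, φ (f m) = 0) :
    ∫ m, fderiv ℝ φ (f m) (crossR (N m) v) ∂(area f) = 0 := by
  simp only [← curlM_st h hφ v]
  exact stokes_zero h hb (smooth_st h hφ v) fun m hm => by rw [h0 m hm, zero_smul]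

theorem fv_zero (h : IsCMC f N H) (hb : BData f R) {φ : E3 → ℝ} (hφ : ContDiff ℝ 1 φ) (v : E3)
    (h0 : ∀ m ∈ (𝓡∂ 2).boundary M, φ (f m) = 0) :
    ∫ m, (fderiv ℝ φ (f m) v - fderiv ℝ φ (f m) (N m) * ⟪v, N m⟫
      + 2 * H * φ (f m) * ⟪v, N m⟫) ∂(area f) = 0 := by
  simp only [← curlM_fv h hφ v]
  exact stokes_zero h hb (smooth_fv h hφ v) fun m hm => by rw [h0 m hm, zero_smul]

theorem id_yz (h : IsCMC f N H) (hb : BData f R) :
    ∫ m, f m 1 * N m 1 ∂(area f) = ∫ m, f m 2 * N m 2 ∂(area f) := by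
  have hf := h.smooth.continuous
  have hN := h.smooth_normal.continuous
  have := st_zero h hb (contDiff_prod3 C1.one C1.id C1.id) (e3 0)
    (fun m hm => by simp [prod3, hb.z m hm])
  simp only [fderiv_prod3 C1.one C1.id C1.id] at this
  rw [← sub_eq_zero, ← integral_sub (integrable_cont h.smooth1 (by fun_prop))
    (integrable_cont h.smooth1 (by fun_prop)), ← this]
  refine integral_congr_ae (Eventually.of_forall fun m => ?_)
  simp; ring

theorem id_xz (h : IsCMC f N H) (hb : BData f R) :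
    ∫ m, f m 2 * N m 2 ∂(area f) = ∫ m, f m 0 * N m 0 ∂(area f) := by
  have hf := h.smooth.continuous
  have hN := h.smooth_normal.continuous
  have := st_zero h hb (contDiff_prod3 C1.id C1.one C1.id) (e3 1)
    (fun m hm => by simp [prod3, hb.z m hm])
  simp only [fderiv_prod3 C1.id C1.one C1.id] at this
  rw [← sub_eq_zero, ← integral_sub (integrable_cont h.smooth1 (by fun_prop))
    (integrable_cont h.smooth1 (by fun_prop)), ← this]
  refine integral_congr_ae (Eventually.of_forall fun m => ?_)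
  simp; ring

theorem algVol_eq (h : IsCMC f N H) (hb : BData f R) :
    algVol f N = |∫ m, f m 2 * N m 2 ∂(area f)| := by
  have hf := h.smooth.continuous
  have hN := h.smooth_normal.continuous
  simp only [algVol, inner3]
  rw [integral_add (integrable_cont h.smooth1 (by fun_prop))
    (integrable_cont h.smooth1 (by fun_prop)), integral_add
    (integrable_cont h.smooth1 (by fun_prop)) (integrable_cont h.smooth1 (by fun_prop)),
    id_yz h hb, ← id_xz h hb]
  rw [show ∀ a : ℝ, a + a + a = 3 * a from fun a => by ring, abs_mul]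
  norm_num
  ring

/-- the tilt excess -/
noncomputable def exc (f N : M → E3) : ℝ := ∫ m, (1 - N m 2 ^ 2) ∂(area f)

theorem exc_le (h : IsCMC f N H) (hb : BData f R) : exc f N ≤ 2 * |H| * algVol f N := by
  have hf := h.smooth.continuous
  have hN := h.smooth_normal.continuous
  have := fv_zero h hb (contDiff_prod3 C1.one C1.one C1.id) (e3 2)
    (fun m hm => by simp [prod3, hb.z m hm])
  simp only [fderiv_prod3 C1.one C1.one C1.id] at this
  have e : exc f N + 2 * H * ∫ m, f m 2 * N m 2 ∂(area f) = 0 := by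
    rw [exc, ← integral_const_mul, ← integral_add (integrable_cont h.smooth1 (by fun_prop))
      (integrable_cont h.smooth1 (by fun_prop)), ← this]
    refine integral_congr_ae (Eventually.of_forall fun m => ?_)
    simp [inner3, prod3]; ring
  rw [algVol_eq h hb, mul_assoc, ← abs_mul]
  have := neg_abs_le (H * ∫ m, f m 2 * N m 2 ∂(area f))
  linarith

omit [IsManifold (𝓡∂ 2) ∞ M] [BorelSpace M] [CompactSpace M] [T2Space M] in
theorem exc_nonneg (h : IsCMC f N H) : 0 ≤ exc f N :=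
  integral_nonneg fun m => by
    have := unit3 (h.unit m)
    simp only [Pi.zero_apply]
    nlinarith [sq_nonneg (N m 0), sq_nonneg (N m 1)]

theorem area_le (h : IsCMC f N H) (hb : BData f R)
    (hy : ∀ m ∈ (𝓡∂ 2).boundary M, |f m 1| ≤ R) :
    ∫ _, (1 : ℝ) ∂(area f) ≤ 4 * R ^ 2 + 4 * |H| * algVol f N := by
  have hf := h.smooth.continuous
  have hN := h.smooth_normal.continuous
  have hφ := contDiff_prod3 C1.one C1.id C1.one
  have k := stokes_bound h hb (smooth_fv h hφ (e3 1)) hb.nonneg (fun m hm τ hτ => by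
    have h1 := unit3 (h.unit m)
    have h2 : |N m 2| ≤ 1 := by
      rw [← sq_le_one_iff_abs_le_one]; nlinarith [sq_nonneg (N m 0), sq_nonneg (N m 1)]
    have : ⟪prod3 (fun _ => 1) (fun t => t) (fun _ => 1) (f m) • crossR (e3 1) (N m), τ⟫
        = -(f m 1 * N m 2 * τ 0) := by simp [inner3, prod3, hτ]
    rw [this, abs_neg, abs_mul, abs_mul]
    refine mul_le_mul_of_nonneg_right ?_ (abs_nonneg _)
    exact (mul_le_of_le_one_right (abs_nonneg _) h2).trans (hy m hm))
  simp only [curlM_fv h hφ, fderiv_prod3 C1.one C1.id C1.one] at k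
  have e : ∫ m, (1 - N m 1 ^ 2) ∂(area f) + 2 * H * ∫ m, f m 1 * N m 1 ∂(area f) ≤ R * (4 * R) := by
    rw [← integral_const_mul, ← integral_add (integrable_cont h.smooth1 (by fun_prop))
      (integrable_cont h.smooth1 (by fun_prop))]
    refine le_trans (le_of_eq ?_) ((le_abs_self _).trans k)
    refine integral_congr_ae (Eventually.of_forall fun m => ?_)
    simp [inner3, prod3]; ring
  have e2 : ∫ _, (1 : ℝ) ∂(area f) ≤ ∫ m, (1 - N m 1 ^ 2) ∂(area f) + exc f N := by
    rw [exc, ← integral_add (integrable_cont h.smooth1 (by fun_prop))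
      (integrable_cont h.smooth1 (by fun_prop))]
    refine integral_mono (integrable_cont h.smooth1 (by fun_prop))
      (integrable_cont h.smooth1 (by fun_prop)) fun m => ?_
    have := unit3 (h.unit m)
    simp only
    nlinarith [sq_nonneg (N m 0)]
  have e3 := exc_le h hb
  rw [id_yz h hb] at e
  rw [algVol_eq h hb, mul_assoc, ← abs_mul] at *
  have := neg_abs_le (H * ∫ m, f m 2 * N m 2 ∂(area f))
  nlinarith

end Pool.Agent.P.MP_a07190_gt
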