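import Pool.Agent.P.MP_a07190_gt.Green

open scoped RealInnerProductSpace Topology
open Set Filter Metric

namespace Pool.Agent.P.MP_a07190_gt

theorem exists_frontier {s K : Set E2} (hs : IsPreconnected s) (hK : IsClosed K) {a b : E2}
    (ha : a ∈ s) (haK : a ∈ interior K) (hb : b ∈ s) (hbK : b ∉ K) :
    ∃ q ∈ s, q ∈ frontier K := by
  by_contra h
  have := hs.subset_left_of_subset_union isOpen_interior hK.isOpen_compl
    (disjoint_compl_right.mono_left interior_subset) (fun q hq => by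
      by_cases hqK : q ∈ K
      · left
        by_contra hi
        exact h ⟨q, hq, subset_closure hqK, hi⟩
      · exact Or.inr hqK) ⟨a, ha, haK⟩
  exact hbK (interior_subset (this hb))

theorem ext2 {p q : E2} (h0 : p 0 = q 0) (h1 : p 1 = q 1) : p = q := by
  ext i; fin_cases i; exacts [h0, h1]

theorem vert_interior {K : Set E2} (hK : Convex ℝ K) {p q r : E2} (hr : r ∈ interior K)
    (hq : q ∈ K) (h1 : r 0 = p 0) (h2 : q 0 = p 0) (h3 : 0 < (p 1 - r 1) * (q 1 - p 1)) :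
    p ∈ interior K := by
  refine hK.openSegment_interior_self_subset_interior hr hq ?_
  have hne : q 1 - r 1 ≠ 0 := fun e => by
    have : q 1 - p 1 = -(p 1 - r 1) := by linarith
    rw [this] at h3
    nlinarith [sq_nonneg (p 1 - r 1)]
  have hsq : 0 < (q 1 - r 1) ^ 2 := by positivity
  refine ⟨(q 1 - p 1) / (q 1 - r 1), (p 1 - r 1) / (q 1 - r 1), ?_, ?_, ?_, ?_⟩
  · have : (q 1 - p 1) / (q 1 - r 1) = ((q 1 - p 1) ^ 2 + (p 1 - r 1) * (q 1 - p 1))
      / (q 1 - r 1) ^ 2 := by field_simp; ring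
    rw [this]; positivity
  · have : (p 1 - r 1) / (q 1 - r 1) = ((p 1 - r 1) ^ 2 + (p 1 - r 1) * (q 1 - p 1))
      / (q 1 - r 1) ^ 2 := by field_simp; ring
    rw [this]; positivity
  · field_simp; ring
  · refine ext2 ?_ ?_
    · simp only [PiLp.add_apply, PiLp.smul_apply, smul_eq_mul, h1, h2]; field_simp; ring
    · simp only [PiLp.add_apply, PiLp.smul_apply, smul_eq_mul]; field_simp; ring

/-- points lying vertically above (`ε = 1`) or below (`ε = -1`) an interior point -/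
def Up (ε : ℝ) (K : Set E2) : Set E2 := {p | ∃ s : ℝ, 0 < s ∧ p - (ε * s) • ev 1 ∈ interior K}

theorem isOpen_Up (ε : ℝ) (K : Set E2) : IsOpen (Up ε K) := by
  have : Up ε K = ⋃ s : ℝ, ⋃ _ : 0 < s, (fun p => p - (ε * s) • ev 1) ⁻¹' interior K := by
    ext p; simp [Up]
  rw [this]
  exact isOpen_iUnion fun s => isOpen_iUnion fun _ => isOpen_interior.preimage (by fun_prop)

theorem Up_side {ε : ℝ} {K : Set E2} {p : E2} (h : p ∈ Up ε K) : ∃ r ∈ K, r 0 = p 0 := by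
  obtain ⟨s, -, hs⟩ := h
  exact ⟨_, interior_subset hs, by simp⟩

theorem Up_inj {ε : ℝ} (hε : ε ≠ 0) {K : Set E2} (hK : Convex ℝ K) (hc : IsClosed K) {p q : E2}
    (hp : p ∈ frontier K) (hq : q ∈ frontier K) (hp' : p ∈ Up ε K) (hq' : q ∈ Up ε K)
    (h : p 0 = q 0) : p = q := by
  refine ext2 h ?_
  by_contra hne
  have : ε * (q 1 - p 1) ≠ 0 := mul_ne_zero hε (sub_ne_zero.2 (Ne.symm hne))
  rcases lt_or_gt_of_ne this with h1 | h1
  · obtain ⟨s, hs, hr⟩ := hq'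
    refine hq.2 (vert_interior hK hr (hc.frontier_subset hp) (by simp) h ?_)
    simp only [PiLp.sub_apply, PiLp.smul_apply, smul_eq_mul, ev_11]
    nlinarith
  · obtain ⟨s, hs, hr⟩ := hp'
    refine hp.2 (vert_interior hK hr (hc.frontier_subset hq) (by simp) h.symm ?_)
    simp only [PiLp.sub_apply, PiLp.smul_apply, smul_eq_mul, ev_11]
    nlinarith

theorem mem_cl {K : Set E2} (hK : Convex ℝ K) (hi : (interior K).Nonempty) {p : E2} (hp : p ∈ K) :
    p ∈ closure (interior K) := by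
  rw [hK.closure_interior_eq_closure_of_nonempty_interior hi]; exact subset_closure hp

theorem rest_extr {K : Set E2} (hK : Convex ℝ K) (hi : (interior K).Nonempty) {p : E2}
    (hp : p ∈ frontier K) (h1 : p ∉ Up 1 K) (h2 : p ∉ Up (-1) K) :
    (∀ q ∈ K, q 0 ≤ p 0) ∨ (∀ q ∈ K, p 0 ≤ q 0) := by
  by_contra h
  push Not at h
  obtain ⟨⟨q1, hq1, h3⟩, q2, hq2, h4⟩ := h
  have o1 : IsOpen {z : E2 | p 0 < z 0} := isOpen_lt continuous_const (by fun_prop)
  have o2 : IsOpen {z : E2 | z 0 < p 0} := isOpen_lt (by fun_prop) continuous_const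
  obtain ⟨r1, (a1 : p 0 < r1 0), b1⟩ := mem_closure_iff.1 (mem_cl hK hi hq1) _ o1 h3
  obtain ⟨r2, (a2 : r2 0 < p 0), b2⟩ := mem_closure_iff.1 (mem_cl hK hi hq2) _ o2 h4
  obtain ⟨r, hr, (e : r 0 = p 0)⟩ := hK.interior.isPreconnected.intermediate_value b2 b1
    (f := fun z : E2 => z 0) (by fun_prop) ⟨a2.le, a1.le⟩
  rcases lt_trichotomy (r 1) (p 1) with h5 | h5 | h5
  · refine h1 ⟨p 1 - r 1, by linarith, ?_⟩
    convert hr using 1
    exact ext2 (by simp [e]) (by simp)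
  · exact hp.2 (ext2 e h5 ▸ hr)
  · refine h2 ⟨r 1 - p 1, by linarith, ?_⟩
    convert hr using 1
    exact ext2 (by simp [e]) (by simp)

theorem exists_rect {K : Set E2} (hc : IsCompact K) (hi : (interior K).Nonempty) :
    ∃ x1 x2 y1 y2 : ℝ, x1 < x2 ∧ y1 < y2 ∧
      (∀ p : E2, p 0 ∈ Icc x1 x2 → p 1 ∈ Icc y1 y2 → p ∈ interior K) ∧
      ∃ p ∈ frontier K, p 0 ∈ Ioo x1 x2 ∧ y2 < p 1 := by
  obtain ⟨o, ho⟩ := hi
  obtain ⟨ρ, hρ, hb⟩ := Metric.nhds_basis_closedBall.mem_iff.1 (isOpen_interior.mem_nhds ho)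
  have hrect : ∀ p : E2, p 0 ∈ Icc (o 0 - ρ / 2) (o 0 + ρ / 2) →
      p 1 ∈ Icc (o 1 - ρ / 2) (o 1 + ρ / 2) → p ∈ interior K := by
    intro p h0 h1
    refine hb (mem_closedBall_iff_norm.2 ?_)
    refine (abs_le_of_sq_le_sq' ?_ hρ.le).2
    rw [EuclideanSpace.real_norm_sq_eq, Fin.sum_univ_two]
    simp only [PiLp.sub_apply]
    nlinarith [h0.1, h0.2, h1.1, h1.2]
  refine ⟨o 0 - ρ / 2, o 0 + ρ / 2, o 1 - ρ / 2, o 1 + ρ / 2, by linarith, by linarith, hrect, ?_⟩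
  obtain ⟨R, hR, hRK⟩ := hc.isBounded.subset_ball_lt 0 0
  have hs : IsPreconnected ((fun t : ℝ => pt (o 0, t)) '' Ici (o 1)) :=
    isPreconnected_Ici.image _ (by fun_prop)
  obtain ⟨_, ⟨t, ht, rfl⟩, hq⟩ := exists_frontier hs hc.isClosed ⟨o 1, self_mem_Ici, pt_eta o⟩ ho
    ⟨max (o 1) R, mem_Ici.2 (le_max_left _ _), rfl⟩ (fun h => by
      have h1 := mem_ball_zero_iff.1 (hRK h)
      have h2 := abs_le_norm2 (pt (o 0, max (o 1) R)) 1
      rw [pt_1] at h2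
      linarith [le_abs_self (max (o 1) R), le_max_right (o 1) R])
  refine ⟨_, hq, by rw [pt_0]; constructor <;> linarith, ?_⟩
  by_contra h
  refine hq.2 (hrect _ (by rw [pt_0]; constructor <;> linarith) ⟨?_, not_lt.1 h⟩)
  rw [pt_1]
  linarith [mem_Ici.1 ht]

theorem touch_A {K : Set E2} (hK : Convex ℝ K) (hc : IsClosed K) (hi : (interior K).Nonempty)
    {p w : E2} {δ : ℝ} (l : E2 →L[ℝ] ℝ) (hw : w ≠ 0) (hwδ : ‖w‖ < δ / 2) (hl : l w = 0)
    (hp : p ∈ frontier K)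
    (inj : ∀ q ∈ frontier K ∩ ball p δ, ∀ q' ∈ frontier K ∩ ball p δ, l q = l q' → q = q') :
    ∃ r ∈ interior K ∩ ball p δ, l r = l p := by
  have hδ : 0 < δ := by linarith [norm_nonneg w]
  by_contra h
  have hout : ∀ v : E2, v ≠ 0 → ‖v‖ < δ / 2 → l v = 0 → p + v ∉ K := fun v hv hvδ hlv hK => by
    have hb : p + v ∈ ball p δ := by rw [mem_ball_iff_norm]; simp; linarith
    have hn : p + v ∉ interior K := fun hi => h ⟨_, ⟨hi, hb⟩, by simp [hlv]⟩
    have := inj _ ⟨⟨subset_closure hK, hn⟩, hb⟩ p ⟨hp, mem_ball_self hδ⟩ (by simp [hlv])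
    exact hv (by simpa using this)
  have h1 := hout w hw hwδ hl
  have h2 := hout (-w) (neg_ne_zero.2 hw) (by simpa using hwδ) (by simp [hl])
  have o : IsOpen ({q : E2 | q + w ∉ K} ∩ {q : E2 | q + -w ∉ K} ∩ ball p (δ / 2)) :=
    ((hc.isOpen_compl.preimage (f := fun q => q + w) (by fun_prop)).inter
      (hc.isOpen_compl.preimage (f := fun q => q + -w) (by fun_prop))).inter isOpen_ball
  obtain ⟨q, ⟨⟨a1, a2⟩, a3⟩, hq⟩ := mem_closure_iff.1 (mem_cl hK hi (hc.frontier_subset hp)) _ o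
    ⟨⟨h1, h2⟩, mem_ball_self (by linarith)⟩
  have key : ∀ v : E2, ‖v‖ < δ / 2 → q + v ∉ K →
      ∃ s : ℝ, 0 < s ∧ q + s • v ∈ frontier K ∩ ball p δ := fun v hv hvK => by
    have hs : IsPreconnected ((fun t : ℝ => q + t • v) '' Icc 0 1) :=
      isPreconnected_Icc.image _ (by fun_prop)
    obtain ⟨_, ⟨t, ht, rfl⟩, hf⟩ := exists_frontier hs hc ⟨0, left_mem_Icc.2 zero_le_one, by simp⟩ hq
      ⟨1, right_mem_Icc.2 zero_le_one, by simp⟩ hvK
    refine ⟨t, lt_of_le_of_ne ht.1 ?_, hf, ?_⟩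
    · rintro rfl
      exact hf.2 (by simpa using hq)
    · rw [mem_ball_iff_norm] at a3 ⊢
      have e : q + t • v - p = (q - p) + t • v := by abel
      have : ‖t • v‖ ≤ ‖v‖ := by
        rw [norm_smul, Real.norm_of_nonneg ht.1]; exact mul_le_of_le_one_left (norm_nonneg _) ht.2
      rw [e]
      linarith [norm_add_le (q - p) (t • v)]
  obtain ⟨s, hs, b1⟩ := key w hwδ a1
  obtain ⟨s', hs', b2⟩ := key (-w) (by simpa using hwδ) a2
  have := inj _ b1 _ b2 (by simp [hl])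
  have h3 : (s + s') • w = 0 := by
    rw [add_smul]
    have h4 := add_left_cancel this
    rw [h4, smul_neg, neg_add_cancel]
  exact hw ((smul_eq_zero.1 h3).resolve_left (by linarith))

theorem inter_sub_frontier {K1 K2 : Set E2} (h2 : Convex ℝ K2) (i2 : (interior K2).Nonempty)
    (hd : Disjoint (interior K1) (interior K2)) {z : E2} (z1 : z ∈ K1) (z2 : z ∈ K2) :
    z ∈ frontier K1 := by
  refine ⟨subset_closure z1, fun hi => ?_⟩
  obtain ⟨r, a, b⟩ := mem_closure_iff.1 (mem_cl h2 i2 z2) _ isOpen_interior hi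
  exact disjoint_left.1 hd a b

theorem touch_B {K1 K2 : Set E2} (h1 : Convex ℝ K1) (c1 : IsClosed K1)
    (i1 : (interior K1).Nonempty) (h2 : Convex ℝ K2) (c2 : IsClosed K2)
    (i2 : (interior K2).Nonempty) (hd : Disjoint (interior K1) (interior K2))
    {p w u : E2} {δ : ℝ} (hδ : 0 < δ) (l : E2 →L[ℝ] ℝ) (hw : w ≠ 0) (hl : l w = 0) (hu : l u ≠ 0)
    (hp : p ∈ (K1 ∩ K2).extremePoints ℝ)
    (inj : ∀ q ∈ (frontier K1 ∪ frontier K2) ∩ ball p δ,
      ∀ q' ∈ (frontier K1 ∪ frontier K2) ∩ ball p δ, l q = l q' → q = q') : False := by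
  have hw0 : 0 < ‖w‖ := norm_pos_iff.2 hw
  have hw1 : (δ / 4 / ‖w‖) • w ≠ 0 := smul_ne_zero (by positivity) hw
  have hw2 : ‖(δ / 4 / ‖w‖) • w‖ < δ / 2 := by
    rw [norm_smul, Real.norm_of_nonneg (by positivity), div_mul_cancel₀ _ hw0.ne']; linarith
  have p1 := inter_sub_frontier h2 i2 hd hp.1.1 hp.1.2
  have p2 := inter_sub_frontier h1 i1 hd.symm hp.1.2 hp.1.1
  obtain ⟨r1, a1, b1⟩ := touch_A h1 c1 i1 l hw1 hw2 (by simp [hl]) p1
    fun q hq q' hq' => inj q ⟨Or.inl hq.1, hq.2⟩ q' ⟨Or.inl hq'.1, hq'.2⟩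
  obtain ⟨r2, a2, b2⟩ := touch_A h2 c2 i2 l hw1 hw2 (by simp [hl]) p2
    fun q hq q' hq' => inj q ⟨Or.inr hq.1, hq.2⟩ q' ⟨Or.inr hq'.1, hq'.2⟩
  have t1 : ∀ r : E2, Tendsto (fun t : ℝ => r + t • u) (𝓝 0) (𝓝 r) := fun r => by
    have : Continuous fun t : ℝ => r + t • u := by fun_prop
    simpa using this.tendsto 0
  obtain ⟨t, ht, hb⟩ := Metric.nhds_basis_closedBall.eventually_iff.1
    (((t1 r1).eventually ((isOpen_interior.inter isOpen_ball).mem_nhds a1)).and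
      ((t1 r2).eventually ((isOpen_interior.inter isOpen_ball).mem_nhds a2)))
  have key : ∀ s : ℝ, |s| ≤ t → ∃ q ∈ K1 ∩ K2 ∩ ball p δ, l q = l p + s * l u := fun s hs => by
    obtain ⟨e1, e2⟩ := hb (show s ∈ closedBall 0 t by simpa using hs)
    have hseg : ∀ q ∈ segment ℝ (r1 + s • u) (r2 + s • u), q ∈ ball p δ ∧ l q = l p + s * l u := by
      intro q hq
      refine ⟨(convex_ball p δ).segment_subset e1.2 e2.2 hq, ?_⟩
      obtain ⟨a, b, -, -, hab, rfl⟩ := hq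
      simp only [map_add, map_smul, b1, b2, smul_eq_mul]
      linear_combination (l p + s * l u) * hab
    have hpre := (convex_segment (r1 + s • u) (r2 + s • u)).isPreconnected
    obtain ⟨q1, s1, f1⟩ := exists_frontier hpre c1 (left_mem_segment _ _ _) e1.1
      (right_mem_segment _ _ _)
      fun h => (inter_sub_frontier h1 i1 hd.symm (interior_subset e2.1) h).2 e2.1
    obtain ⟨q2, s2, f2⟩ := exists_frontier hpre c2 (right_mem_segment _ _ _) e2.1
      (left_mem_segment _ _ _)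
      fun h => (inter_sub_frontier h2 i2 hd (interior_subset e1.1) h).2 e1.1
    have := inj q1 ⟨Or.inl f1, (hseg q1 s1).1⟩ q2 ⟨Or.inr f2, (hseg q2 s2).1⟩
      ((hseg q1 s1).2.trans (hseg q2 s2).2.symm)
    exact ⟨q1, ⟨⟨c1.frontier_subset f1, this ▸ c2.frontier_subset f2⟩, (hseg q1 s1).1⟩,
      (hseg q1 s1).2⟩
  obtain ⟨q, hq, e⟩ := key t (by rw [abs_of_pos ht])
  obtain ⟨q', hq', e'⟩ := key (-t) (by rw [abs_neg, abs_of_pos ht])
  have hz := ((h1.inter h2).inter (convex_ball p δ)) hq hq' (show (0 : ℝ) ≤ 1 / 2 by norm_num)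
    (show (0 : ℝ) ≤ 1 / 2 by norm_num) (by norm_num)
  have hzp := inj _ ⟨Or.inl (inter_sub_frontier h2 i2 hd hz.1.1 hz.1.2), hz.2⟩ p
    ⟨Or.inl p1, mem_ball_self hδ⟩ (by simp only [map_add, map_smul, e, e', smul_eq_mul]; ring)
  have := hp.2 hq.1 hq'.1 ⟨1 / 2, 1 / 2, by norm_num, by norm_num, by norm_num, hzp⟩
  rw [this] at e
  exact mul_ne_zero ht.ne' hu (by linarith)

end Pool.Agent.P.MP_a07190_gt
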