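import Pool.Agent.P.MP_a07190_gt.Stokes1

open scoped Manifold ContDiff RealInnerProductSpace Topology
open Set MeasureTheory Filter

namespace Pool.Agent.P.MP_a07190_gt

variable {M : Type*} [TopologicalSpace M] [ChartedSpace (EuclideanHalfSpace 2) M]

/-- parameter set of the boundary curve in the chart at `x` -/
def Vb (x : M) : Set ℝ := {v | pt (0, v) ∈ (ch x).target}

/-- the boundary curve in the chart at `x` -/
noncomputable def gam (x : M) (v : ℝ) : M := (ch x).symm (pt (0, v))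

theorem cont_pt0 : Continuous fun v : ℝ => pt (0, v) := by fun_prop

theorem pt0_mem (v : ℝ) : pt (0, v) ∈ range (𝓡∂ 2) := by rw [range_I]; simp

theorem isOpen_Vb (x : M) : IsOpen (Vb x) := by
  rw [isOpen_iff_mem_nhds]
  intro v hv
  have : Tendsto (fun v : ℝ => pt (0, v)) (𝓝 v) (𝓝[range (𝓡∂ 2)] (pt (0, v))) :=
    tendsto_nhdsWithin_iff.2 ⟨cont_pt0.continuousAt, Eventually.of_forall pt0_mem⟩
  exact this (tgt_mem hv)

theorem continuousOn_gam (x : M) : ContinuousOn (gam x) (Vb x) :=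
  (continuousOn_extChartAt_symm x).comp cont_pt0.continuousOn fun _ hv => hv

theorem injOn_gam (x : M) : InjOn (gam x) (Vb x) := fun v hv w hw e => by
  have := (ch x).symm.injOn hv hw e
  simpa using congrArg (fun y : E2 => y 1) this

variable [IsManifold (𝓡∂ 2) ∞ M] {f N : M → E3} {H : ℝ}

theorem bdry_iff {x : M} {y : E2} (hy : y ∈ (ch x).target) :
    (ch x).symm y ∈ (𝓡∂ 2).boundary M ↔ y 0 = 0 := by
  have hm : (ch x).symm y ∈ (chartAt (EuclideanHalfSpace 2) x).source := by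
    rw [← extChartAt_source (𝓡∂ 2)]; exact (ch x).map_target hy
  have h1 := (𝓡∂ 2).isInteriorPoint_iff_of_mem_atlas (n := ∞) (by simp)
    (chart_mem_atlas (EuclideanHalfSpace 2) x) hm
  have h2 : (chartAt (EuclideanHalfSpace 2) x).extend (𝓡∂ 2) ((ch x).symm y) = y :=
    (ch x).right_inv hy
  rw [h2] at h1
  change (𝓡∂ 2).IsBoundaryPoint _ ↔ _
  rw [ModelWithCorners.isBoundaryPoint_iff_not_isInteriorPoint, h1]
  constructor
  · intro h
    by_contra h0
    exact h (mem_interior_iff_mem_nhds.2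
      (tgt_mem_nhds hy (lt_of_le_of_ne (tgt_nonneg hy) (Ne.symm h0))))
  · intro h0 h
    have := interior_mono (tgt_sub x) h
    rw [interior_range_modelWithCornersEuclideanHalfSpace] at this
    exact absurd h0 (ne_of_gt this)

theorem gam_mem {x : M} {v : ℝ} (hv : v ∈ Vb x) : gam x v ∈ (𝓡∂ 2).boundary M :=
  (bdry_iff hv).2 (by simp)

theorem exists_gam {x m : M} (hm : m ∈ (ch x).source) (hb : m ∈ (𝓡∂ 2).boundary M) :
    ∃ v ∈ Vb x, gam x v = m := by
  have h1 := (ch x).map_source hm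
  have h2 : ch x m 0 = 0 := (bdry_iff h1).1 (by rwa [(ch x).left_inv hm])
  have h3 : pt (0, ch x m 1) = ch x m := by rw [← h2]; exact pt_eta _
  exact ⟨ch x m 1, by rw [Vb, mem_setOf_eq, h3]; exact h1, by rw [gam, h3, (ch x).left_inv hm]⟩

/-- the tangent vector of the boundary curve -/
noncomputable def tau (f : M → E3) (x : M) (v : ℝ) : E3 := chartDif f x (pt (0, v)) (ev 1)

omit [IsManifold (𝓡∂ 2) ∞ M] in
theorem bd_of_mem {W : M → E3} {x : M} {v : ℝ} (hv : v ∈ Vb x) :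
    bd f W x v = ⟪W (gam x v), tau f x v⟫ := indicator_of_mem (s := (ch x).target) hv _

omit [IsManifold (𝓡∂ 2) ∞ M] in
theorem bd_of_notMem {W : M → E3} {x : M} {v : ℝ} (hv : v ∉ Vb x) :
    bd f W x v = 0 := indicator_of_notMem (s := (ch x).target) hv _

theorem hasDerivAt_gam (hf : ContMDiff (𝓡∂ 2) 𝓘(ℝ, E3) 1 f) {x : M} {v : ℝ} (hv : v ∈ Vb x) :
    HasDerivAt (fun v => f (gam x v)) (tau f x v) v := by
  have h1 : HasDerivAt (fun v : ℝ => pt (0, v)) (ev 1) v := by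
    rw [← pt_01]
    exact pt.hasFDerivAt.comp_hasDerivAt v ((hasDerivAt_const v (0 : ℝ)).prodMk (hasDerivAt_id v))
  exact (hasFD_ch hf hv).comp_hasDerivAt v h1 (Eventually.of_forall pt0_mem)

theorem hasDerivAt_gam' (hf : ContMDiff (𝓡∂ 2) 𝓘(ℝ, E3) 1 f) {x : M} {v : ℝ} (hv : v ∈ Vb x)
    (i : Fin 3) : HasDerivAt (fun v => f (gam x v) i) (tau f x v i) v :=
  (EuclideanSpace.proj i : E3 →L[ℝ] ℝ).hasFDerivAt.comp_hasDerivAt v (hasDerivAt_gam hf hv)

theorem tau_2 (hf : ContMDiff (𝓡∂ 2) 𝓘(ℝ, E3) 1 f) (hz : ∀ m ∈ (𝓡∂ 2).boundary M, f m 2 = 0)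
    {x : M} {v : ℝ} (hv : v ∈ Vb x) : tau f x v 2 = 0 := by
  refine (hasDerivAt_gam' hf hv 2).unique ((hasDerivAt_const v (0 : ℝ)).congr_of_eventuallyEq ?_)
  filter_upwards [(isOpen_Vb x).mem_nhds hv] with w hw using hz _ (gam_mem hw)

theorem tau_0 (hf : ContMDiff (𝓡∂ 2) 𝓘(ℝ, E3) 1 f) {x : M} {v : ℝ} (hv : v ∈ Vb x)
    (h : IsLocalExtrOn (fun m => f m 0) ((𝓡∂ 2).boundary M) (gam x v)) : tau f x v 0 = 0 := by
  have h1 : Tendsto (gam x) (𝓝 v) (𝓝[(𝓡∂ 2).boundary M] (gam x v)) :=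
    tendsto_nhdsWithin_iff.2 ⟨(continuousOn_gam x).continuousAt ((isOpen_Vb x).mem_nhds hv), by
      filter_upwards [(isOpen_Vb x).mem_nhds hv] with w hw using gam_mem hw⟩
  have h2 : IsLocalExtr (fun v => f (gam x v) 0) v := IsExtrFilter.comp_tendsto h h1
  exact h2.hasDerivAt_eq_zero (hasDerivAt_gam' hf hv 0)

theorem sum_lintegral_le' {ι : Type*} (s : Finset ι) (μ : Measure ℝ) (g : ι → ℝ → ENNReal) :
    ∑ i ∈ s, ∫⁻ t, g i t ∂μ ≤ ∫⁻ t, ∑ i ∈ s, g i t ∂μ := by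
  classical
  induction s using Finset.induction_on with
  | empty => simp
  | insert a s ha ih =>
    simp only [Finset.sum_insert ha]
    exact (add_le_add le_rfl ih).trans (le_lintegral_add _ _)

theorem tv_le [Nonempty M] (hf : ContMDiff (𝓡∂ 2) 𝓘(ℝ, E3) 1 f) {ι : Type*} [Fintype ι]
    (c : ι → M) (ρ : ι → M → ℝ) (h0 : ∀ i m, 0 ≤ ρ i m) (h1 : ∀ m, ∑ i, ρ i m = 1) {T : Set M}
    (hT : IsOpen T) (hinj : InjOn (fun m => f m 0) ((𝓡∂ 2).boundary M ∩ T)) {R : ℝ}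
    (hR : ∀ m ∈ (𝓡∂ 2).boundary M, |f m 0| ≤ R) :
    ∑ i, ∫⁻ v in Vb (c i) ∩ gam (c i) ⁻¹' T,
      ENNReal.ofReal |tau f (c i) v 0| * ENNReal.ofReal (ρ i (gam (c i) v))
      ≤ ENNReal.ofReal (2 * R) := by
  set g : ι → ℝ → ENNReal := fun i t =>
    ENNReal.ofReal (ρ i (Function.invFunOn (fun m => f m 0) ((𝓡∂ 2).boundary M ∩ T) t))
  have key : ∀ i, ∫⁻ v in Vb (c i) ∩ gam (c i) ⁻¹' T,
      ENNReal.ofReal |tau f (c i) v 0| * ENNReal.ofReal (ρ i (gam (c i) v))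
      ≤ ∫⁻ t in Icc (-R) R, g i t := by
    intro i
    have ho : IsOpen (Vb (c i) ∩ gam (c i) ⁻¹' T) :=
      (continuousOn_gam _).isOpen_inter_preimage (isOpen_Vb _) hT
    have hi : InjOn (fun v => f (gam (c i) v) 0) (Vb (c i) ∩ gam (c i) ⁻¹' T) :=
      fun v hv w hw e => injOn_gam _ hv.1 hw.1
        (hinj ⟨gam_mem hv.1, hv.2⟩ ⟨gam_mem hw.1, hw.2⟩ e)
    have := lintegral_image_eq_lintegral_abs_deriv_mul ho.measurableSet
      (fun v hv => (hasDerivAt_gam' hf hv.1 0).hasDerivWithinAt) hi (g i)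
    refine le_trans (le_of_eq ?_) ((le_of_eq this.symm).trans (lintegral_mono_set ?_))
    · refine setLIntegral_congr_fun ho.measurableSet fun v hv => ?_
      have := hinj.leftInvOn_invFunOn 
        (⟨gam_mem hv.1, hv.2⟩ : gam (c i) v ∈ (𝓡∂ 2).boundary M ∩ T)
      simp only [g]
      rw [this]
    · rintro _ ⟨v, hv, rfl⟩
      exact abs_le.1 (hR _ (gam_mem hv.1))
  refine (Finset.sum_le_sum fun i _ => key i).trans ((sum_lintegral_le' _ _ _).trans ?_)
  have : ∀ t, ∑ i, g i t = 1 := fun t => by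
    simp only [g]
    rw [← ENNReal.ofReal_sum_of_nonneg (fun i _ => h0 i _), h1, ENNReal.ofReal_one]
  simp only [this, lintegral_const, one_mul, MeasurableSet.univ, Measure.restrict_apply,
    univ_inter, Real.volume_Icc]
  exact le_of_eq (by congr 1; ring)

theorem curlM_sum {ι : Type*} [Fintype ι] {W : M → E3} {Wi : ι → M → E3}
    (hW : ContMDiff (𝓡∂ 2) 𝓘(ℝ, E3) 1 W) (hWi : ∀ i, ContMDiff (𝓡∂ 2) 𝓘(ℝ, E3) 1 (Wi i))
    (h : ∀ m, W m = ∑ i, Wi i m) (m : M) : curlM f N W m = ∑ i, curlM f N (Wi i) m := by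
  have h1 : dif W m = ∑ i, dif (Wi i) m := by
    refine dif_of_hasFD hW ?_
    have := HasFDerivWithinAt.fun_sum (u := Finset.univ) fun i _ => hasFD_self (hWi i) m
    have e : W ∘ (ch m).symm = fun y => ∑ i, (Wi i ∘ (ch m).symm) y := funext fun y => h _
    rw [e]; exact this
  simp only [curlM, h1, num, sum_apply, sum_inner, ← Finset.sum_sub_distrib,
    Finset.sum_div]

variable [MeasurableSpace M] [BorelSpace M] [CompactSpace M] [T2Space M]

theorem integrable_cont (hf : ContMDiff (𝓡∂ 2) 𝓘(ℝ, E3) 1 f) {g : M → ℝ} (hg : Continuous g) :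
    Integrable g (area f) := by
  have := finite_area hf
  exact hg.integrable_of_hasCompactSupport (HasCompactSupport.of_compactSpace g)

/-- boundary data -/
structure BData (f : M → E3) (R : ℝ) : Prop where
  z : ∀ m ∈ (𝓡∂ 2).boundary M, f m 2 = 0
  bound : ∀ m ∈ (𝓡∂ 2).boundary M, |f m 0| ≤ R
  nonneg : 0 ≤ R
  split : ∃ T1 T2 : Set M, IsOpen T1 ∧ IsOpen T2 ∧
    InjOn (fun m => f m 0) ((𝓡∂ 2).boundary M ∩ T1) ∧
    InjOn (fun m => f m 0) ((𝓡∂ 2).boundary M ∩ T2) ∧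
    ∀ m ∈ (𝓡∂ 2).boundary M, m ∉ T1 → m ∉ T2 →
      IsLocalExtrOn (fun m => f m 0) ((𝓡∂ 2).boundary M) m

theorem stokes_bound (h : IsCMC f N H) {R : ℝ} (hb : BData f R) {W : M → E3}
    (hW : ContMDiff (𝓡∂ 2) 𝓘(ℝ, E3) 1 W) {c : ℝ} (hc : 0 ≤ c)
    (hWb : ∀ m ∈ (𝓡∂ 2).boundary M, ∀ τ : E3, τ 2 = 0 → |⟪W m, τ⟫| ≤ c * |τ 0|) :
    |∫ m, curlM f N W m ∂(area f)| ≤ c * (4 * R) := by
  have hR := hb.nonneg
  rcases isEmpty_or_nonempty M with hM | hM
  · simp only [integral_of_isEmpty, abs_zero]; positivity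
  choose U ε hUo hUx hUs hε hεU using exists_sign h
  obtain ⟨t, ht⟩ := isCompact_univ.elim_finite_subcover U hUo
    (fun x _ => mem_iUnion.2 ⟨x, hUx x⟩)
  obtain ⟨ρ, hρ⟩ := SmoothPartitionOfUnity.exists_isSubordinate (𝓡∂ 2) isClosed_univ
    (fun i : t => U i) (fun i => hUo i) (fun x hx => by
      obtain ⟨i, hi, hx⟩ := mem_iUnion₂.1 (ht hx)
      exact mem_iUnion.2 ⟨⟨i, hi⟩, hx⟩)
  have h1 : ∀ m, ∑ i, ρ i m = 1 := fun m => by
    rw [← finsum_eq_sum_of_fintype]; exact ρ.sum_eq_one (mem_univ m)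
  have hWi : ∀ i, ContMDiff (𝓡∂ 2) 𝓘(ℝ, E3) 1 (fun m => ρ i m • W m) := fun i =>
    ((ρ i).contMDiff.of_le (by simp)).smul hW
  obtain ⟨T1, T2, o1, o2, i1, i2, hrest⟩ := hb.split
  simp only [curlM_sum hW hWi (fun m => by rw [← Finset.sum_smul, h1, one_smul])]
  rw [integral_finsetSum _ fun i _ => integrable_cont h.smooth1 (continuous_curlM h (hWi i))]
  have key : ∀ i : t, ‖∫ m, curlM f N (fun m => ρ i m • W m) m ∂(area f)‖ₑ ≤ ENNReal.ofReal c *
      ((∫⁻ v in Vb (i : M) ∩ gam (i : M) ⁻¹' T1,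
        ENNReal.ofReal |tau f (i : M) v 0| * ENNReal.ofReal (ρ i (gam (i : M) v))) +
      ∫⁻ v in Vb (i : M) ∩ gam (i : M) ⁻¹' T2,
        ENNReal.ofReal |tau f (i : M) v 0| * ENNReal.ofReal (ρ i (gam (i : M) v))) := by
    intro i
    rw [stokes_chart h (i : M) (hUs i) (hεU i) (hWi i)
      ((tsupport_smul_subset_left _ _).trans (hρ i)), enorm_mul, enorm_neg,
      show ‖ε i‖ₑ = 1 by rw [Real.enorm_eq_ofReal_abs, hε, ENNReal.ofReal_one], one_mul]
    refine (enorm_integral_le_lintegral_enorm _).trans ?_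
    refine le_trans ?_ (mul_le_mul_right (lintegral_union_le _ _ _) _)
    have ho : IsOpen (Vb (i : M) ∩ gam (i : M) ⁻¹' T1 ∪ Vb (i : M) ∩ gam (i : M) ⁻¹' T2) :=
      ((continuousOn_gam _).isOpen_inter_preimage (isOpen_Vb _) o1).union
        ((continuousOn_gam _).isOpen_inter_preimage (isOpen_Vb _) o2)
    rw [← lintegral_const_mul' _ _ ENNReal.ofReal_ne_top, ← lintegral_indicator ho.measurableSet]
    refine lintegral_mono fun v => ?_
    by_cases hv : v ∈ Vb (i : M)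
    · have e : ‖bd f (fun m => ρ i m • W m) i v‖ₑ ≤ ENNReal.ofReal c *
          (ENNReal.ofReal |tau f (i : M) v 0| * ENNReal.ofReal (ρ i (gam (i : M) v))) := by
        rw [bd_of_mem hv, Real.enorm_eq_ofReal_abs,
          ← ENNReal.ofReal_mul (abs_nonneg _), ← ENNReal.ofReal_mul hc, inner_smul_left,
          abs_mul, conj_trivial, abs_of_nonneg (ρ.nonneg _ _)]
        refine ENNReal.ofReal_le_ofReal ?_
        have := hWb _ (gam_mem hv) _ (tau_2 h.smooth1 hb.z hv)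
        have h2 := mul_le_mul_of_nonneg_left this (ρ.nonneg i (gam (i : M) v))
        exact h2.trans (le_of_eq (by ring))
      by_cases hv' : v ∈ Vb (i : M) ∩ gam (i : M) ⁻¹' T1 ∪ Vb (i : M) ∩ gam (i : M) ⁻¹' T2
      · rwa [indicator_of_mem hv']
      · rw [tau_0 h.smooth1 hv (hrest _ (gam_mem hv) (fun h => hv' (Or.inl ⟨hv, h⟩))
          (fun h => hv' (Or.inr ⟨hv, h⟩)))] at e
        exact e.trans (by simp)
    · rw [bd_of_notMem hv]; simp
  have k2 := (enorm_sum_le Finset.univ _).trans (Finset.sum_le_sum fun i _ => key i)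
  rw [← Finset.mul_sum, Finset.sum_add_distrib] at k2
  have k3 := k2.trans (mul_le_mul_right (add_le_add
    (tv_le h.smooth1 (fun i : t => (i : M)) (fun i m => ρ i m) ρ.nonneg h1 o1 i1 hb.bound)
    (tv_le h.smooth1 (fun i : t => (i : M)) (fun i m => ρ i m) ρ.nonneg h1 o2 i2 hb.bound)) _)
  rw [Real.enorm_eq_ofReal_abs, ← ENNReal.ofReal_add (by positivity) (by positivity),
    ← ENNReal.ofReal_mul hc, ENNReal.ofReal_le_ofReal_iff (by positivity)] at k3
  exact k3.trans (le_of_eq (by ring))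

theorem stokes_zero (h : IsCMC f N H) {R : ℝ} (hb : BData f R) {W : M → E3}
    (hW : ContMDiff (𝓡∂ 2) 𝓘(ℝ, E3) 1 W) (hWb : ∀ m ∈ (𝓡∂ 2).boundary M, W m = 0) :
    ∫ m, curlM f N W m ∂(area f) = 0 := by
  have := stokes_bound h hb hW le_rfl (fun m hm τ _ => by simp [hWb m hm])
  simpa using this

end Pool.Agent.P.MP_a07190_gt
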