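import Pool.Agent.P.MP_a07190_gt.Alg

open scoped RealInnerProductSpace
open Set MeasureTheory

namespace Pool.Agent.P.MP_a07190_gt

/-- the point `(u, v)` of the plane -/
noncomputable def pt : (ℝ × ℝ) →L[ℝ] E2 :=
  (ContinuousLinearMap.fst ℝ ℝ ℝ).smulRight (ev 0) + (ContinuousLinearMap.snd ℝ ℝ ℝ).smulRight (ev 1)

@[simp] theorem pt_0 (z : ℝ × ℝ) : pt z 0 = z.1 := by simp [pt]
@[simp] theorem pt_1 (z : ℝ × ℝ) : pt z 1 = z.2 := by simp [pt]

theorem pt_10 : pt (1, 0) = ev 0 := by ext i; fin_cases i <;> simp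
theorem pt_01 : pt (0, 1) = ev 1 := by ext i; fin_cases i <;> simp

theorem pt_eta (y : E2) : pt (y 0, y 1) = y := by ext i; fin_cases i <;> simp

noncomputable def ptE : (ℝ × ℝ) ≃ᵐ E2 :=
  (MeasurableEquiv.finTwoArrow (α := ℝ)).symm.trans (MeasurableEquiv.toLp 2 (Fin 2 → ℝ))

theorem ptE_eq (z : ℝ × ℝ) : ptE z = pt z := by
  ext i; fin_cases i <;> simp [ptE, MeasurableEquiv.finTwoArrow]

theorem ptE_mp : MeasurePreserving ptE volume volume :=
  (PiLp.volume_preserving_toLp (Fin 2)).comp ((volume_preserving_finTwoArrow ℝ).symm _)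

theorem abs_le_norm2 (y : E2) (i : Fin 2) : |y i| ≤ ‖y‖ := by
  simpa using PiLp.norm_apply_le y i

theorem green (P Q D : E2 → ℝ) (P' Q' : E2 → E2 →L[ℝ] ℝ) {R : ℝ} (hR : 0 < R)
    (hPc : ContinuousOn P {y | 0 ≤ y 0}) (hQc : ContinuousOn Q {y | 0 ≤ y 0})
    (hDc : ContinuousOn D {y | 0 ≤ y 0})
    (hP : ∀ y : E2, 0 < y 0 → HasFDerivAt P (P' y) y)
    (hQ : ∀ y : E2, 0 < y 0 → HasFDerivAt Q (Q' y) y)
    (hD : ∀ y : E2, 0 < y 0 → D y = Q' y (ev 0) - P' y (ev 1))
    (hs : ∀ y : E2, 0 ≤ y 0 → R ≤ ‖y‖ → P y = 0 ∧ Q y = 0 ∧ D y = 0) :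
    ∫ y in {y : E2 | 0 ≤ y 0}, D y = -∫ v, Q (pt (0, v)) := by
  have hle : ((0 : ℝ), -R) ≤ (R, R) := ⟨hR.le, by simp only; linarith⟩
  have hmaps : MapsTo pt (Icc ((0 : ℝ), -R) (R, R)) {y : E2 | 0 ≤ y 0} := fun z hz => by
    simpa using hz.1.1
  have hae : ∀ᵐ z ∂(volume.restrict (Icc ((0 : ℝ), -R) (R, R))),
      (Q' (pt z)).comp pt (1, 0) + (-(P' (pt z)).comp pt) (0, 1) = D (pt z) := by
    have h0 : ∀ᵐ z : ℝ × ℝ ∂volume, z.1 ≠ 0 := by
      have : (volume : Measure (ℝ × ℝ)) ({0} ×ˢ univ) = 0 := by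
        rw [Measure.volume_eq_prod, Measure.prod_prod]; simp
      rw [ae_iff]
      convert this using 2
      ext z; simp
    filter_upwards [ae_restrict_of_ae h0, ae_restrict_mem measurableSet_Icc] with z hz hz'
    have : 0 < pt z 0 := by simpa using lt_of_le_of_ne hz'.1.1 (Ne.symm hz)
    simp [hD _ this, pt_10, pt_01, sub_eq_add_neg]
  have hint : IntegrableOn (fun z => D (pt z)) (Icc ((0 : ℝ), -R) (R, R)) :=
    (hDc.comp pt.continuous.continuousOn hmaps).integrableOn_compact isCompact_Icc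
  have key := integral_divergence_prod_Icc_of_hasFDerivAt_of_le (fun z => Q (pt z))
    (fun z => -P (pt z)) (fun z => (Q' (pt z)).comp pt) (fun z => -(P' (pt z)).comp pt)
    ((0 : ℝ), -R) (R, R) hle (hQc.comp pt.continuous.continuousOn hmaps)
    (hPc.comp pt.continuous.continuousOn hmaps).neg
    (fun z hz => (hQ _ (by simpa using hz.1.1)).comp z pt.hasFDerivAt)
    (fun z hz => ((hP _ (by simpa using hz.1.1)).comp z pt.hasFDerivAt).neg)
    (hint.congr (Filter.EventuallyEq.symm hae))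
  rw [integral_congr_ae hae] at key
  have z1 : ∫ x in (0 : ℝ)..R, -P (pt (x, R)) = 0 := by
    rw [intervalIntegral.integral_congr (g := fun _ => 0)]; · simp
    intro x hx
    rw [uIcc_of_le hR.le] at hx
    have := abs_le_norm2 (pt (x, R)) 1
    simp [(hs (pt (x, R)) (by simpa using hx.1) (by simpa [abs_of_pos hR] using this)).1]
  have z2 : ∫ x in (0 : ℝ)..R, -P (pt (x, -R)) = 0 := by
    rw [intervalIntegral.integral_congr (g := fun _ => 0)]; · simp
    intro x hx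
    rw [uIcc_of_le hR.le] at hx
    have := abs_le_norm2 (pt (x, -R)) 1
    simp [(hs (pt (x, -R)) (by simpa using hx.1) (by simpa [abs_of_pos hR] using this)).1]
  have z3 : ∫ x in (-R)..R, Q (pt (R, x)) = 0 := by
    rw [intervalIntegral.integral_congr (g := fun _ => 0)]; · simp
    intro x _
    have := abs_le_norm2 (pt (R, x)) 0
    simp [(hs (pt (R, x)) (by simpa using hR.le) (by simpa [abs_of_pos hR] using this)).2.1]
  have z4 : ∫ x in (-R)..R, Q (pt (0, x)) = ∫ v, Q (pt (0, v)) := by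
    rw [intervalIntegral.integral_of_le (by linarith), ← integral_Icc_eq_integral_Ioc]
    apply setIntegral_eq_integral_of_forall_compl_eq_zero
    intro v hv
    have := abs_le_norm2 (pt (0, v)) 1
    refine (hs (pt (0, v)) (by simp) (le_trans ?_ this)).2.1
    rw [pt_1]
    by_contra h
    exact hv (abs_le.1 (not_le.1 h).le)
  simp only [z1, z2, z3, z4] at key
  have e1 : ∫ y in {y : E2 | 0 ≤ y 0}, D y = ∫ z in {z : ℝ × ℝ | 0 ≤ z.1}, D (pt z) := by
    rw [← ptE_mp.setIntegral_preimage_emb ptE.measurableEmbedding]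
    simp only [ptE_eq]
    congr 2
  have e2 : ∫ z in {z : ℝ × ℝ | 0 ≤ z.1}, D (pt z)
      = ∫ z in Icc ((0 : ℝ), -R) (R, R), D (pt z) := by
    symm
    apply setIntegral_eq_of_subset_of_forall_sdiff_eq_zero
      (measurableSet_le measurable_const measurable_fst) (fun z hz => hz.1.1) _ |>.symm
    intro z hz
    refine (hs (pt z) (by simpa using hz.1) ?_).2.2
    by_contra h
    have h1 := abs_le_norm2 (pt z) 0
    have h2 := abs_le_norm2 (pt z) 1
    rw [pt_0] at h1; rw [pt_1] at h2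
    have h3 := abs_le.1 (h1.trans (not_le.1 h).le)
    have h4 := abs_le.1 (h2.trans (not_le.1 h).le)
    exact hz.2 ⟨⟨hz.1, h4.1⟩, ⟨h3.2, h4.2⟩⟩
  rw [e1, e2, key]; ring

end Pool.Agent.P.MP_a07190_gt
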