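import Pool.Agent.P.MP_a07190_gt.Fields

open scoped Manifold ContDiff RealInnerProductSpace Topology
open Set MeasureTheory Filter

namespace Pool.Agent.P.MP_a07190_gt

structure Step (a b : ℝ) (S S' S'' : ℝ → ℝ) (K : ℝ) : Prop where
  c1 : C1 S S'
  c2 : C1 S' S''
  zero : ∀ t ≤ a, S t = 0
  one : ∀ t, b ≤ t → S t = 1
  nonneg : ∀ t, 0 ≤ S t
  le_one : ∀ t, S t ≤ 1
  dz : ∀ t, t ∉ Icc a b → S' t = 0
  b1 : ∀ t, |S' t| ≤ K
  b2 : ∀ t, |S'' t| ≤ K

theorem exists_step {a b : ℝ} (hab : a < b) : ∃ S S' S'' K, Step a b S S' S'' K := by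
  set S : ℝ → ℝ := fun t => Real.smoothTransition ((t - a) / (b - a)) with hS
  have hc : ContDiff ℝ 2 S :=
    Real.smoothTransition.contDiff.comp ((contDiff_id.sub contDiff_const).div_const _)
  have hc' : ContDiff ℝ 1 (deriv S) := hc.deriv'
  have h0 : ∀ t ≤ a, S t = 0 := fun t ht => Real.smoothTransition.zero_of_nonpos
    (div_nonpos_of_nonpos_of_nonneg (by linarith) (by linarith))
  have h1 : ∀ t, b ≤ t → S t = 1 := fun t ht => Real.smoothTransition.one_of_one_le
    ((one_le_div (by linarith)).2 (by linarith))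
  have hz : ∀ t, t ∉ Icc a b → deriv S t = 0 := fun t ht => by
    rcases not_and_or.1 ht with h | h
    · have : S =ᶠ[𝓝 t] fun _ => 0 := by
        filter_upwards [Iio_mem_nhds (not_le.1 h)] with u hu using h0 u (le_of_lt hu)
      rw [this.deriv_eq]; simp
    · have : S =ᶠ[𝓝 t] fun _ => 1 := by
        filter_upwards [Ioi_mem_nhds (not_le.1 h)] with u hu using h1 u (le_of_lt hu)
      rw [this.deriv_eq]; simp
  have hz' : ∀ t, t ∉ Icc a b → deriv (deriv S) t = 0 := fun t ht => by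
    have : deriv S =ᶠ[𝓝 t] fun _ => 0 := by
      filter_upwards [isClosed_Icc.isOpen_compl.mem_nhds ht] with u hu using hz u hu
    rw [this.deriv_eq]; simp
  have hd1 : Continuous (deriv S) := hc'.continuous
  have hd2 : Continuous (deriv (deriv S)) := hc'.continuous_deriv le_rfl
  obtain ⟨K1, hK1⟩ := isCompact_Icc.exists_bound_of_continuousOn (hd1.continuousOn (s := Icc a b))
  obtain ⟨K2, hK2⟩ := isCompact_Icc.exists_bound_of_continuousOn (hd2.continuousOn (s := Icc a b))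
  refine ⟨S, deriv S, deriv (deriv S), max (max K1 K2) 0,
    ⟨fun t => (hc.differentiable two_ne_zero t).hasDerivAt, hd1⟩,
    ⟨fun t => (hc'.differentiable one_ne_zero t).hasDerivAt, hd2⟩, h0, h1,
    fun t => Real.smoothTransition.nonneg _, fun t => Real.smoothTransition.le_one _, hz,
    fun t => ?_, fun t => ?_⟩
  · by_cases ht : t ∈ Icc a b
    · exact (hK1 t ht).trans ((le_max_left _ _).trans (le_max_left _ _))
    · rw [hz t ht, abs_zero]; exact le_max_right _ _
  · by_cases ht : t ∈ Icc a b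
    · exact (hK2 t ht).trans ((le_max_right _ _).trans (le_max_left _ _))
    · rw [hz' t ht, abs_zero]; exact le_max_right _ _

theorem abs_le_sq_add (n : ℝ) {t : ℝ} (ht : 0 < t) : |n| ≤ n ^ 2 / (2 * t) + t / 2 := by
  rw [← sq_abs n, div_add_div _ _ (by positivity) (by positivity), le_div_iff₀ (by positivity)]
  nlinarith [sq_nonneg (|n| - t)]

variable {M : Type*} [TopologicalSpace M] [ChartedSpace (EuclideanHalfSpace 2) M]
  {f N : M → E3} {H : ℝ} [IsManifold (𝓡∂ 2) ∞ M]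
  [MeasurableSpace M] [BorelSpace M] [CompactSpace M] [T2Space M] {R : ℝ}

theorem H_le (h : IsCMC f N H) (hb : BData f R) {α α' β β' : ℝ → ℝ} (hα : C1 α α')
    (hβ : C1 β β') {K : ℝ} (k1 : ∀ t, |α t| ≤ K) (k2 : ∀ t, |α' t| ≤ K) (k3 : ∀ t, |β t| ≤ K)
    (k4 : ∀ t, |β' t| ≤ K) (h0 : ∀ m ∈ (𝓡∂ 2).boundary M, α (f m 0) * β (f m 1) = 0)
    (hdeg : |∫ m, α (f m 0) * β (f m 1) * N m 2 ∂(area f)| = 1) {t : ℝ} (ht : 0 < t) :
    2 * |H| ≤ K ^ 2 * (exc f N / (2 * t) + t * ∫ _, (1 : ℝ) ∂(area f)) := by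
  have hf := h.smooth.continuous
  have hN := h.smooth_normal.continuous
  have c1 := hα.cont
  have c2 := hα.hc
  have c3 := hβ.cont
  have c4 := hβ.hc
  have hK : 0 ≤ K := (abs_nonneg _).trans (k1 0)
  have := fv_zero h hb (contDiff_prod3 hα hβ C1.one) (e3 2)
    (fun m hm => by simp only [prod3, h0 m hm, zero_mul])
  simp only [fderiv_prod3 hα hβ C1.one] at this
  have e : 2 * H * ∫ m, α (f m 0) * β (f m 1) * N m 2 ∂(area f) = ∫ m,
      (α' (f m 0) * β (f m 1) * N m 0 + α (f m 0) * β' (f m 1) * N m 1) * N m 2 ∂(area f) := by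
    rw [← sub_eq_zero, ← integral_const_mul, ← integral_sub
      (integrable_cont h.smooth1 (by fun_prop)) (integrable_cont h.smooth1 (by fun_prop)), ← this]
    refine integral_congr_ae (Eventually.of_forall fun m => ?_)
    simp [inner3, prod3]; ring
  have e2 := congrArg abs e
  rw [abs_mul, hdeg, abs_mul, mul_one, abs_two] at e2
  rw [e2, exc, ← integral_div, ← integral_const_mul, ← integral_add
    (integrable_cont h.smooth1 (by fun_prop)) (integrable_cont h.smooth1 (by fun_prop)),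
    ← integral_const_mul]
  refine abs_integral_le_integral_abs.trans (integral_mono
    (integrable_cont h.smooth1 (by fun_prop)) (integrable_cont h.smooth1 (by fun_prop)) fun m => ?_)
  have h1 := unit3 (h.unit m)
  have h2 : |N m 2| ≤ 1 := by
    rw [← sq_le_one_iff_abs_le_one]; nlinarith [sq_nonneg (N m 0), sq_nonneg (N m 1)]
  have h3 : |α' (f m 0) * β (f m 1) * N m 0| ≤ K ^ 2 * |N m 0| := by
    rw [abs_mul, abs_mul, sq]; gcongr; exacts [k2 _, k3 _]
  have h4 : |α (f m 0) * β' (f m 1) * N m 1| ≤ K ^ 2 * |N m 1| := by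
    rw [abs_mul, abs_mul, sq]; gcongr; exacts [k1 _, k4 _]
  have h5 := abs_le_sq_add (N m 0) ht
  have h6 := abs_le_sq_add (N m 1) ht
  have h7 : (1 - N m 2 ^ 2) / (2 * t) + t * 1
      = N m 0 ^ 2 / (2 * t) + t / 2 + (N m 1 ^ 2 / (2 * t) + t / 2) := by
    rw [show 1 - N m 2 ^ 2 = N m 0 ^ 2 + N m 1 ^ 2 by linarith]; ring
  simp only
  rw [abs_mul, h7]
  refine (mul_le_of_le_one_right (abs_nonneg _) h2).trans ((abs_add_le _ _).trans ?_)
  refine (add_le_add h3 h4).trans ?_
  rw [← mul_add]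
  exact mul_le_mul_of_nonneg_left (add_le_add h5 h6) (sq_nonneg _)

omit [IsManifold (𝓡∂ 2) ∞ M] [CompactSpace M] [T2Space M] in
theorem meas_ball (h : IsCMC f N H) (p : E3) (r : ℝ) :
    MeasurableSet (f ⁻¹' Metric.closedBall p r) :=
  (Metric.isClosed_closedBall.preimage h.smooth.continuous).measurableSet

theorem dist_sq3 (p q : E3) :
    dist p q ^ 2 = (p 0 - q 0) ^ 2 + (p 1 - q 1) ^ 2 + (p 2 - q 2) ^ 2 := by
  rw [dist_eq_norm, norm_sq3]; simp

theorem strip_le (h : IsCMC f N H) (hb : BData f R) {α α' : ℝ → ℝ} (hα : C1 α α') {K r : ℝ}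
    (k0 : ∀ t, 0 ≤ α t) (k1 : ∀ t, α t ≤ 1) (k2 : ∀ t, |α' t| ≤ K)
    (h0 : ∀ m ∈ (𝓡∂ 2).boundary M, α (f m 0) = 0) (p : E3)
    (h1 : ∀ t, |t - p 0| ≤ r → α t = 1) :
    (area f).real (f ⁻¹' Metric.closedBall p r) * (1 / (1 + r ^ 2))
      ≤ (1 + K) * exc f N + 4 * |H| * ∫ _, (1 : ℝ) ∂(area f) := by
  have := finite_area h.smooth1
  have hf := h.smooth.continuous
  have hN := h.smooth_normal.continuous
  have hK : 0 ≤ K := (abs_nonneg _).trans (k2 0)
  have ha : C1 (fun t => Real.arctan (t - p 1)) (fun t => 1 / (1 + (t - p 1) ^ 2)) :=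
    ⟨fun t => by simpa using ((hasDerivAt_id t).sub_const (p 1)).arctan,
      continuous_const.div (by fun_prop) fun t => by positivity⟩
  have hφ := contDiff_prod3 hα ha C1.one
  have k := fv_zero h hb hφ (e3 1) (fun m hm => by simp only [prod3, h0 m hm, zero_mul])
  have hc := continuous_curlM h (smooth_fv h hφ (e3 1))
  simp only [← curlM_fv h hφ] at k
  rw [← smul_eq_mul, ← integral_indicator_const _ (meas_ball h p r), exc, ← integral_const_mul,
    ← integral_const_mul, ← integral_add (integrable_cont h.smooth1 (by fun_prop))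
      (integrable_cont h.smooth1 (by fun_prop)), ← add_zero (∫ _, _ + _ ∂_), ← k,
    ← integral_add (integrable_cont h.smooth1 (by fun_prop)) (integrable_cont h.smooth1 hc)]
  refine integral_mono ((integrable_const _).indicator (meas_ball h p r))
    ((integrable_cont h.smooth1 (by fun_prop)).add (integrable_cont h.smooth1 hc)) fun m => ?_
  simp only [curlM_fv h hφ, fderiv_prod3 hα ha C1.one]
  have u := unit3 (h.unit m)
  set w := 1 / (1 + (f m 1 - p 1) ^ 2) with hw
  have w0 : 0 ≤ w := by positivity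
  have w1 : w ≤ 1 := by rw [hw, div_le_one (by positivity)]; nlinarith [sq_nonneg (f m 1 - p 1)]
  have a2 : |Real.arctan (f m 1 - p 1)| ≤ 2 := by
    have h1 := Real.arctan_lt_pi_div_two (f m 1 - p 1)
    have h2 := Real.neg_pi_div_two_lt_arctan (f m 1 - p 1)
    have := Real.pi_le_four
    rw [abs_le]; constructor <;> linarith
  have n1 : |N m 1| ≤ 1 := by
    rw [← sq_le_one_iff_abs_le_one]; nlinarith [sq_nonneg (N m 0), sq_nonneg (N m 2)]
  have b1 : |α' (f m 0) * Real.arctan (f m 1 - p 1) * (N m 0 * N m 1)| ≤ K * (1 - N m 2 ^ 2) := by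
    rw [abs_mul, abs_mul]
    have : |N m 0 * N m 1| ≤ (1 - N m 2 ^ 2) / 2 := by
      rw [abs_le]; constructor <;> nlinarith [sq_nonneg (N m 0 - N m 1), sq_nonneg (N m 0 + N m 1)]
    calc _ ≤ K * 2 * ((1 - N m 2 ^ 2) / 2) := by gcongr; exact k2 _
      _ = _ := by ring
  have b2 : |2 * H * (α (f m 0) * Real.arctan (f m 1 - p 1)) * N m 1| ≤ 4 * |H| := by
    rw [abs_mul, abs_mul, abs_mul, abs_mul, abs_two, abs_of_nonneg (k0 _)]
    calc _ ≤ 2 * |H| * (1 * 2) * 1 := by gcongr; exact k1 _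
      _ = _ := by ring
  have b3 : α (f m 0) * w * N m 1 ^ 2 ≤ 1 - N m 2 ^ 2 := by
    have : α (f m 0) * w ≤ 1 := mul_le_one₀ (k1 _) w0 w1
    nlinarith [sq_nonneg (N m 0), sq_nonneg (N m 1)]
  have b4 : (f ⁻¹' Metric.closedBall p r).indicator (fun _ => 1 / (1 + r ^ 2)) m
      ≤ α (f m 0) * w := by
    by_cases hm : m ∈ f ⁻¹' Metric.closedBall p r
    · have hd : dist (f m) p ≤ r := hm
      have hs : dist (f m) p ^ 2 ≤ r ^ 2 := by gcongr
      rw [dist_sq3] at hs
      rw [indicator_of_mem hm, h1 _ (abs_le_of_sq_le_sq' (by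
        nlinarith [sq_nonneg (f m 1 - p 1), sq_nonneg (f m 2 - p 2)]) (dist_nonneg.trans hd)
        |> abs_le.2), one_mul, hw]
      refine one_div_le_one_div_of_le (by positivity) ?_
      nlinarith [sq_nonneg (f m 0 - p 0), sq_nonneg (f m 2 - p 2)]
    · rw [indicator_of_notMem hm]; exact mul_nonneg (k0 _) w0
  have b5 := abs_le.1 b1
  have b6 := abs_le.1 b2
  simp [inner3, prod3, -one_div]
  nlinarith

end Pool.Agent.P.MP_a07190_gt
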