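import Pool.Agent.P.MP_a07190_gt.Ineq

open scoped Manifold ContDiff RealInnerProductSpace Topology
open Set MeasureTheory Filter

namespace Pool.Agent.P.MP_a07190_gt

def sq3 (p q : E3) : ℝ := (q 0 - p 0) ^ 2 + (q 1 - p 1) ^ 2 + (q 2 - p 2) ^ 2

theorem sq3_nonneg (p q : E3) : 0 ≤ sq3 p q := by unfold sq3; positivity

theorem contDiff_sq3 (p : E3) : ContDiff ℝ 1 (sq3 p) :=
  ((((contDiff_coord 0).sub contDiff_const).pow 2).add
    (((contDiff_coord 1).sub contDiff_const).pow 2)).add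
    (((contDiff_coord 2).sub contDiff_const).pow 2)

noncomputable def rad (χ : ℝ → ℝ) (σ : ℝ) (p : E3) (i : Fin 3) (q : E3) : ℝ :=
  χ (sq3 p q) / (sq3 p q + σ ^ 2) * (q i - p i)

theorem contDiff_rad {χ χ' : ℝ → ℝ} (h : C1 χ χ') {σ : ℝ} (hσ : 0 < σ) (p : E3) (i : Fin 3) :
    ContDiff ℝ 1 (rad χ σ p i) :=
  ((h.contDiff.comp (contDiff_sq3 p)).div ((contDiff_sq3 p).add contDiff_const) fun q => by
    have := sq3_nonneg p q; positivity).mul ((contDiff_coord i).sub contDiff_const)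

theorem fderiv_rad {χ χ' : ℝ → ℝ} (h : C1 χ χ') {σ : ℝ} (hσ : 0 < σ) (p : E3) (i : Fin 3)
    (q u : E3) : fderiv ℝ (rad χ σ p i) q u =
      (χ' (sq3 p q) / (sq3 p q + σ ^ 2) - χ (sq3 p q) / (sq3 p q + σ ^ 2) ^ 2)
        * (2 * ((q 0 - p 0) * u 0 + (q 1 - p 1) * u 1 + (q 2 - p 2) * u 2)) * (q i - p i)
      + χ (sq3 p q) / (sq3 p q + σ ^ 2) * u i := by
  have hD : sq3 p q + σ ^ 2 ≠ 0 := by have := sq3_nonneg p q; positivity
  have h1 : HasDerivAt (fun t => χ t / (t + σ ^ 2))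
      (χ' (sq3 p q) / (sq3 p q + σ ^ 2) - χ (sq3 p q) / (sq3 p q + σ ^ 2) ^ 2) (sq3 p q) := by
    refine ((h.hd (sq3 p q)).div ((hasDerivAt_id' (sq3 p q)).add_const (σ ^ 2)) hD).congr_deriv ?_
    field_simp
  have h2 := (((((hasFD_coord q 0).sub_const (p 0)).pow 2).add
    (((hasFD_coord q 1).sub_const (p 1)).pow 2)).add (((hasFD_coord q 2).sub_const (p 2)).pow 2))
  have h3 := ((h1.comp_hasFDerivAt q h2).mul ((hasFD_coord q i).sub_const (p i))).fderiv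
  have e : rad χ σ p i = ((fun t => χ t / (t + σ ^ 2)) ∘ sq3 p) * fun q : E3 => q i - p i := rfl
  rw [e]
  refine (congrArg (fun L : E3 →L[ℝ] ℝ => L u) h3).trans ?_
  simp [sq3]
  ring

variable {M : Type*} [TopologicalSpace M] [ChartedSpace (EuclideanHalfSpace 2) M]
  {f N : M → E3} {H : ℝ} [IsManifold (𝓡∂ 2) ∞ M]
  [MeasurableSpace M] [BorelSpace M] [CompactSpace M] [T2Space M] {R : ℝ}

theorem mono_pt {c c' K H s t σ : ℝ} (hσ : 0 < σ) (c0 : 0 ≤ c) (c1 : c ≤ 1) (hK : |c'| ≤ K)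
    (ht : t ^ 2 ≤ s) : 2 * c * σ ^ 2 / (s + σ ^ 2) ^ 2 ≤
      (c' / (s + σ ^ 2) - c / (s + σ ^ 2) ^ 2) * (2 * (s - t ^ 2)) + 2 * (c / (s + σ ^ 2))
        + 2 * H * (c / (s + σ ^ 2)) * t + (2 * K + H ^ 2 / 2) := by
  have hs : 0 ≤ s := (sq_nonneg t).trans ht
  have hD : 0 < s + σ ^ 2 := by positivity
  set a := (s - t ^ 2) / (s + σ ^ 2) with ha
  set b := t / (s + σ ^ 2) with hb
  have a0 : 0 ≤ a := div_nonneg (by linarith) hD.le
  have a1 : a ≤ 1 := (div_le_one hD).2 (by nlinarith [sq_nonneg t, sq_nonneg σ])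
  have e : (c' / (s + σ ^ 2) - c / (s + σ ^ 2) ^ 2) * (2 * (s - t ^ 2)) + 2 * (c / (s + σ ^ 2))
      + 2 * H * (c / (s + σ ^ 2)) * t = 2 * c * σ ^ 2 / (s + σ ^ 2) ^ 2
        + 2 * c' * a + c * (2 * b ^ 2 + 2 * H * b) := by
    rw [ha, hb]; field_simp; ring
  rw [e]
  have k1 : -(2 * K) ≤ 2 * c' * a := by
    have := abs_le.1 hK
    nlinarith [(abs_nonneg c').trans hK]
  have k2 : -(H ^ 2 / 2) ≤ c * (2 * b ^ 2 + 2 * H * b) := by
    nlinarith [mul_nonneg c0 (sq_nonneg (2 * b + H)), sq_nonneg H]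
  linarith

theorem mono_le (h : IsCMC f N H) (hb : BData f R) {χ χ' : ℝ → ℝ} (hχ : C1 χ χ') {K r σ : ℝ}
    (hσ : 0 < σ) (hr : 0 ≤ r) (k0 : ∀ t, 0 ≤ χ t) (k1 : ∀ t, χ t ≤ 1) (k2 : ∀ t, |χ' t| ≤ K)
    (k3 : ∀ t, t ≤ σ ^ 2 → χ t = 1) (k4 : ∀ t, r ^ 2 ≤ t → χ t = 0)
    (k5 : ∀ t, r ^ 2 < t → χ' t = 0) (hσr : σ ≤ r) (p : E3)
    (h0 : ∀ m ∈ (𝓡∂ 2).boundary M, r ^ 2 ≤ sq3 p (f m)) :
    (area f).real (f ⁻¹' Metric.closedBall p σ) * (1 / (2 * σ ^ 2))
      ≤ (area f).real (f ⁻¹' Metric.closedBall p r) * (2 * K + H ^ 2 / 2) := by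
  have := finite_area h.smooth1
  have hφ := contDiff_rad hχ hσ p
  have k := fun i => fv_zero h hb (hφ i) (e3 i) (fun m hm => by simp [rad, k4 _ (h0 m hm)])
  have hc := fun i => integrable_cont h.smooth1 (continuous_curlM h (smooth_fv h (hφ i) (e3 i)))
  simp only [← curlM_fv h (hφ _)] at k
  have ks := integral_finsetSum (μ := area f) Finset.univ fun i _ => hc i
  simp only [k, Finset.sum_const_zero] at ks
  rw [← smul_eq_mul, ← smul_eq_mul (Measure.real _ _), ← integral_indicator_const _ (meas_ball h p σ),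
    ← integral_indicator_const _ (meas_ball h p r), 
    ← zero_add (∫ _, indicator (f ⁻¹' Metric.closedBall p r) _ _ ∂_), ← ks,
    ← integral_add (integrable_finsetSum _ fun i _ => hc i)
      ((integrable_const _).indicator (meas_ball h p r))]
  refine integral_mono ((integrable_const _).indicator (meas_ball h p σ))
    ((integrable_finsetSum _ fun i _ => hc i).add
      ((integrable_const _).indicator (meas_ball h p r))) fun m => ?_
  have u := unit3 (h.unit m)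
  set s := sq3 p (f m) with hs
  set t := (f m 0 - p 0) * N m 0 + (f m 1 - p 1) * N m 1 + (f m 2 - p 2) * N m 2 with ht
  have e : ∑ i, curlM f N (fun m => rad χ σ p i (f m) • crossR (e3 i) (N m)) m
      = (χ' s / (s + σ ^ 2) - χ s / (s + σ ^ 2) ^ 2) * (2 * (s - t ^ 2))
        + 2 * (χ s / (s + σ ^ 2)) + 2 * H * (χ s / (s + σ ^ 2)) * t := by
    simp only [curlM_fv h (hφ _)]
    simp only [fderiv_rad hχ hσ]
    simp only [Fin.sum_univ_three, rad, ← hs, inner3, e3_apply, Fin.isValue, Fin.reduceEq,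
      ↓reduceIte]
    have : s = (f m 0 - p 0) ^ 2 + (f m 1 - p 1) ^ 2 + (f m 2 - p 2) ^ 2 := hs
    linear_combination (-(χ s / (s + σ ^ 2))) * u
      - 2 * (χ' s / (s + σ ^ 2) - χ s / (s + σ ^ 2) ^ 2) * this
  have hts : t ^ 2 ≤ s := by
    have : s = (f m 0 - p 0) ^ 2 + (f m 1 - p 1) ^ 2 + (f m 2 - p 2) ^ 2 := hs
    rw [this, ← mul_one (_ + _ + _), ← u, ht]
    nlinarith [sq_nonneg ((f m 0 - p 0) * N m 1 - (f m 1 - p 1) * N m 0),
      sq_nonneg ((f m 0 - p 0) * N m 2 - (f m 2 - p 2) * N m 0),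
      sq_nonneg ((f m 1 - p 1) * N m 2 - (f m 2 - p 2) * N m 1)]
  have hd : dist (f m) p ^ 2 = s := dist_sq3 _ _
  have s0 : 0 ≤ s := sq3_nonneg _ _
  simp only [e]
  by_cases hm : m ∈ f ⁻¹' Metric.closedBall p r
  · rw [indicator_of_mem hm]
    refine le_trans ?_ (mono_pt hσ (k0 s) (k1 s) (k2 s) hts)
    by_cases hm' : m ∈ f ⁻¹' Metric.closedBall p σ
    · have hd' : dist (f m) p ≤ σ := hm'
      have hs' : s ≤ σ ^ 2 := by rw [← hd]; gcongr
      rw [indicator_of_mem hm', k3 s hs', div_le_div_iff₀ (by positivity) (by positivity)]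
      nlinarith [mul_le_mul hs' hs' s0 (sq_nonneg σ), mul_le_mul_of_nonneg_right hs' (sq_nonneg σ)]
    · rw [indicator_of_notMem hm']
      have := k0 s
      positivity
  · have hd' : r < dist (f m) p := not_le.1 hm
    have hs' : r ^ 2 < s := by rw [← hd]; gcongr
    rw [indicator_of_notMem hm, indicator_of_notMem fun hm' : m ∈ f ⁻¹' Metric.closedBall p σ =>
      hm (Metric.closedBall_subset_closedBall hσr hm'), k4 s hs'.le, k5 s hs']
    simp

end Pool.Agent.P.MP_a07190_gt
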