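import Pool.Agent.P.MP_a07190_gt.Sep

open scoped Manifold ContDiff RealInnerProductSpace Topology
open Set MeasureTheory Filter

namespace Pool.Agent.P.MP_a07190_gt

noncomputable def rot2 {a b : ℝ} (h : a ^ 2 + b ^ 2 = 1) : E2 ≃ₗᵢ[ℝ] E2 where
  toFun p := WithLp.toLp 2 ![a * p 0 + b * p 1, -b * p 0 + a * p 1]
  invFun p := WithLp.toLp 2 ![a * p 0 - b * p 1, b * p 0 + a * p 1]
  map_add' p q := by ext i; fin_cases i <;> simp <;> ring
  map_smul' c p := by ext i; fin_cases i <;> simp <;> ring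
  left_inv p := by
    ext i; fin_cases i
    · simp; linear_combination (p 0) * h
    · simp; linear_combination (p 1) * h
  right_inv p := by
    ext i; fin_cases i
    · simp; linear_combination (p 0) * h
    · simp; linear_combination (p 1) * h
  norm_map' p := by
    refine (sq_eq_sq₀ (norm_nonneg _) (norm_nonneg _)).1 ?_
    rw [EuclideanSpace.real_norm_sq_eq, EuclideanSpace.real_norm_sq_eq, Fin.sum_univ_two,
      Fin.sum_univ_two]
    simp
    linear_combination (p 0 ^ 2 + p 1 ^ 2) * h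

noncomputable def rot3 {a b : ℝ} (h : a ^ 2 + b ^ 2 = 1) : E3 ≃ₗᵢ[ℝ] E3 where
  toFun p := WithLp.toLp 2 ![a * p 0 + b * p 1, -b * p 0 + a * p 1, p 2]
  invFun p := WithLp.toLp 2 ![a * p 0 - b * p 1, b * p 0 + a * p 1, p 2]
  map_add' p q := by ext i; fin_cases i <;> simp <;> ring
  map_smul' c p := by ext i; fin_cases i <;> simp <;> ring
  left_inv p := by
    ext i; fin_cases i
    · simp; linear_combination (p 0) * h
    · simp; linear_combination (p 1) * h
    · simp
  right_inv p := by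
    ext i; fin_cases i
    · simp; linear_combination (p 0) * h
    · simp; linear_combination (p 1) * h
    · simp
  norm_map' p := by
    refine (sq_eq_sq₀ (norm_nonneg _) (norm_nonneg _)).1 ?_
    rw [norm_sq3, norm_sq3]
    simp
    linear_combination (p 0 ^ 2 + p 1 ^ 2) * h

theorem rot_toP {a b : ℝ} (h : a ^ 2 + b ^ 2 = 1) (p : E2) : rot3 h (toP p) = toP (rot2 h p) := by
  ext i; fin_cases i <;> rfl

theorem rot2_0 {a b : ℝ} (h : a ^ 2 + b ^ 2 = 1) (p : E2) : rot2 h p 0 = a * p 0 + b * p 1 := rfl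

section
variable {M : Type*} [TopologicalSpace M] [ChartedSpace (EuclideanHalfSpace 2) M]
  {f N : M → E3} {H : ℝ} (R : E3 ≃ₗᵢ[ℝ] E3)

theorem smooth_iso {n : WithTop ℕ∞} {g : M → E3} (hg : ContMDiff (𝓡∂ 2) 𝓘(ℝ, E3) n g) :
    ContMDiff (𝓡∂ 2) 𝓘(ℝ, E3) n (R ∘ g) := R.contDiff.contMDiff.comp hg

variable [IsManifold (𝓡∂ 2) ∞ M]

theorem chartDif_iso {g : M → E3} (hg : ContMDiff (𝓡∂ 2) 𝓘(ℝ, E3) 1 g) {x : M} {y : E2}
    (hy : y ∈ (ch x).target) (v : E2) : chartDif (R ∘ g) x y v = R (chartDif g x y v) := by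
  have := ((R : E3 →L[ℝ] E3).hasFDerivAt.comp_hasFDerivWithinAt y (hasFD_ch hg hy)).fderivWithin
    (uniq hy)
  exact congrArg (fun L : E2 →L[ℝ] E3 => L v) this

theorem dif_iso {g : M → E3} (hg : ContMDiff (𝓡∂ 2) 𝓘(ℝ, E3) 1 g) (m : M) (v : E2) :
    dif (R ∘ g) m v = R (dif g m v) := by
  rw [dif_eq hg, dif_eq (smooth_iso R hg), chartDif_iso R hg (mem_extChartAt_target m)]

theorem IsCMC.iso (h : IsCMC f N H) : IsCMC (R ∘ f) (R ∘ N) H where
  smooth := smooth_iso R h.smooth
  immersion m u v e := by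
    rw [dif_iso R h.smooth1, dif_iso R h.smooth1] at e
    exact h.immersion m (R.injective e)
  smooth_normal := smooth_iso R h.smooth_normal
  unit m := by rw [Function.comp_apply, R.norm_map, h.unit]
  perp m v := by rw [dif_iso R h.smooth1, Function.comp_apply, R.inner_map_map, h.perp]
  cmc m := by
    rw [← h.cmc m]
    simp only [meanCurv, form, col, dif_iso R h.smooth1, dif_iso R h.smooth_normal, R.inner_map_map]

variable [MeasurableSpace M]

theorem area_iso (hf : ContMDiff (𝓡∂ 2) 𝓘(ℝ, E3) 1 f) : area (R ∘ f) = area f := by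
  unfold area
  congr 1
  funext x
  unfold chartArea
  congr 1
  refine withDensity_congr_ae ?_
  filter_upwards [ae_restrict_mem (measurableSet_tgt x)] with y hy
  simp only [jac, col, chartDif_iso R hf hy, R.inner_map_map]

theorem algVol_iso (hf : ContMDiff (𝓡∂ 2) 𝓘(ℝ, E3) 1 f) :
    algVol (R ∘ f) (R ∘ N) = algVol f N := by
  simp only [algVol, area_iso R hf, Function.comp_apply, R.inner_map_map]

end

theorem main {K1 K2 : Set E2} (h1 : Convex ℝ K1) (c1 : IsCompact K1)
    (i1 : (interior K1).Nonempty) (h2 : Convex ℝ K2) (c2 : IsCompact K2)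
    (i2 : (interior K2).Nonempty) (hd : Disjoint (interior K1) (interior K2)) :
    ∃ V0 > 0, ∀ (M : Type*) [TopologicalSpace M] [ChartedSpace (EuclideanHalfSpace 2) M]
      [IsManifold (𝓡∂ 2) ∞ M] [MeasurableSpace M] [BorelSpace M] [CompactSpace M] [T2Space M]
      (f N : M → E3) (H : ℝ), IsCMC f N H →
      BijOn f ((𝓡∂ 2).boundary M) (toP '' (frontier K1 ∪ frontier K2)) →
      algVol f N < V0 → ¬IsPreconnected (range f) := by
  by_cases hdis : Disjoint K1 K2
  swap
  · exact ⟨1, one_pos, fun M _ _ _ _ _ _ _ f N H h hb _ =>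
      absurd (disjoint_of_bij h1 c1 i1 h2 c2 i2 hd h hb) hdis⟩
  obtain ⟨l, u, v, l1, huv, l2⟩ := geometric_hahn_banach_compact_closed h1 c1 h2 c2.isClosed hdis
  have hl : ∀ p : E2, l p = p 0 * l (ev 0) + p 1 * l (ev 1) := fun p => map_decomp l p
  have hn : 0 < l (ev 0) ^ 2 + l (ev 1) ^ 2 := by
    by_contra hn
    have e0 : l (ev 0) = 0 := by nlinarith [sq_nonneg (l (ev 0)), sq_nonneg (l (ev 1))]
    have e1 : l (ev 1) = 0 := by nlinarith [sq_nonneg (l (ev 0)), sq_nonneg (l (ev 1))]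
    obtain ⟨p, hp⟩ := i1
    obtain ⟨q, hq⟩ := i2
    have a1 := l1 p (interior_subset hp)
    have a2 := l2 q (interior_subset hq)
    rw [hl, e0, e1] at a1 a2
    linarith
  set n := √(l (ev 0) ^ 2 + l (ev 1) ^ 2) with hnd
  have n0 : 0 < n := Real.sqrt_pos.2 hn
  have hab : (l (ev 0) / n) ^ 2 + (l (ev 1) / n) ^ 2 = 1 := by
    rw [div_pow, div_pow, ← add_div, hnd, Real.sq_sqrt hn.le, div_self hn.ne']
  have hr : ∀ p, rot2 hab p 0 = l p / n := fun p => by rw [rot2_0, hl p]; ring
  set R := (rot2 hab).toHomeomorph with hR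
  have cv : ∀ K : Set E2, Convex ℝ K → Convex ℝ (R '' K) := fun K hK =>
    hK.linear_image (rot2 hab).toLinearEquiv.toLinearMap
  have ni : ∀ K : Set E2, (interior K).Nonempty → (interior (R '' K)).Nonempty := fun K hK => by
    rw [← R.image_interior]; exact hK.image _
  obtain ⟨V0, hV0, hc⟩ := sep_case (cv _ h1) (c1.image R.continuous) (ni _ i1) (cv _ h2)
    (c2.image R.continuous) (ni _ i2) (c := (u + v) / 2 / n) (δ := (v - u) / 2 / n)
    (div_pos (by linarith) n0)
    (by
      rintro _ ⟨p, hp, rfl⟩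
      rw [← sub_div]
      exact (hr p).trans_le (div_le_div_of_nonneg_right (by linarith [l1 p hp]) n0.le))
    (by
      rintro _ ⟨p, hp, rfl⟩
      rw [← add_div]
      exact le_trans (div_le_div_of_nonneg_right (by linarith [l2 p hp]) n0.le) (hr p).ge)
  refine ⟨V0, hV0, fun M _ _ _ _ _ _ _ f N H h hb hV hM => ?_⟩
  refine hc M _ _ H (h.iso (rot3 hab)) ?_ (by rwa [algVol_iso _ h.smooth1]) ?_
  · have e : toP '' (frontier (R '' K1) ∪ frontier (R '' K2))
        = rot3 hab '' (toP '' (frontier K1 ∪ frontier K2)) := by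
      rw [← R.image_frontier, ← R.image_frontier, ← image_union, image_image, image_image]
      exact image_congr fun p _ => (rot_toP hab p).symm
    rw [e]
    exact ((rot3 hab).injective.injOn.bijOn_image).comp hb
  · rw [range_comp]
    exact hM.image _ (rot3 hab).continuous.continuousOn

end Pool.Agent.P.MP_a07190_gt
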