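import Pool.Agent.P.MP_a07190_gt.Core
import Pool.Agent.P.MP_a07190_gt.Geom

open scoped Manifold ContDiff RealInnerProductSpace Topology
open Set MeasureTheory Filter

namespace Pool.Agent.P.MP_a07190_gt

@[simp] theorem toP_0 (p : E2) : toP p 0 = p 0 := rfl
@[simp] theorem toP_1 (p : E2) : toP p 1 = p 1 := rfl
@[simp] theorem toP_2 (p : E2) : toP p 2 = 0 := rfl

/-- projection to the plane -/
noncomputable def prj (q : E3) : E2 := pt (q 0, q 1)

@[simp] theorem prj_0 (q : E3) : prj q 0 = q 0 := by simp [prj]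
@[simp] theorem prj_1 (q : E3) : prj q 1 = q 1 := by simp [prj]

theorem prj_toP (p : E2) : prj (toP p) = p := ext2 (by simp) (by simp)

theorem cont_prj : Continuous prj := by unfold prj; fun_prop

section
variable {M : Type*} {f : M → E3} {b : Set M} {C : Set E2}

theorem bij_mem (h : BijOn f b (toP '' C)) {m : M} (hm : m ∈ b) : prj (f m) ∈ C := by
  obtain ⟨p, hp, e⟩ := h.mapsTo hm
  rw [← e, prj_toP]; exact hp

theorem bij_z (h : BijOn f b (toP '' C)) {m : M} (hm : m ∈ b) : f m 2 = 0 := by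
  obtain ⟨p, -, e⟩ := h.mapsTo hm
  rw [← e, toP_2]

theorem bij_inj (h : BijOn f b (toP '' C)) {m m' : M} (hm : m ∈ b) (hm' : m' ∈ b)
    (e : prj (f m) = prj (f m')) : m = m' := by
  obtain ⟨p, -, e1⟩ := h.mapsTo hm
  obtain ⟨p', -, e2⟩ := h.mapsTo hm'
  rw [← e1, ← e2, prj_toP, prj_toP] at e
  exact h.injOn hm hm' (by rw [← e1, ← e2, e])

theorem bij_surj (h : BijOn f b (toP '' C)) {p : E2} (hp : p ∈ C) : ∃ m ∈ b, prj (f m) = p := by
  obtain ⟨m, hm, e⟩ := h.surjOn ⟨p, hp, rfl⟩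
  exact ⟨m, hm, by rw [e, prj_toP]⟩

end

theorem sep_case {K1 K2 : Set E2} (h1 : Convex ℝ K1) (c1 : IsCompact K1)
    (i1 : (interior K1).Nonempty) (h2 : Convex ℝ K2) (c2 : IsCompact K2)
    (i2 : (interior K2).Nonempty) {c δ : ℝ} (hδ : 0 < δ) (s1 : ∀ p ∈ K1, p 0 ≤ c - δ)
    (s2 : ∀ p ∈ K2, c + δ ≤ p 0) :
    ∃ V0 > 0, ∀ (M : Type*) [TopologicalSpace M] [ChartedSpace (EuclideanHalfSpace 2) M]
      [IsManifold (𝓡∂ 2) ∞ M] [MeasurableSpace M] [BorelSpace M] [CompactSpace M] [T2Space M]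
      (f N : M → E3) (H : ℝ), IsCMC f N H →
      BijOn f ((𝓡∂ 2).boundary M) (toP '' (frontier K1 ∪ frontier K2)) →
      algVol f N < V0 → ¬IsPreconnected (range f) := by
  obtain ⟨x1, x2, y1, y2, hx, hy, hrect, p0, hp0, hp0'⟩ := exists_rect c1 i1
  obtain ⟨R, hR, hRK⟩ := (c1.union c2).isBounded.subset_ball_lt 0 0
  obtain ⟨V0, hV0, hc⟩ := core (c := c) (R := R) hδ hx hy
  refine ⟨V0, hV0, fun M _ _ _ _ _ _ _ f N H h hb hV hM => ?_⟩
  have hf := h.smooth.continuous
  have f1 := c1.isClosed.frontier_subset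
  have f2 := c2.isClosed.frontier_subset
  have hbd : ∀ m ∈ (𝓡∂ 2).boundary M, ∀ i, |prj (f m) i| ≤ R := fun m hm i =>
    (abs_le_norm2 _ i).trans (mem_ball_zero_iff.1 (hRK (union_subset_union f1 f2
      (bij_mem hb hm)))).le
  have hT : ∀ ε : ℝ, ε ≠ 0 → InjOn (fun m => f m 0)
      ((𝓡∂ 2).boundary M ∩ (fun m => prj (f m)) ⁻¹' (Up ε K1 ∪ Up ε K2)) := by
    intro ε hε m hm m' hm' e
    have e' : prj (f m) 0 = prj (f m') 0 := by simpa using e
    refine bij_inj hb hm.1 hm'.1 ?_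
    have k1 : ∀ p ∈ frontier K1, p ∈ Up ε K1 ∪ Up ε K2 → p ∈ Up ε K1 := fun p hp hp' =>
      hp'.resolve_right fun h => by
        obtain ⟨r, hr, e⟩ := Up_side h
        linarith [s1 p (f1 hp), s2 r hr]
    have k2 : ∀ p ∈ frontier K2, p ∈ Up ε K1 ∪ Up ε K2 → p ∈ Up ε K2 := fun p hp hp' =>
      hp'.resolve_left fun h => by
        obtain ⟨r, hr, e⟩ := Up_side h
        linarith [s2 p (f2 hp), s1 r hr]
    rcases bij_mem hb hm.1 with a | a <;> rcases bij_mem hb hm'.1 with a' | a'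
    · exact Up_inj hε h1 c1.isClosed a a' (k1 _ a hm.2) (k1 _ a' hm'.2) e'
    · linarith [s1 _ (f1 a), s2 _ (f2 a')]
    · linarith [s2 _ (f2 a), s1 _ (f1 a')]
    · exact Up_inj hε h2 c2.isClosed a a' (k2 _ a hm.2) (k2 _ a' hm'.2) e'
  have hTo : ∀ ε : ℝ, IsOpen ((fun m => prj (f m)) ⁻¹' (Up ε K1 ∪ Up ε K2)) := fun ε =>
    ((isOpen_Up ε K1).union (isOpen_Up ε K2)).preimage (cont_prj.comp hf)
  have hx0 : Continuous fun m => f m 0 := by fun_prop
  have hB : BData f R := ⟨fun m hm => bij_z hb hm, fun m hm => by simpa using hbd m hm 0, hR.le,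
    _, _, hTo 1, hTo (-1), hT 1 one_ne_zero, hT (-1) (by norm_num), fun m hm n1 n2 => by
      rcases bij_mem hb hm with a | a
      · have hev : ∀ᶠ m' in 𝓝[(𝓡∂ 2).boundary M] m, prj (f m') ∈ K1 := by
          have : f m 0 < c := by have := s1 _ (f1 a); rw [prj_0] at this; linarith
          filter_upwards [self_mem_nhdsWithin,
            nhdsWithin_le_nhds (hx0.continuousAt.eventually (gt_mem_nhds this))] with m' hm' e
          refine f1 ((bij_mem hb hm').resolve_right fun a' => ?_)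
          have := s2 _ (f2 a'); rw [prj_0] at this; linarith
        rcases rest_extr h1 i1 a (fun h => n1 (Or.inl h)) (fun h => n2 (Or.inl h)) with e | e
        · exact Or.inr (hev.mono fun m' hm' => by simpa using e _ hm')
        · exact Or.inl (hev.mono fun m' hm' => by simpa using e _ hm')
      · have hev : ∀ᶠ m' in 𝓝[(𝓡∂ 2).boundary M] m, prj (f m') ∈ K2 := by
          have : c < f m 0 := by have := s2 _ (f2 a); rw [prj_0] at this; linarith
          filter_upwards [self_mem_nhdsWithin,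
            nhdsWithin_le_nhds (hx0.continuousAt.eventually (lt_mem_nhds this))] with m' hm' e
          refine f2 ((bij_mem hb hm').resolve_left fun a' => ?_)
          have := s1 _ (f1 a'); rw [prj_0] at this; linarith
        rcases rest_extr h2 i2 a (fun h => n1 (Or.inr h)) (fun h => n2 (Or.inr h)) with e | e
        · exact Or.inr (hev.mono fun m' hm' => by simpa using e _ hm')
        · exact Or.inl (hev.mono fun m' hm' => by simpa using e _ hm')⟩
  obtain ⟨m1, hm1, e1⟩ := bij_surj hb (Or.inl hp0)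
  obtain ⟨q, hq⟩ := nonempty_frontier_iff.2 ⟨i2.mono interior_subset, c2.ne_univ⟩
  obtain ⟨m2, -, e2⟩ := bij_surj hb (Or.inr hq)
  have key := hc M f N H h hB (fun m hm => by simpa using hbd m hm 1)
    (fun m hm => by
      rcases bij_mem hb hm with a | a
      · have := s1 _ (f1 a); rw [prj_0] at this
        exact le_abs.2 (Or.inr (by linarith))
      · have := s2 _ (f2 a); rw [prj_0] at this
        exact le_abs.2 (Or.inl (by linarith)))
    (fun m hm a b => by
      have := hrect (prj (f m)) (by simpa using a) (by simpa using b)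
      rcases bij_mem hb hm with a' | a'
      · exact a'.2 this
      · linarith [s1 _ (interior_subset this), s2 _ (f2 a')])
    ((hT 1 one_ne_zero).mono (inter_subset_inter_right _ fun m hm =>
      Or.inl ⟨f m 1 - y2, sub_pos.2 hm.2, hrect _ (by simpa using Ioo_subset_Icc_self hm.1)
        (by simpa using hy.le)⟩))
    ⟨m1, hm1, by rw [← prj_0, ← prj_1, e1]; exact hp0'⟩ hV
  have a1 := s1 _ (f1 hp0)
  have a2 := s2 _ (f2 hq)
  rw [← e1, prj_0] at a1
  rw [← e2, prj_0] at a2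
  obtain ⟨_, ⟨m, rfl⟩, hm⟩ := hM.intermediate_value (mem_range_self m1) (mem_range_self m2)
    (f := fun q : E3 => q 0) (by fun_prop) (show c ∈ _ from ⟨by linarith, by linarith⟩)
  exact key m hm

variable {M : Type*} [TopologicalSpace M] [ChartedSpace (EuclideanHalfSpace 2) M]
  {f N : M → E3} {H : ℝ} [IsManifold (𝓡∂ 2) ∞ M] [CompactSpace M]

theorem local_inj (h : IsCMC f N H) {C : Set E2}
    (hb : BijOn f ((𝓡∂ 2).boundary M) (toP '' C)) {p : E2} (hp : p ∈ C) :
    ∃ δ > 0, ∃ i : Fin 2, ∀ q ∈ C ∩ Metric.ball p δ, ∀ q' ∈ C ∩ Metric.ball p δ,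
      q i = q' i → q = q' := by
  have hf := h.smooth.continuous
  obtain ⟨x, hx, ex⟩ := bij_surj hb hp
  obtain ⟨v0, hv0, hg0⟩ := exists_gam (mem_extChartAt_source x) hx
  have hτ : tau f x v0 ≠ 0 := fun e => by
    have := h.inj_ch hv0 (e.trans (map_zero _).symm)
    simpa using congrArg (fun u : E2 => u 1) this
  obtain ⟨i, k, hik, hk⟩ : ∃ (i : Fin 2) (k : Fin 3), (∀ q, prj q i = q k) ∧ tau f x v0 k ≠ 0 := by
    by_cases h0 : tau f x v0 0 = 0
    · refine ⟨1, 1, prj_1, fun h1 => hτ ?_⟩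
      have h2 := tau_2 h.smooth1 (fun m hm => bij_z hb hm) hv0
      ext j; fin_cases j; exacts [h0, h1, h2]
    · exact ⟨0, 0, prj_0, h0⟩
  have hc : ContinuousAt (fun v => tau f x v k) v0 :=
    (show Continuous fun u : E3 => u k by fun_prop).continuousAt.comp
      ((continuousOn_tau h.smooth1 x).continuousAt ((isOpen_Vb x).mem_nhds hv0))
  obtain ⟨η, hη, hs⟩ := Metric.nhds_basis_ball.eventually_iff.1
    ((hc.eventually_ne hk).and ((isOpen_Vb x).mem_nhds hv0))
  have hinj : ∀ v ∈ Metric.ball v0 η, ∀ w ∈ Metric.ball v0 η, v < w →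
      f (gam x v) k ≠ f (gam x w) k := fun v hv w hw hvw e => by
    have hsub : Icc v w ⊆ Metric.ball v0 η := (convex_ball v0 η).ordConnected.out hv hw
    obtain ⟨t, ht, e'⟩ := exists_hasDerivAt_eq_zero (f := fun v => f (gam x v) k) hvw
      (fun t ht => (hasDerivAt_gam' h.smooth1 (hs (hsub ht)).2 k).continuousAt.continuousWithinAt)
      e (fun t ht => hasDerivAt_gam' h.smooth1 (hs (hsub (Ioo_subset_Icc_self ht))).2 k)
    exact (hs (hsub (Ioo_subset_Icc_self ht))).1 e'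
  set O := (ch x).source ∩ ch x ⁻¹' {y : E2 | dist (y 1) v0 < η}
  have hO : IsOpen O := (continuousOn_extChartAt x).isOpen_inter_preimage
    (isOpen_extChartAt_source x) (isOpen_lt (by fun_prop) continuous_const)
  have hgam : ∀ v ∈ Vb x, ch x (gam x v) 1 = v := fun v hv => by
    rw [gam, (ch x).right_inv hv, pt_1]
  have hxO : x ∈ O := ⟨mem_extChartAt_source x, by
    have := hgam v0 hv0
    rw [hg0] at this
    simp only [mem_preimage, mem_setOf_eq, this, dist_self, hη]⟩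
  have hK : IsCompact ((fun m => prj (f m)) '' ((𝓡∂ 2).boundary M \ O)) :=
    (((𝓡∂ 2).isClosed_boundary (n := ∞) (by simp)).sdiff hO).isCompact.image (cont_prj.comp hf)
  have hpK : p ∉ (fun m => prj (f m)) '' ((𝓡∂ 2).boundary M \ O) := by
    rintro ⟨m, hm, e⟩
    exact hm.2 (bij_inj hb hm.1 hx (e.trans ex.symm) ▸ hxO)
  obtain ⟨δ, hδ, hball⟩ := Metric.isOpen_iff.1 hK.isClosed.isOpen_compl p hpK
  have key : ∀ q ∈ C ∩ Metric.ball p δ, ∃ v ∈ Metric.ball v0 η, prj (f (gam x v)) = q := by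
    intro q hq
    obtain ⟨m, hm, e⟩ := bij_surj hb hq.1
    have hmO : m ∈ O := by
      by_contra hn
      exact hball hq.2 ⟨m, ⟨hm, hn⟩, e⟩
    obtain ⟨v, hv, rfl⟩ := exists_gam hmO.1 hm
    refine ⟨v, ?_, e⟩
    have := hmO.2
    rwa [mem_preimage, mem_setOf_eq, hgam v hv] at this
  refine ⟨δ, hδ, i, fun q hq q' hq' e => ?_⟩
  obtain ⟨v, hv, rfl⟩ := key q hq
  obtain ⟨w, hw, rfl⟩ := key q' hq'
  rw [hik, hik] at e
  rcases lt_trichotomy v w with h3 | h3 | h3
  · exact absurd e (hinj v hv w hw h3)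
  · rw [h3]
  · exact absurd e.symm (hinj w hw v hv h3)

theorem disjoint_of_bij {K1 K2 : Set E2} (h1 : Convex ℝ K1) (c1 : IsCompact K1)
    (i1 : (interior K1).Nonempty) (h2 : Convex ℝ K2) (c2 : IsCompact K2)
    (i2 : (interior K2).Nonempty) (hd : Disjoint (interior K1) (interior K2)) (h : IsCMC f N H)
    (hb : BijOn f ((𝓡∂ 2).boundary M) (toP '' (frontier K1 ∪ frontier K2))) :
    Disjoint K1 K2 := by
  by_contra hn
  obtain ⟨p, hp⟩ := (c1.inter_right c2.isClosed).extremePoints_nonempty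
    (not_disjoint_iff_nonempty_inter.1 hn)
  obtain ⟨δ, hδ, i, hi⟩ := local_inj h hb (Or.inl (inter_sub_frontier h2 i2 hd hp.1.1 hp.1.2))
  fin_cases i
  · exact touch_B h1 c1.isClosed i1 h2 c2.isClosed i2 hd (w := ev 1) (u := ev 0) hδ
      (EuclideanSpace.proj 0) (fun e => by simpa using congrArg (fun u : E2 => u 1) e)
      (by simp) (by simp) hp hi
  · exact touch_B h1 c1.isClosed i1 h2 c2.isClosed i2 hd (w := ev 0) (u := ev 1) hδ
      (EuclideanSpace.proj 1) (fun e => by simpa using congrArg (fun u : E2 => u 0) e)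
      (by simp) (by simp) hp hi

end Pool.Agent.P.MP_a07190_gt
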