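import Pool.Agent.P.MP_a07190_gt.Area

open scoped Manifold ContDiff RealInnerProductSpace Topology
open Set MeasureTheory Filter

namespace Pool.Agent.P.MP_a07190_gt

variable {M : Type*} [TopologicalSpace M] [ChartedSpace (EuclideanHalfSpace 2) M]

theorem continuousOn_ind {x : M} {K : Set E2} (hK : IsClosed K) (hKT : K ⊆ (ch x).target)
    {h : E2 → ℝ} (hc : ContinuousOn h (ch x).target)
    (h0 : ∀ y ∈ (ch x).target, y ∉ K → h y = 0) :
    ContinuousOn ((ch x).target.indicator h) {y | 0 ≤ y 0} := by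
  rw [← range_I]
  intro y _
  by_cases hy : y ∈ (ch x).target
  · refine ((hc y hy).mono_of_mem_nhdsWithin (tgt_mem hy)).congr_of_eventuallyEq ?_
      (indicator_of_mem hy _)
    filter_upwards [tgt_mem hy] with z hz using indicator_of_mem hz _
  · have : (ch x).target.indicator h =ᶠ[𝓝 y] fun _ => 0 := by
      filter_upwards [hK.isOpen_compl.mem_nhds (fun hk => hy (hKT hk))] with z hz
      by_cases hz' : z ∈ (ch x).target
      · rw [indicator_of_mem hz', h0 z hz' hz]
      · exact indicator_of_notMem hz' _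
    exact (continuousAt_const.congr this.symm).continuousWithinAt

/-- the boundary integrand in the chart at `x` -/
noncomputable def bd (f W : M → E3) (x : M) (v : ℝ) : ℝ :=
  (ch x).target.indicator (fun y => ⟪W ((ch x).symm y), chartDif f x y (ev 1)⟫) (pt (0, v))

variable [IsManifold (𝓡∂ 2) ∞ M] {f N : M → E3} {H : ℝ}

theorem interior_deriv (hf : ContMDiff (𝓡∂ 2) 𝓘(ℝ, E3) 2 f) {W : M → E3}
    (hW : ContMDiff (𝓡∂ 2) 𝓘(ℝ, E3) 1 W) {x : M} {y : E2} (hy : y ∈ (ch x).target)
    (h0 : 0 < y 0) : ∃ S : E2 →L[ℝ] E2 →L[ℝ] E3, (∀ u v, S u v = S v u) ∧ ∀ a : E2,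
      ∃ L : E2 →L[ℝ] ℝ, HasFDerivAt ((ch x).target.indicator
        fun z => ⟪W ((ch x).symm z), chartDif f x z a⟫) L y ∧
        ∀ u, L u = ⟪W ((ch x).symm y), S u a⟫ + ⟪chartDif W x y u, chartDif f x y a⟫ := by
  have hT := tgt_mem_nhds hy h0
  have hF : ContDiffAt ℝ 2 (f ∘ (ch x).symm) y := (contDiffOn_ch2 hf x).contDiffAt hT
  have hsym := hF.isSymmSndFDerivAt (by simp)
  have hF' : DifferentiableAt ℝ (fderiv ℝ (f ∘ (ch x).symm)) y :=
    (hF.fderiv_right (m := 1) le_rfl).differentiableAt one_ne_zero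
  have hev : ∀ᶠ z in 𝓝 y, chartDif f x z = fderiv ℝ (f ∘ (ch x).symm) z := by
    have : IsOpen {z : E2 | 0 < z 0} := isOpen_lt continuous_const (by fun_prop)
    filter_upwards [this.mem_nhds h0] with z hz
    exact fderivWithin_of_mem_nhds (range_mem_nhds hz)
  refine ⟨fderiv ℝ (fderiv ℝ (f ∘ (ch x).symm)) y, fun u v => hsym.eq u v, fun a => ?_⟩
  have hw : HasFDerivAt (W ∘ (ch x).symm) (chartDif W x y) y :=
    (hasFD_ch hW hy).hasFDerivAt (range_mem_nhds h0)
  have h1 := hw.inner ℝ (hF'.hasFDerivAt.clm_apply (hasFDerivAt_const a y))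
  refine ⟨_, h1.congr_of_eventuallyEq ?_, fun u => ?_⟩
  · filter_upwards [hT, hev] with z hz hz'
    rw [indicator_of_mem hz, hz']; rfl
  · simp [hev.self_of_nhds]

variable [MeasurableSpace M] [BorelSpace M] [CompactSpace M]

theorem stokes_chart (h : IsCMC f N H) (x : M) {U : Set M} {ε : ℝ} (hU : U ⊆ (ch x).source)
    (hε : ∀ y ∈ (ch x).target, (ch x).symm y ∈ U →
      jac (chartDif f x y) = ε * den (chartDif f x y) (N ((ch x).symm y)))
    {W : M → E3} (hW : ContMDiff (𝓡∂ 2) 𝓘(ℝ, E3) 1 W) (hs : tsupport W ⊆ U) :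
    ∫ m, curlM f N W m ∂(area f) = -ε * ∫ v, bd f W x v := by
  have hsS : tsupport W ⊆ (ch x).source := hs.trans hU
  have hKc : IsCompact (ch x '' tsupport W) :=
    (isClosed_tsupport W).isCompact.image_of_continuousOn
      ((continuousOn_extChartAt x).mono hsS)
  have hKT : ch x '' tsupport W ⊆ (ch x).target := by
    rintro _ ⟨m, hm, rfl⟩; exact (ch x).map_source (hsS hm)
  have hout : ∀ y ∈ (ch x).target, y ∉ ch x '' tsupport W → (ch x).symm y ∉ tsupport W :=
    fun y hy hK hm => hK ⟨_, hm, (ch x).right_inv hy⟩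
  have hW0 : ∀ y ∈ (ch x).target, y ∉ ch x '' tsupport W → W ((ch x).symm y) = 0 :=
    fun y hy hK => image_eq_zero_of_notMem_tsupport (hout y hy hK)
  have hD0 : ∀ y ∈ (ch x).target, (ch x).symm y ∉ tsupport W →
      num (chartDif W x y) (chartDif f x y) = 0 := fun y hy hK => by
    rw [chartDif_eq hW hy, dif_eq_zero hK]; simp [num]
  obtain ⟨R, hR, hRK⟩ := hKc.isBounded.subset_ball_lt 0 0
  have hWc : ContinuousOn (fun y => W ((ch x).symm y)) (ch x).target :=
    hW.continuous.comp_continuousOn (continuousOn_extChartAt_symm x)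
  have hPc : ∀ a : E2, ContinuousOn ((ch x).target.indicator
      fun z => ⟪W ((ch x).symm z), chartDif f x z a⟫) {y | 0 ≤ y 0} := fun a =>
    continuousOn_ind hKc.isClosed hKT
      (hWc.inner ((continuousOn_chartDif h.smooth1 x).clm_apply continuousOn_const))
      (fun y hy hK => by rw [hW0 y hy hK, inner_zero_left])
  have hzero : ∀ a : E2, ∀ y ∉ (ch x).target, HasFDerivAt ((ch x).target.indicator
      fun z => ⟪W ((ch x).symm z), chartDif f x z a⟫) (0 : E2 →L[ℝ] ℝ) y := fun a y hy => by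
    refine (hasFDerivAt_const (0 : ℝ) y).congr_of_eventuallyEq ?_
    filter_upwards [hKc.isClosed.isOpen_compl.mem_nhds (fun hk => hy (hKT hk))] with z hz
    by_cases hz' : z ∈ (ch x).target
    · rw [indicator_of_mem hz', hW0 z hz' hz, inner_zero_left]
    · exact indicator_of_notMem hz' _
  have hdiff : ∀ a : E2, ∀ y : E2, 0 < y 0 → DifferentiableAt ℝ ((ch x).target.indicator
      fun z => ⟪W ((ch x).symm z), chartDif f x z a⟫) y := fun a y h0 => by
    by_cases hy : y ∈ (ch x).target
    · obtain ⟨S, -, hS⟩ := interior_deriv h.smooth hW hy h0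
      obtain ⟨L, hL, -⟩ := hS a
      exact hL.differentiableAt
    · exact (hzero a y hy).differentiableAt
  have key := green _ _ ((ch x).target.indicator fun y => num (chartDif W x y) (chartDif f x y))
    _ _ hR (hPc (ev 0)) (hPc (ev 1))
    (continuousOn_ind hKc.isClosed hKT (continuousOn_num h.smooth1 hW x)
      fun y hy hK => hD0 y hy (hout y hy hK))
    (fun y h0 => (hdiff (ev 0) y h0).hasFDerivAt) (fun y h0 => (hdiff (ev 1) y h0).hasFDerivAt)
    (fun y h0 => by
      by_cases hy : y ∈ (ch x).target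
      · obtain ⟨S, hsym, hS⟩ := interior_deriv h.smooth hW hy h0
        obtain ⟨L0, hL0, e0⟩ := hS (ev 0)
        obtain ⟨L1, hL1, e1⟩ := hS (ev 1)
        rw [hL0.fderiv, hL1.fderiv, e0, e1, indicator_of_mem hy, hsym (ev 0) (ev 1), num]
        ring
      · rw [(hzero _ y hy).fderiv, (hzero _ y hy).fderiv, indicator_of_notMem hy]; simp)
    (fun y _ hy => by
      have hK : y ∉ ch x '' tsupport W := fun hk => by
        have := hRK hk
        simp only [mem_ball_zero_iff] at this
        linarith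
      by_cases hy' : y ∈ (ch x).target
      · simp only [indicator_of_mem hy', hW0 y hy' hK, inner_zero_left, hD0 y hy' (hout y hy' hK),
          and_self]
      · simp only [indicator_of_notMem hy', and_self])
  rw [integral_area h.smooth1 x (continuous_curlM h hW) (fun m hm => by
    simp [curlM, dif_eq_zero (fun hm' => hm (hsS hm')), num])]
  have hi : {y : E2 | 0 ≤ y 0} ∩ (ch x).target = (ch x).target :=
    inter_eq_right.2 (fun y hy => tgt_nonneg hy)
  rw [setIntegral_indicator (measurableSet_tgt x), hi] at key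
  unfold bd
  rw [neg_mul, ← mul_neg, ← key, ← integral_const_mul]
  refine setIntegral_congr_fun (measurableSet_tgt x) fun y hy => ?_
  rw [curlM_ch h.smooth1 hW hy]
  by_cases hm : (ch x).symm y ∈ tsupport W
  · rw [hε y hy (hs hm)]
    have := den_ne_zero (h.inj_ch hy) (h.unit _) (h.perp_ch hy)
    field_simp
  · rw [hD0 y hy hm]; simp

omit [MeasurableSpace M] [BorelSpace M] [CompactSpace M] in
theorem exists_sign (h : IsCMC f N H) (x : M) : ∃ (U : Set M) (ε : ℝ), IsOpen U ∧ x ∈ U ∧
    U ⊆ (ch x).source ∧ |ε| = 1 ∧ ∀ y ∈ (ch x).target, (ch x).symm y ∈ U →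
      jac (chartDif f x y) = ε * den (chartDif f x y) (N ((ch x).symm y)) := by
  set d : M → ℝ := fun m => den (chartDif f x (ch x m)) (N ((ch x).symm (ch x m))) with hd
  have hc : ContinuousOn d (ch x).source :=
    (continuousOn_den h x).comp (continuousOn_extChartAt x) (fun m hm => (ch x).map_source hm)
  have hx := mem_extChartAt_target (I := 𝓡∂ 2) x
  have hne : d x ≠ 0 := den_ne_zero (h.inj_ch hx) (h.unit _) (h.perp_ch hx)
  rcases lt_or_gt_of_ne hne with hlt | hgt
  · refine ⟨(ch x).source ∩ d ⁻¹' Iio 0, -1, hc.isOpen_inter_preimage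
      (isOpen_extChartAt_source x) isOpen_Iio, ⟨mem_extChartAt_source x, hlt⟩, inter_subset_left,
      by simp, fun y hy hm => ?_⟩
    have h2 : d ((ch x).symm y) < 0 := hm.2
    simp only [hd, (ch x).right_inv hy] at h2
    rw [← abs_den (h.unit _) (h.perp_ch hy), abs_of_neg h2]; ring
  · refine ⟨(ch x).source ∩ d ⁻¹' Ioi 0, 1, hc.isOpen_inter_preimage
      (isOpen_extChartAt_source x) isOpen_Ioi, ⟨mem_extChartAt_source x, hgt⟩, inter_subset_left,
      by simp, fun y hy hm => ?_⟩
    have h2 : 0 < d ((ch x).symm y) := hm.2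
    simp only [hd, (ch x).right_inv hy] at h2
    rw [← abs_den (h.unit _) (h.perp_ch hy), abs_of_pos h2]; ring

end Pool.Agent.P.MP_a07190_gt
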